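import Pool.Agent.NPC.Num

/-!
# The algorithm, for lists
-/

set_option autoImplicit false

namespace Pool.Agent.P8H86.ST

open Pool.Agent.NPC

section

variable {α : Type} [DecidableEq α]

/-- the exchange of `f` for `g` -/
def swp (T B : List α) (f g : α) : List α :=
  T.filter fun x => (decide (x ∈ B) && !decide (x = f)) || decide (x = g)

/-- the exchange of the element number `i` for the element number `j`, if it is possible -/
def exch (T : List α) (I : List α → Bool) (B : List α) (i j : ℕ) : List α :=
  (T[i]?).elim B fun f => (T[j]?).elim B fun g =>
    bif decide (f ∈ B) && !decide (g ∈ B) && I (swp T B f g) then swp T B f g else B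

/-- the number of bits of an index -/
def wid (T : List α) : ℕ := (2 * T.length).bits.length

/-- one step of the walk, with random bits `c` -/
def stp (T : List α) (I : List α → Bool) (B : List α) (c : List Bool) : List α :=
  exch T I B (valB (c.take (wid T))) (valB (c.drop (wid T)))

/-- the walk -/
def walk (T : List α) (I : List α → Bool) (B0 : List α) : ℕ → List Bool → List α
  | 0, _ => B0
  | t + 1, r => stp T I (walk T I B0 t (r.drop (2 * wid T))) (r.take (2 * wid T))

theorem walk_eq (T : List α) (I : List α → Bool) (B0 : List α) (t : ℕ) (r : List Bool) :
    walk T I B0 t r = ((List.range t).map fun k =>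
      (r.drop (k * (2 * wid T))).take (2 * wid T)).foldr (fun c B => stp T I B c) B0 := by
  induction t generalizing r with
  | zero => rfl
  | succ t ih =>
    rw [walk, ih, List.range_succ_eq_map, List.map_cons, List.foldr_cons, List.map_map]
    congr 1
    · congr 1
      refine List.map_congr_left fun k _ => ?_
      simp only [Function.comp_apply, List.drop_drop, Nat.succ_eq_add_one]
      congr 2
      ring
    · simp

/-- a greedy basis -/
def greedy (I : List α → Bool) (T : List α) : List α :=
  T.foldr (fun f acc => bif I (f :: acc) then f :: acc else acc) []

/-- all subsets, if there are at most `N` -/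
def subs (N : ℕ) (T : List α) : List (List α) :=
  T.foldr (fun f acc => bif decide (2 * acc.length ≤ N) then acc ++ acc.map (fun B => f :: B)
    else []) [[]]

omit [DecidableEq α] in
theorem subs_eq {N : ℕ} {T : List α} (h : 2 ^ T.length ≤ N) : subs N T = T.sublists' := by
  induction T with
  | nil => simp [subs]
  | cons f T ih =>
    have h1 : 2 ^ T.length ≤ N := le_trans (Nat.pow_le_pow_right (by norm_num) (by simp)) h
    have h2 : subs N (f :: T) = bif decide (2 * (subs N T).length ≤ N) then
      subs N T ++ (subs N T).map (fun B => f :: B) else [] := rfl
    rw [h2, ih h1, List.length_sublists', decide_eq_true (by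
      rw [List.length_cons, pow_succ] at h
      omega), cond_true, List.sublists'_cons]

/-- adjacent bases -/
def adj (B B' : List α) : Bool :=
  decide ((B.filter fun f => !decide (f ∈ B')).length = 1) &&
    decide ((B'.filter fun f => !decide (f ∈ B)).length = 1)

/-- one step of the computation of the distribution of the walk -/
def dstep (N C : ℕ) (v : List (List α × ℕ)) : List (List α × ℕ) :=
  v.map fun p => (p.1, min ((C - (v.filter fun q => adj p.1 q.1).length) * p.2 +
    ((v.filter fun q => adj p.1 q.1).map Prod.snd).sum) (2 ^ N))

/-- the list of the bases -/
def bl (N : ℕ) (I : List α → Bool) (T : List α) : List (List α) :=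
  (subs N T).filter fun B => decide (B.length = (greedy I T).length) && I B

/-- the numbers of the random strings which lead to the bases -/
def dist (N : ℕ) (I : List α → Bool) (T : List α) (t : ℕ) : List (List α × ℕ) :=
  (dstep N (2 ^ (2 * wid T)))^[t]
    ((bl N I T).map fun B => (B, bif decide (B = greedy I T) then 1 else 0))

/-- the weights of the correction -/
def wts (N : ℕ) (I : List α → Bool) (T : List α) (t h : ℕ) : List (List α × ℕ) :=
  (dist N I T t).map fun p => (p.1, 2 ^ h * 2 ^ (2 * wid T * t) -
    (2 ^ h - 1) * (dist N I T t).length * p.2)

/-- selection by weights -/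
def selc (z : ℕ) (v : List (List α × ℕ)) : ℕ × Option (List α) :=
  v.foldr (fun p s => (s.1 + p.2, bif decide (s.1 ≤ z) && decide (z < s.1 + p.2) then some p.1
    else s.2)) (0, none)

end

end Pool.Agent.P8H86.ST
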