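import Mathlib

/-!
# Convergence of a lazy symmetric random walk
-/

set_option autoImplicit false

namespace Pool.Agent.P8H86.ST

open Finset

variable {β : Type}

section

variable (Ω : Finset β) (A : β → β → Prop) [∀ B B', Decidable (A B B')]

/-- the Laplacian -/
def lap (u : β → ℝ) (B : β) : ℝ := ∑ B' ∈ Ω, if A B B' then u B - u B' else 0

/-- the Dirichlet form -/
def dir (u : β → ℝ) : ℝ := ∑ B ∈ Ω, ∑ B' ∈ Ω, if A B B' then (u B - u B') ^ 2 else 0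

variable {Ω A}

theorem dir_eq (hsymm : ∀ B B', A B B' ↔ A B' B) (u : β → ℝ) :
    dir Ω A u = 2 * ∑ B ∈ Ω, u B * lap Ω A u B := by
  have h1 : ∑ B ∈ Ω, u B * lap Ω A u B =
      ∑ B ∈ Ω, ∑ B' ∈ Ω, if A B B' then u B * (u B - u B') else 0 := by
    refine sum_congr rfl fun B _ => ?_
    rw [lap, mul_sum]
    refine sum_congr rfl fun B' _ => ?_
    split_ifs <;> simp
  have h2 : ∑ B ∈ Ω, u B * lap Ω A u B =
      ∑ B ∈ Ω, ∑ B' ∈ Ω, if A B B' then u B' * (u B' - u B) else 0 := by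
    rw [h1, sum_comm]
    refine sum_congr rfl fun B _ => sum_congr rfl fun B' _ => ?_
    by_cases h : A B B'
    · rw [if_pos h, if_pos ((hsymm _ _).1 h)]
    · rw [if_neg h, if_neg fun h' => h ((hsymm _ _).1 h')]
  rw [two_mul]
  nth_rewrite 1 [h1]
  rw [h2, ← sum_add_distrib, dir]
  refine sum_congr rfl fun B _ => ?_
  rw [← sum_add_distrib]
  refine sum_congr rfl fun B' _ => ?_
  split_ifs
  · ring
  · simp

theorem lap_sq_le {D : ℕ} (hD : ∀ B ∈ Ω, (Ω.filter fun B' => A B B').card ≤ D) (u : β → ℝ) :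
    ∑ B ∈ Ω, lap Ω A u B ^ 2 ≤ D * dir Ω A u := by
  rw [dir, mul_sum]
  refine sum_le_sum fun B hB => ?_
  rw [lap, ← sum_filter, ← sum_filter]
  refine (sq_sum_le_card_mul_sum_sq (s := Ω.filter fun B' => A B B')
    (f := fun B' => u B - u B')).trans ?_
  refine mul_le_mul_of_nonneg_right (by exact_mod_cast hD B hB) (sum_nonneg fun _ _ => sq_nonneg _)

/-- one step contracts -/
theorem step_contract (hsymm : ∀ B B', A B B' ↔ A B' B) {D : ℕ}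
    (hD : ∀ B ∈ Ω, (Ω.filter fun B' => A B B').card ≤ D) {κ : ℝ} (hκ : 0 ≤ κ) (hκD : 2 * κ * D ≤ 1)
    (hP : ∀ f : β → ℝ, ∑ B ∈ Ω, ∑ B' ∈ Ω, (f B - f B') ^ 2 ≤ (Ω.card : ℝ) * dir Ω A f)
    (hne : Ω.Nonempty) (u : β → ℝ) (hu : ∑ B ∈ Ω, u B = 0) :
    ∑ B ∈ Ω, (u B - κ * lap Ω A u B) ^ 2 ≤ (1 - κ) * ∑ B ∈ Ω, u B ^ 2 := by
  have hN : (0 : ℝ) < (Ω.card : ℝ) := by exact_mod_cast card_pos.2 hne
  have e1 : ∑ B ∈ Ω, (u B - κ * lap Ω A u B) ^ 2 = ∑ B ∈ Ω, u B ^ 2 -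
      2 * κ * ∑ B ∈ Ω, u B * lap Ω A u B + κ ^ 2 * ∑ B ∈ Ω, lap Ω A u B ^ 2 := by
    rw [mul_sum, mul_sum, ← sum_sub_distrib, ← sum_add_distrib]
    exact sum_congr rfl fun B _ => by ring
  have e2 := dir_eq (Ω := Ω) hsymm u
  have e3 := lap_sq_le hD u
  have e4 : 2 * ∑ B ∈ Ω, u B ^ 2 ≤ dir Ω A u := by
    have h1 := hP u
    have h2 : ∑ B ∈ Ω, ∑ B' ∈ Ω, (u B - u B') ^ 2 = 2 * (Ω.card * ∑ B ∈ Ω, u B ^ 2) := by
      have : ∑ B ∈ Ω, ∑ B' ∈ Ω, (u B - u B') ^ 2 =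
          ∑ B ∈ Ω, ∑ B' ∈ Ω, (u B ^ 2 + u B' ^ 2 - 2 * (u B * u B')) :=
        sum_congr rfl fun _ _ => sum_congr rfl fun _ _ => by ring
      rw [this]
      simp only [sum_sub_distrib, sum_add_distrib, sum_const, nsmul_eq_mul, ← mul_sum, ← sum_mul]
      rw [hu]
      ring
    rw [h2] at h1
    have h3 : (Ω.card : ℝ) * (2 * ∑ B ∈ Ω, u B ^ 2) ≤ Ω.card * dir Ω A u := by linarith
    exact le_of_mul_le_mul_left h3 hN
  have hdir : 0 ≤ dir Ω A u := by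
    have : 0 ≤ ∑ B ∈ Ω, u B ^ 2 := sum_nonneg fun _ _ => sq_nonneg _
    linarith
  have e5 : κ ^ 2 * ∑ B ∈ Ω, lap Ω A u B ^ 2 ≤ κ / 2 * dir Ω A u := by
    calc κ ^ 2 * ∑ B ∈ Ω, lap Ω A u B ^ 2 ≤ κ ^ 2 * (D * dir Ω A u) :=
          mul_le_mul_of_nonneg_left e3 (by positivity)
      _ = κ / 2 * (2 * κ * D) * dir Ω A u := by ring
      _ ≤ κ / 2 * 1 * dir Ω A u := by
          refine mul_le_mul_of_nonneg_right ?_ hdir
          exact mul_le_mul_of_nonneg_left hκD (by positivity)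
      _ = κ / 2 * dir Ω A u := by ring
  have e6 : κ * (2 * ∑ B ∈ Ω, u B ^ 2) ≤ κ * dir Ω A u := mul_le_mul_of_nonneg_left e4 hκ
  rw [e1]
  have e7 : 2 * κ * ∑ B ∈ Ω, u B * lap Ω A u B = κ * dir Ω A u := by rw [e2]; ring
  rw [e7]
  nlinarith

theorem sum_lap (hsymm : ∀ B B', A B B' ↔ A B' B) (u : β → ℝ) : ∑ B ∈ Ω, lap Ω A u B = 0 := by
  have h1 : ∑ B ∈ Ω, lap Ω A u B = ∑ B ∈ Ω, ∑ B' ∈ Ω, if A B B' then u B - u B' else 0 := rfl
  have h2 : ∑ B ∈ Ω, lap Ω A u B = ∑ B ∈ Ω, ∑ B' ∈ Ω, if A B B' then u B' - u B else 0 := by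
    rw [h1, sum_comm]
    refine sum_congr rfl fun B _ => sum_congr rfl fun B' _ => ?_
    by_cases h : A B B'
    · rw [if_pos h, if_pos ((hsymm _ _).1 h)]
    · rw [if_neg h, if_neg fun h' => h ((hsymm _ _).1 h')]
  have h3 : ∑ B ∈ Ω, lap Ω A u B + ∑ B ∈ Ω, lap Ω A u B = 0 := by
    nth_rewrite 1 [h1]
    rw [h2, ← sum_add_distrib]
    refine sum_eq_zero fun B _ => ?_
    rw [← sum_add_distrib]
    refine sum_eq_zero fun B' _ => ?_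
    split_ifs
    · ring
    · ring
  linarith

/-- **Convergence to the uniform distribution.** -/
theorem converge (hsymm : ∀ B B', A B B' ↔ A B' B) {D : ℕ}
    (hD : ∀ B ∈ Ω, (Ω.filter fun B' => A B B').card ≤ D) {κ : ℝ} (hκ : 0 ≤ κ) (hκ1 : κ ≤ 1)
    (hκD : 2 * κ * D ≤ 1)
    (hP : ∀ f : β → ℝ, ∑ B ∈ Ω, ∑ B' ∈ Ω, (f B - f B') ^ 2 ≤ (Ω.card : ℝ) * dir Ω A f)
    (p : ℕ → β → ℝ) (B0 : β) (hB0 : B0 ∈ Ω) (h0 : p 0 B0 = 1) (h0' : ∀ B ∈ Ω, B ≠ B0 → p 0 B = 0)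
    (hstep : ∀ t, ∀ B ∈ Ω, p (t + 1) B = p t B - κ * lap Ω A (p t) B) (t : ℕ) :
    (∑ B ∈ Ω, p t B = 1) ∧ ∑ B ∈ Ω, (p t B - 1 / Ω.card) ^ 2 ≤ (1 - κ) ^ t := by
  classical
  have hne : Ω.Nonempty := ⟨B0, hB0⟩
  have hN : (0 : ℝ) < (Ω.card : ℝ) := by exact_mod_cast card_pos.2 hne
  induction t with
  | zero =>
    have hs : ∑ B ∈ Ω, p 0 B = 1 := by
      rw [sum_eq_single B0 (fun B hB hne => h0' B hB hne) (fun h => absurd hB0 h), h0]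
    refine ⟨hs, ?_⟩
    rw [pow_zero]
    have h1 : ∑ B ∈ Ω, (p 0 B - 1 / Ω.card) ^ 2 = ∑ B ∈ Ω, p 0 B ^ 2 -
        2 / Ω.card * ∑ B ∈ Ω, p 0 B + Ω.card * (1 / Ω.card) ^ 2 := by
      rw [mul_sum, ← sum_sub_distrib]
      have : (Ω.card : ℝ) * (1 / (Ω.card : ℝ)) ^ 2 = ∑ B ∈ Ω, (1 / (Ω.card : ℝ)) ^ 2 := by
        rw [sum_const, nsmul_eq_mul]
      rw [this, ← sum_add_distrib]
      exact sum_congr rfl fun B _ => by ring
    have h2 : ∑ B ∈ Ω, p 0 B ^ 2 = 1 := by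
      rw [sum_eq_single B0 (fun B hB hne => by rw [h0' B hB hne]; norm_num)
        (fun h => absurd hB0 h), h0]
      norm_num
    rw [h1, h2, hs]
    have h3 : (Ω.card : ℝ) * (1 / (Ω.card : ℝ)) ^ 2 = 1 / Ω.card := by field_simp
    rw [h3]
    have : 0 < 1 / (Ω.card : ℝ) := by positivity
    have e : 2 / (Ω.card : ℝ) * 1 = 2 * (1 / Ω.card) := by ring
    rw [e]
    linarith
  | succ t ih =>
    obtain ⟨ih1, ih2⟩ := ih
    have hl : ∀ B, lap Ω A (fun B => p t B - 1 / Ω.card) B = lap Ω A (p t) B := by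
      intro B
      unfold lap
      refine sum_congr rfl fun B' _ => ?_
      split_ifs
      · ring
      · rfl
    have hs : ∑ B ∈ Ω, p (t + 1) B = 1 := by
      rw [sum_congr rfl (hstep t), sum_sub_distrib, ← mul_sum, sum_lap hsymm, ih1]
      ring
    refine ⟨hs, ?_⟩
    have hu : ∑ B ∈ Ω, (p t B - 1 / Ω.card) = 0 := by
      rw [sum_sub_distrib, ih1, sum_const, nsmul_eq_mul]
      field_simp
      ring
    have h1 := step_contract hsymm hD hκ hκD hP hne (fun B => p t B - 1 / Ω.card) hu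
    have h2 : ∑ B ∈ Ω, (p (t + 1) B - 1 / Ω.card) ^ 2 =
        ∑ B ∈ Ω, ((p t B - 1 / Ω.card) - κ * lap Ω A (fun B => p t B - 1 / Ω.card) B) ^ 2 := by
      refine sum_congr rfl fun B hB => ?_
      rw [hstep t B hB, hl]
      ring
    rw [h2]
    refine h1.trans ?_
    rw [pow_succ, mul_comm]
    exact mul_le_mul_of_nonneg_right ih2 (by linarith)

/-- the final form: enough steps -/
theorem enough (hsymm : ∀ B B', A B B' ↔ A B' B) {D : ℕ}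
    (hD : ∀ B ∈ Ω, (Ω.filter fun B' => A B B').card ≤ D) {C : ℕ} (hC : 0 < C) (hCD : 2 * D ≤ C)
    (hP : ∀ f : β → ℝ, ∑ B ∈ Ω, ∑ B' ∈ Ω, (f B - f B') ^ 2 ≤ (Ω.card : ℝ) * dir Ω A f)
    (p : ℕ → β → ℝ) (B0 : β) (hB0 : B0 ∈ Ω) (h0 : p 0 B0 = 1) (h0' : ∀ B ∈ Ω, B ≠ B0 → p 0 B = 0)
    (hstep : ∀ t, ∀ B ∈ Ω, p (t + 1) B = p t B - 1 / C * lap Ω A (p t) B) (m h : ℕ)
    (hΩ : Ω.card ≤ 2 ^ m) (t : ℕ) (ht : 2 * (m + h) * C ≤ t) (B : β) (hB : B ∈ Ω) :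
    (2 ^ h - 1) * (Ω.card : ℝ) * p t B ≤ 2 ^ h := by
  have hC' : (0 : ℝ) < C := by exact_mod_cast hC
  have hC1 : (1 : ℝ) ≤ C := by exact_mod_cast hC
  have hκ : (0 : ℝ) ≤ 1 / C := by positivity
  have hκ1 : (1 : ℝ) / C ≤ 1 := by rw [div_le_one hC']; exact hC1
  have hκD : 2 * (1 / (C : ℝ)) * D ≤ 1 := by
    rw [show 2 * (1 / (C : ℝ)) * D = (2 * D) / C by ring, div_le_one hC']
    exact_mod_cast hCD
  have hne : Ω.Nonempty := ⟨B0, hB0⟩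
  have hN : (0 : ℝ) < (Ω.card : ℝ) := by exact_mod_cast card_pos.2 hne
  obtain ⟨-, h1⟩ := converge hsymm hD hκ hκ1 hκD hP p B0 hB0 h0 h0' hstep t
  have h2 : (p t B - 1 / Ω.card) ^ 2 ≤ (1 - 1 / (C : ℝ)) ^ (2 * (m + h) * C) :=
    (single_le_sum (f := fun B => (p t B - 1 / Ω.card) ^ 2)
      (fun _ _ => sq_nonneg _) hB).trans (h1.trans (pow_le_pow_of_le_one (by linarith)
      (by linarith) ht))
  have h3 : (1 - 1 / (C : ℝ)) ^ C ≤ 1 / 2 := by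
    have e1 : (1 - 1 / (C : ℝ)) ^ C ≤ Real.exp (-1) := by
      have e2 : 1 - 1 / (C : ℝ) ≤ Real.exp (-(1 / C)) := by
        have := Real.add_one_le_exp (-(1 / (C : ℝ)))
        linarith
      calc (1 - 1 / (C : ℝ)) ^ C ≤ Real.exp (-(1 / C)) ^ C :=
            pow_le_pow_left₀ (by linarith) e2 C
        _ = Real.exp (-1) := by
            rw [← Real.exp_nat_mul]
            congr 1
            field_simp
    refine e1.trans ?_
    rw [Real.exp_neg, one_div]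
    refine inv_anti₀ (by norm_num) ?_
    have := Real.add_one_le_exp (1 : ℝ)
    linarith
  have h4 : (p t B - 1 / Ω.card) ^ 2 ≤ ((1 / 2) ^ (m + h)) ^ 2 := by
    refine h2.trans ?_
    have e1 : (1 - 1 / (C : ℝ)) ^ (2 * (m + h) * C) = ((1 - 1 / (C : ℝ)) ^ C) ^ (2 * (m + h)) := by
      rw [← pow_mul]
      congr 1
      ring
    have e2 : ((1 / 2 : ℝ) ^ (m + h)) ^ 2 = (1 / 2) ^ (2 * (m + h)) := by
      rw [← pow_mul, mul_comm (m + h) 2]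
    rw [e1, e2]
    exact pow_le_pow_left₀ (pow_nonneg (by linarith) _) h3 _
  have h5 : p t B - 1 / Ω.card ≤ (1 / 2) ^ (m + h) :=
    le_of_sq_le_sq h4 (by positivity)
  have h6 : (Ω.card : ℝ) * p t B ≤ 1 + (1 / 2) ^ h := by
    have e1 : (Ω.card : ℝ) * (p t B - 1 / Ω.card) ≤ 2 ^ m * (1 / 2) ^ (m + h) := by
      calc (Ω.card : ℝ) * (p t B - 1 / Ω.card)
          ≤ Ω.card * (1 / 2) ^ (m + h) := mul_le_mul_of_nonneg_left h5 hN.le
        _ ≤ 2 ^ m * (1 / 2) ^ (m + h) :=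
            mul_le_mul_of_nonneg_right (by exact_mod_cast hΩ) (by positivity)
    have e2 : (2 : ℝ) ^ m * (1 / 2) ^ (m + h) = (1 / 2) ^ h := by
      rw [pow_add, ← mul_assoc, ← mul_pow]
      norm_num
    have e3 : (Ω.card : ℝ) * (p t B - 1 / Ω.card) =
        Ω.card * p t B - 1 := by
      field_simp
    rw [e2, e3] at e1
    linarith
  have h7 : (0 : ℝ) ≤ 2 ^ h - 1 := by
    have : (1 : ℝ) ≤ 2 ^ h := one_le_pow₀ (by norm_num)
    linarith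
  calc (2 ^ h - 1) * (Ω.card : ℝ) * p t B
      = (2 ^ h - 1) * (Ω.card * p t B) := by ring
    _ ≤ (2 ^ h - 1) * (1 + (1 / 2) ^ h) := mul_le_mul_of_nonneg_left h6 h7
    _ = 2 ^ h - (1 / 2) ^ h := by
        have : (2 : ℝ) ^ h * (1 / 2) ^ h = 1 := by rw [← mul_pow]; norm_num
        nlinarith
    _ ≤ 2 ^ h := by
        have : (0 : ℝ) ≤ (1 / 2) ^ h := by positivity
        linarith

end

end Pool.Agent.P8H86.ST
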