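import Mathlib

/-!
# Coin flips
-/

set_option autoImplicit false

namespace Pool.Agent.P8H86.ST

open Finset MeasureTheory
open scoped ENNReal

/-- The distribution of an infinite sequence of independent fair coin flips. -/
noncomputable def coins : Measure (ℕ → Bool) :=
  Measure.infinitePi fun _ => (PMF.uniformOfFintype Bool).toMeasure

instance : IsProbabilityMeasure coins := by
  unfold coins
  infer_instance

/-- the first `n` coin flips -/
def pre (ω : ℕ → Bool) (n : ℕ) : List Bool := List.ofFn fun i : Fin n => ω i

/-- the coin flips with the numbers `o, ..., o + n - 1` -/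
def blk (ω : ℕ → Bool) (o n : ℕ) : List Bool := List.ofFn fun i : Fin n => ω (o + i)

theorem pre_length (ω : ℕ → Bool) (n : ℕ) : (pre ω n).length = n := by simp [pre]
theorem blk_length (ω : ℕ → Bool) (o n : ℕ) : (blk ω o n).length = n := by simp [blk]

theorem pre_add (ω : ℕ → Bool) (m n : ℕ) : pre ω (m + n) = pre ω m ++ blk ω m n := by
  unfold pre blk
  rw [List.ofFn_add]
  rfl

/-- the average of a function of `n` coin flips -/
noncomputable def avg : ℕ → (List Bool → ℝ) → ℝ
  | 0, φ => φ []
  | n + 1, φ => (avg n (fun l => φ (false :: l)) + avg n (fun l => φ (true :: l))) / 2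

theorem avg_congr {n : ℕ} {φ ψ : List Bool → ℝ} (h : ∀ l, l.length = n → φ l = ψ l) :
    avg n φ = avg n ψ := by
  induction n generalizing φ ψ with
  | zero => exact h [] rfl
  | succ n ih =>
    rw [avg, avg, ih fun l hl => h _ (by simp [hl]), ih fun l hl => h _ (by simp [hl])]

theorem avg_mono {n : ℕ} {φ ψ : List Bool → ℝ} (h : ∀ l, l.length = n → φ l ≤ ψ l) :
    avg n φ ≤ avg n ψ := by
  induction n generalizing φ ψ with
  | zero => exact h [] rfl
  | succ n ih =>
    rw [avg, avg]
    have h1 := ih (φ := fun l => φ (false :: l)) (ψ := fun l => ψ (false :: l))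
      fun l hl => h _ (by simp [hl])
    have h2 := ih (φ := fun l => φ (true :: l)) (ψ := fun l => ψ (true :: l))
      fun l hl => h _ (by simp [hl])
    linarith

theorem avg_const (n : ℕ) (c : ℝ) : avg n (fun _ => c) = c := by
  induction n with
  | zero => rfl
  | succ n ih => rw [avg, ih]; ring

theorem avg_add (n : ℕ) (φ ψ : List Bool → ℝ) :
    avg n (fun l => φ l + ψ l) = avg n φ + avg n ψ := by
  induction n generalizing φ ψ with
  | zero => rfl
  | succ n ih => rw [avg, avg, avg, ih, ih]; ring

theorem avg_mul (n : ℕ) (c : ℝ) (φ : List Bool → ℝ) :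
    avg n (fun l => c * φ l) = c * avg n φ := by
  induction n generalizing φ with
  | zero => rfl
  | succ n ih => rw [avg, avg, ih, ih]; ring

theorem avg_mul' (n : ℕ) (c : ℝ) (φ : List Bool → ℝ) :
    avg n (fun l => φ l * c) = avg n φ * c := by
  rw [mul_comm, ← avg_mul]
  exact avg_congr fun l _ => mul_comm _ _

theorem avg_sum {ι : Type} (n : ℕ) (s : Finset ι) (φ : ι → List Bool → ℝ) :
    avg n (fun l => ∑ i ∈ s, φ i l) = ∑ i ∈ s, avg n (φ i) := by
  classical
  induction s using Finset.induction_on with
  | empty => simp [avg_const]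
  | insert a s ha ih =>
    rw [sum_insert ha, ← ih, ← avg_add]
    exact avg_congr fun l _ => by rw [sum_insert ha]

theorem avg_append (m n : ℕ) (φ : List Bool → ℝ) :
    avg (m + n) φ = avg m (fun l => avg n (fun l' => φ (l ++ l'))) := by
  induction m generalizing φ with
  | zero => rw [zero_add]; rfl
  | succ m ih =>
    rw [show m + 1 + n = (m + n) + 1 by ring, avg, avg, ih, ih]
    rfl

theorem avg_nonneg {n : ℕ} {φ : List Bool → ℝ} (h : ∀ l, l.length = n → 0 ≤ φ l) :
    0 ≤ avg n φ := by
  have := avg_mono (n := n) (φ := fun _ => 0) (ψ := φ) h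
  rwa [avg_const] at this

theorem avg_eq_sum (n : ℕ) (φ : List Bool → ℝ) :
    avg n φ = (1 / 2) ^ n * ∑ v : Fin n → Bool, φ (List.ofFn v) := by
  induction n generalizing φ with
  | zero => simp [avg]
  | succ n ih =>
    have h1 : ∑ v : Fin (n + 1) → Bool, φ (List.ofFn v) =
        ∑ p : Bool × (Fin n → Bool), φ (p.1 :: List.ofFn p.2) := by
      rw [← (Fin.consEquiv fun _ : Fin (n + 1) => Bool).sum_comp]
      refine sum_congr rfl fun p _ => ?_
      congr 1
      rw [List.ofFn_succ]
      rfl
    rw [avg, ih, ih, h1, Fintype.sum_prod_type, Fintype.sum_bool, pow_succ]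
    ring

open scoped Classical in
/-- The probability of an event which depends on the first `n` coin flips. -/
theorem coins_pre (n : ℕ) (P : List Bool → Prop) :
    coins {ω | P (pre ω n)} = ENNReal.ofReal (avg n fun l => if P l then 1 else 0) := by
  have hset : {ω : ℕ → Bool | P (pre ω n)} =
      ⋃ v ∈ (univ.filter fun v : Fin n → Bool => P (List.ofFn v)),
        (Set.pi (range n : Set ℕ) fun i => if h : i < n then {v ⟨i, h⟩} else Set.univ) := by
    ext ω
    simp only [Set.mem_ofPred_eq, Set.mem_iUnion, mem_filter, mem_univ, true_and, Set.mem_pi,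
      exists_prop, pre, coe_range, Set.mem_Iio]
    constructor
    · intro h
      refine ⟨fun i => ω i, h, fun i hi => ?_⟩
      rw [dif_pos hi]
      rfl
    · rintro ⟨v, hv, h⟩
      have : (fun i : Fin n => ω i) = v := by
        funext i
        have := h i i.2
        rw [dif_pos i.2] at this
        exact this
      rw [this]
      exact hv
  have hmeas : ∀ (v : Fin n → Bool) (i : ℕ), MeasurableSet
      (if h : i < n then ({v ⟨i, h⟩} : Set Bool) else Set.univ) := by
    intro v i
    split_ifs
    · exact measurableSet_singleton _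
    · exact MeasurableSet.univ
  have hone : ∀ v : Fin n → Bool, coins (Set.pi (range n : Set ℕ) fun i =>
      if h : i < n then {v ⟨i, h⟩} else Set.univ) = (1 / 2) ^ n := by
    intro v
    unfold coins
    rw [Measure.infinitePi_pi (μ := fun _ : ℕ => (PMF.uniformOfFintype Bool).toMeasure)
      (fun i _ => hmeas v i)]
    have : ∀ i ∈ range n, (PMF.uniformOfFintype Bool).toMeasure
        (if h : i < n then ({v ⟨i, h⟩} : Set Bool) else Set.univ) = 1 / 2 := by
      intro i hi
      rw [dif_pos (mem_range.1 hi), PMF.toMeasure_apply_singleton _ _ (measurableSet_singleton _)]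
      simp
    rw [prod_congr rfl this, prod_const, card_range]
  rw [hset, measure_biUnion_finset]
  · rw [sum_congr rfl fun v _ => hone v, sum_const, avg_eq_sum, nsmul_eq_mul]
    have h1 : ∑ v : Fin n → Bool, (if P (List.ofFn v) then (1 : ℝ) else 0) =
        ((univ.filter fun v : Fin n → Bool => P (List.ofFn v)).card : ℝ) := by
      rw [← sum_filter, sum_const, nsmul_eq_mul, mul_one]
    rw [h1, ENNReal.ofReal_mul (by positivity), mul_comm]
    congr 1
    · rw [ENNReal.ofReal_pow (by norm_num)]
      congr 1
      rw [ENNReal.ofReal_div_of_pos (by norm_num)]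
      simp
    · simp
  · intro v _ w _ hvw
    refine Set.disjoint_left.2 fun ω h1 h2 => hvw ?_
    funext i
    have e1 := h1 i.1 (by simp)
    have e2 := h2 i.1 (by simp)
    simp only [i.2, dif_pos, Set.mem_singleton_iff] at e1 e2
    rw [← e1, ← e2]
  · intro v _
    exact MeasurableSet.pi (countable_toSet _) fun i _ => hmeas v i

end Pool.Agent.P8H86.ST
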