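import Pool.Agent.P8H86.ST.Mat

/-!
# The matroid of a finite family of vectors
-/

set_option autoImplicit false

namespace Pool.Agent.P8H86.ST

open Finset Module

variable {α : Type} [Fintype α] [DecidableEq α] {V : Type} [AddCommGroup V] [Module ℚ V]

theorem indep_card {v : α → V} {S : Finset α} (h : LinearIndepOn ℚ v (S : Set α)) :
    S.card = finrank ℚ (Submodule.span ℚ (v '' (S : Set α))) := by
  have h1 := finrank_span_eq_card h
  rw [Set.image_eq_range]
  have h2 : Fintype.card ↑(S : Set α) = S.card := by simp
  rw [h2] at h1
  exact h1.symm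

omit [DecidableEq α] in
theorem fin_span (v : α → V) (S : Set α) : FiniteDimensional ℚ (Submodule.span ℚ (v '' S)) :=
  FiniteDimensional.span_of_finite ℚ (Set.toFinite _)

omit [DecidableEq α] in
theorem fin_span' (v : α → V) : FiniteDimensional ℚ (Submodule.span ℚ (Set.range v)) :=
  FiniteDimensional.span_of_finite ℚ (Set.finite_range v)

/-- The matroid of a finite family of vectors. -/
noncomputable def FM.ofVec (v : α → V) : FM α where
  Ind S := LinearIndepOn ℚ v (S : Set α)
  r := finrank ℚ (Submodule.span ℚ (Set.range v))
  empty := by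
    rw [coe_empty]
    exact linearIndepOn_empty ℚ v
  mono := fun h hT => hT.mono (by exact_mod_cast h)
  aug := by
    intro S T hS hT hlt
    by_contra hcon
    push Not at hcon
    have hin : ∀ x ∈ T, v x ∈ Submodule.span ℚ (v '' (S : Set α)) := by
      intro x hx
      by_cases hxS : x ∈ S
      · exact Submodule.subset_span ⟨x, hxS, rfl⟩
      · by_contra hns
        refine hcon x hx hxS ?_
        rw [coe_insert]
        exact (linearIndepOn_insert (by exact_mod_cast hxS)).2 ⟨hS, hns⟩
    have hle : Submodule.span ℚ (v '' (T : Set α)) ≤ Submodule.span ℚ (v '' (S : Set α)) := by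
      rw [Submodule.span_le]
      rintro _ ⟨x, hx, rfl⟩
      exact hin x hx
    have := fin_span v (S : Set α)
    have h1 := Submodule.finrank_mono hle
    rw [← indep_card hS, ← indep_card hT] at h1
    omega
  le := by
    intro S hS
    rw [indep_card hS]
    have := fin_span' v
    exact Submodule.finrank_mono (Submodule.span_mono (Set.image_subset_range _ _))
  ex := by
    classical
    obtain ⟨S, hS, hmax⟩ := exists_max_image
      (univ.filter fun S : Finset α => LinearIndepOn ℚ v (S : Set α)) card
      ⟨∅, mem_filter.2 ⟨mem_univ _, by rw [coe_empty]; exact linearIndepOn_empty ℚ v⟩⟩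
    have hSi := (mem_filter.1 hS).2
    refine ⟨S, hSi, ?_⟩
    rw [indep_card hSi]
    have : Submodule.span ℚ (v '' (S : Set α)) = Submodule.span ℚ (Set.range v) := by
      refine le_antisymm (Submodule.span_mono (Set.image_subset_range _ _)) ?_
      rw [Submodule.span_le]
      rintro _ ⟨x, rfl⟩
      by_contra hns
      have hxS : x ∉ S := fun hx => hns (Submodule.subset_span ⟨x, hx, rfl⟩)
      have h1 : LinearIndepOn ℚ v ((insert x S : Finset α) : Set α) := by
        rw [coe_insert]
        exact (linearIndepOn_insert (by exact_mod_cast hxS)).2 ⟨hSi, hns⟩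
      have h2 := hmax (insert x S) (mem_filter.2 ⟨mem_univ _, h1⟩)
      rw [card_insert_of_notMem hxS] at h2
      omega
    rw [this]

theorem ofVec_ind {v : α → V} {S : Finset α} :
    (FM.ofVec v).Ind S ↔ LinearIndepOn ℚ v (S : Set α) := Iff.rfl

theorem ofVec_span {v : α → V} {S : Finset α} (h : LinearIndepOn ℚ v (S : Set α)) :
    S.card = (FM.ofVec v).r ↔
      Submodule.span ℚ (v '' (S : Set α)) = Submodule.span ℚ (Set.range v) := by
  rw [indep_card h]
  constructor
  · intro h1
    have := fin_span' v
    exact Submodule.eq_of_le_of_finrank_eq (Submodule.span_mono (Set.image_subset_range _ _)) h1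
  · intro h1
    rw [h1]
    rfl

end Pool.Agent.P8H86.ST
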