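import Pool.Agent.NPC.Defs
import Pool.Agent.P8H86.ST.Coins

/-!
# Probabilistic Turing machines, and spanning trees of simplicial complexes
-/

set_option autoImplicit false

namespace Pool.Agent.P8H86.ST

open MeasureTheory
open scoped ENNReal

/-- A probabilistic Turing machine working on bits: one of the stacks of a (multi-stack) Turing
machine of Mathlib contains the coin flips. -/
structure RandTM where
  /-- the machine -/
  tm : Turing.FinTM2
  /-- the input consists of bits -/
  inA : tm.Γ tm.k₀ ≃ Bool
  /-- the output consists of bits -/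
  outA : tm.Γ tm.k₁ ≃ Bool
  /-- the stack of the coin flips -/
  coin : tm.K
  /-- the coin flips are bits -/
  coinA : tm.Γ coin ≃ Bool
  /-- the coin flips are not the input -/
  ne : coin ≠ tm.k₀

namespace RandTM

variable (M : RandTM)

/-- The initial configuration for the input `x` and the coin flips `r`. -/
def init (x r : List Bool) : M.tm.Cfg where
  l := some M.tm.main
  var := M.tm.initialState
  stk := Function.update (Function.update (fun _ => []) M.tm.k₀ (x.map M.inA.symm)) M.coin
    (r.map M.coinA.symm)

/-- Started with the input `x` and the coin flips `r`, the machine halts after at most `n` steps with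
the output `y`. -/
def Halts (x r : List Bool) (n : ℕ) (y : List Bool) : Prop :=
  ∃ m ≤ n, ∃ c : M.tm.Cfg, (flip bind M.tm.step)^[m] (some (M.init x r)) = some c ∧ c.l = none ∧
    (c.stk M.tm.k₁).map M.outA = y

/-- Started with the input `x` and the infinite sequence `ω` of coin flips, the machine halts after
at most `n` steps with the output `y`: it does so for all sufficiently long initial segments of
`ω`. -/
def Outputs (x : List Bool) (ω : ℕ → Bool) (n : ℕ) (y : List Bool) : Prop :=
  ∀ᶠ N in Filter.atTop, M.Halts x (pre ω N) n y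

/-- The expected running time on the input `x`: the sum over `n` of the probabilities that the
machine has not halted after `n` steps. -/
noncomputable def expectedTime (x : List Bool) : ℝ≥0∞ :=
  ∑' n : ℕ, coins {ω | ¬ ∃ y, M.Outputs x ω n y}

/-- The probability that, on the input `x`, the machine halts with an output in `A`. -/
noncomputable def probOut (x : List Bool) (A : Set (List Bool)) : ℝ≥0∞ :=
  coins {ω | ∃ n, ∃ y ∈ A, M.Outputs x ω n y}

end RandTM

/-! ### Simplicial complexes -/

/-- A finite simplicial complex, given by its nonempty faces. -/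
def IsComplex (Δ : Finset (Finset ℕ)) : Prop :=
  ∅ ∉ Δ ∧ ∀ σ ∈ Δ, ∀ τ ⊆ σ, τ.Nonempty → τ ∈ Δ

/-- The complex has dimension `d`. -/
def HasDim (Δ : Finset (Finset ℕ)) (d : ℕ) : Prop :=
  (∀ σ ∈ Δ, σ.card ≤ d + 1) ∧ ∃ σ ∈ Δ, σ.card = d + 1

/-- The simplicial boundary of a face, as a rational chain; the faces are oriented by the order of
the vertices. -/
noncomputable def bdry (σ : Finset ℕ) : Finset ℕ →₀ ℚ :=
  ∑ v ∈ σ, Finsupp.single (σ.erase v) ((-1) ^ (σ.filter (· < v)).card)

/-- The faces of dimension `d`. -/
def facesOf (Δ : Finset (Finset ℕ)) (d : ℕ) : Finset (Finset ℕ) := Δ.filter fun σ => σ.card = d + 1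

/-- `Υ` is a `d`-dimensional spanning tree of the complex `Δ`: a subcomplex which contains all faces
of dimension less than `d`, and whose `d`-faces index a basis of the column space of the boundary
map `∂_d` of `Δ`. -/
def IsSpanningTree (Δ : Finset (Finset ℕ)) (d : ℕ) (Υ : Finset (Finset ℕ)) : Prop :=
  Υ ⊆ Δ ∧ IsComplex Υ ∧ (∀ σ ∈ Δ, σ.card ≤ d → σ ∈ Υ) ∧
    LinearIndepOn ℚ bdry (facesOf Υ d : Set (Finset ℕ)) ∧
    Submodule.span ℚ (bdry '' facesOf Υ d) = Submodule.span ℚ (bdry '' facesOf Δ d)

open scoped Classical in
/-- The set of the spanning trees. -/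
noncomputable def trees (Δ : Finset (Finset ℕ)) (d : ℕ) : Finset (Finset (Finset ℕ)) :=
  Δ.powerset.filter (IsSpanningTree Δ d)

/-- `L` is a list of all faces of `Δ`, without repetitions; a face is given by the increasing list of
its vertices. -/
def Lists (L : List (List ℕ)) (Δ : Finset (Finset ℕ)) : Prop :=
  L.Nodup ∧ (∀ f ∈ L, f.Pairwise (· < ·)) ∧ Δ = (L.map List.toFinset).toFinset

/-- The bit strings which code a complex: the codes of the lists of its faces. -/
def Codes (Δ : Finset (Finset ℕ)) : Set (List Bool) :=
  {x | ∃ L, x = NPC.bits L ∧ Lists L Δ}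

end Pool.Agent.P8H86.ST
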