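import Pool.Agent.P8H86.ST.Walk

/-!
# The distribution of the walk, and its computation
-/

set_option autoImplicit false

namespace Pool.Agent.P8H86.ST

open Finset Pool.Agent.NPC

theorem sum_range_two_mul (φ : ℕ → ℝ) (m : ℕ) :
    ∑ k ∈ range (2 * m), φ k = ∑ k ∈ range m, φ (2 * k) + ∑ k ∈ range m, φ (2 * k + 1) := by
  induction m with
  | zero => simp
  | succ m ih =>
    rw [show 2 * (m + 1) = 2 * m + 1 + 1 by ring, sum_range_succ, sum_range_succ, ih,
      sum_range_succ, sum_range_succ]
    ring

theorem avg_valB (n : ℕ) (φ : ℕ → ℝ) :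
    avg n (fun l => φ (valB l)) = (1 / 2) ^ n * ∑ k ∈ range (2 ^ n), φ k := by
  induction n generalizing φ with
  | zero => simp [avg, valB]
  | succ n ih =>
    have h1 : avg n (fun l => φ (valB (false :: l))) =
        (1 / 2) ^ n * ∑ k ∈ range (2 ^ n), φ (2 * k) := by
      rw [← ih fun k => φ (2 * k)]
      refine avg_congr fun l _ => ?_
      simp [valB]
    have h2 : avg n (fun l => φ (valB (true :: l))) =
        (1 / 2) ^ n * ∑ k ∈ range (2 ^ n), φ (2 * k + 1) := by
      rw [← ih fun k => φ (2 * k + 1)]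
      refine avg_congr fun l _ => ?_
      simp [valB, add_comm]
    rw [avg, h1, h2, pow_succ 2 n, mul_comm (2 ^ n) 2, sum_range_two_mul, pow_succ]
    ring

variable {α : Type} [DecidableEq α]

theorem avg_exch (T : List α) (I : List α → Bool) (B B' : List α) :
    avg (2 * wid T) (fun c => if stp T I B c = B' then 1 else 0) =
      (1 / 2) ^ (2 * wid T) * ∑ i ∈ range (2 ^ wid T), ∑ j ∈ range (2 ^ wid T),
        if exch T I B i j = B' then 1 else 0 := by
  rw [two_mul, avg_append]
  have h1 : ∀ l : List Bool, l.length = wid T →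
      avg (wid T) (fun l' => if stp T I B (l ++ l') = B' then (1 : ℝ) else 0) =
        (1 / 2) ^ wid T * ∑ j ∈ range (2 ^ wid T),
          if exch T I B (valB l) j = B' then 1 else 0 := by
    intro l hl
    rw [← avg_valB (wid T) fun j => if exch T I B (valB l) j = B' then 1 else 0]
    refine avg_congr fun l' _ => ?_
    unfold stp
    rw [List.take_left' hl, List.drop_left' hl]
  rw [avg_congr h1, avg_mul, avg_valB (wid T) fun i => ∑ j ∈ range (2 ^ wid T),
    if exch T I B i j = B' then (1 : ℝ) else 0, pow_add]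
  ring

theorem avg_exch_ne {T : List α} {I : List α → Bool} (hT : T.Nodup) {B B' : List α}
    (hB : B ∈ Om T I) (hB' : B' ∈ Om T I) (hne : B ≠ B') :
    avg (2 * wid T) (fun c => if stp T I B c = B' then 1 else 0) =
      if adj B B' = true then 1 / (2 ^ (2 * wid T) : ℝ) else 0 := by
  rw [avg_exch]
  by_cases h : adj B B' = true
  · rw [if_pos h]
    obtain ⟨i0, hi0, j0, hj0, h1⟩ := adj_exch hT hB hB' h
    have hw := (wid_spec T).1
    have e1 : ∀ i j, (if exch T I B i j = B' then (1 : ℝ) else 0) =
        if i = i0 then (if j = j0 then 1 else 0) else 0 := by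
      intro i j
      rw [if_congr (h1 i j) rfl rfl]
      by_cases hi : i = i0 <;> by_cases hj : j = j0 <;> simp [hi, hj]
    have e2 : ∑ i ∈ range (2 ^ wid T), ∑ j ∈ range (2 ^ wid T),
        (if exch T I B i j = B' then (1 : ℝ) else 0) = 1 := by
      simp only [e1]
      rw [sum_eq_single i0, sum_eq_single j0]
      · simp
      · intro j _ hj
        simp [hj]
      · intro hj
        exact absurd (mem_range.2 (by omega)) hj
      · intro i _ hi
        simp [hi]
      · intro hi
        exact absurd (mem_range.2 (by omega)) hi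
    rw [e2, mul_one, one_div_pow]
  · rw [if_neg h, sum_eq_zero, mul_zero]
    intro i _
    refine sum_eq_zero fun j _ => if_neg fun hex => ?_
    exact h (exch_adj hT hB hB' hne hex).1

theorem stp_mem {T : List α} {I : List α → Bool} (hT : T.Nodup) {B : List α} (hB : B ∈ Om T I)
    (c : List Bool) : stp T I B c ∈ Om T I := exch_mem hT hB _ _

theorem walk_mem {T : List α} {I : List α → Bool} (hT : T.Nodup) {B : List α} (hB : B ∈ Om T I)
    (t : ℕ) (r : List Bool) : walk T I B t r ∈ Om T I := by
  induction t generalizing r with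
  | zero => exact hB
  | succ t ih => exact stp_mem hT (ih _) _

theorem avg_stp_sum {T : List α} {I : List α → Bool} (hT : T.Nodup) {B : List α}
    (hB : B ∈ Om T I) : ∑ B' ∈ Om T I,
      avg (2 * wid T) (fun c => if stp T I B c = B' then (1 : ℝ) else 0) = 1 := by
  rw [← avg_sum]
  refine (avg_congr (ψ := fun _ => 1) fun c _ => ?_).trans (avg_const _ _)
  rw [sum_ite_eq, if_pos (stp_mem hT hB c)]

theorem avg_stp {T : List α} {I : List α → Bool} (hT : T.Nodup) {B B' : List α}
    (hB : B ∈ Om T I) (hB' : B' ∈ Om T I) :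
    avg (2 * wid T) (fun c => if stp T I B c = B' then (1 : ℝ) else 0) =
      (if B = B' then 1 - ((Om T I).filter fun B' => adj B B' = true).card / (2 ^ (2 * wid T) : ℝ)
        else 0) + if adj B B' = true then 1 / (2 ^ (2 * wid T) : ℝ) else 0 := by
  by_cases hne : B = B'
  · subst hne
    rw [if_pos rfl, if_neg (adj_irrefl B), add_zero]
    have h1 := avg_stp_sum hT hB
    rw [← sum_erase_add _ _ hB] at h1
    have h2 : ∑ B' ∈ (Om T I).erase B,
        avg (2 * wid T) (fun c => if stp T I B c = B' then (1 : ℝ) else 0) =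
        ∑ B' ∈ (Om T I).erase B, if adj B B' = true then 1 / (2 ^ (2 * wid T) : ℝ) else 0 :=
      sum_congr rfl fun B' hB' => avg_exch_ne hT hB (mem_of_mem_erase hB')
        (ne_of_mem_erase hB').symm
    have h3 : ∑ B' ∈ (Om T I).erase B, (if adj B B' = true then 1 / (2 ^ (2 * wid T) : ℝ) else 0) =
        ((Om T I).filter fun B' => adj B B' = true).card / (2 ^ (2 * wid T) : ℝ) := by
      rw [sum_erase (f := fun B' => if adj B B' = true then 1 / (2 ^ (2 * wid T) : ℝ) else 0) _
        (if_neg (adj_irrefl B)), ← sum_filter, sum_const, nsmul_eq_mul]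
      ring
    rw [h2, h3] at h1
    linarith
  · rw [if_neg hne, zero_add, avg_exch_ne hT hB hB' hne]

/-- the number of neighbours -/
def deg (T : List α) (I : List α → Bool) (B : List α) : ℕ :=
  ((Om T I).filter fun B' => adj B B' = true).card

/-- the distribution of the walk -/
noncomputable def pd (T : List α) (I : List α → Bool) (B0 : List α) : ℕ → List α → ℝ
  | 0, B => if B = B0 then 1 else 0
  | t + 1, B => pd T I B0 t B - 1 / (2 ^ (2 * wid T) : ℕ) *
      lap (Om T I) (fun B B' => adj B B' = true) (pd T I B0 t) B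

theorem sum_stp {T : List α} {I : List α → Bool} (hT : T.Nodup) {B' : List α}
    (hB' : B' ∈ Om T I) (p : List α → ℝ) :
    ∑ B ∈ Om T I, p B * avg (2 * wid T) (fun c => if stp T I B c = B' then (1 : ℝ) else 0) =
      p B' - 1 / (2 ^ (2 * wid T) : ℕ) * lap (Om T I) (fun B B' => adj B B' = true) p B' := by
  have h1 : ∑ B ∈ Om T I, p B * avg (2 * wid T)
      (fun c => if stp T I B c = B' then (1 : ℝ) else 0) =
      ∑ B ∈ Om T I, ((if B = B' then p B' * (1 - deg T I B' / (2 ^ (2 * wid T) : ℝ)) else 0) +
        if adj B' B = true then p B / (2 ^ (2 * wid T) : ℝ) else 0) := by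
    refine sum_congr rfl fun B hB => ?_
    rw [avg_stp hT hB hB', mul_add]
    congr 1
    · by_cases h : B = B'
      · subst h
        rw [if_pos rfl, if_pos rfl]
        rfl
      · rw [if_neg h, if_neg h, mul_zero]
    · by_cases h : adj B B' = true
      · rw [if_pos h, if_pos ((adj_symm _ _).1 h)]
        ring
      · rw [if_neg h, if_neg fun h' => h ((adj_symm _ _).1 h'), mul_zero]
  have h2 : lap (Om T I) (fun B B' => adj B B' = true) p B' =
      deg T I B' * p B' - ∑ B ∈ Om T I, if adj B' B = true then p B else 0 := by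
    unfold lap deg
    rw [← sum_filter, ← sum_filter, sum_sub_distrib, sum_const, nsmul_eq_mul]
  have h3 : ∑ B ∈ Om T I, (if adj B' B = true then p B / (2 ^ (2 * wid T) : ℝ) else 0) =
      (∑ B ∈ Om T I, if adj B' B = true then p B else 0) / (2 ^ (2 * wid T) : ℝ) := by
    rw [sum_div]
    refine sum_congr rfl fun B _ => ?_
    split_ifs <;> simp
  rw [h1, sum_add_distrib, sum_ite_eq', if_pos hB', h3, h2]
  push_cast
  ring

/-- The distribution of the walk with random bits. -/
theorem avg_walk {T : List α} {I : List α → Bool} (hT : T.Nodup) {B0 : List α}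
    (hB0 : B0 ∈ Om T I) (t : ℕ) : ∀ n, 2 * wid T * t ≤ n → ∀ B ∈ Om T I,
      avg n (fun r => if walk T I B0 t r = B then (1 : ℝ) else 0) = pd T I B0 t B := by
  induction t with
  | zero =>
    intro n _ B _
    refine (avg_congr (ψ := fun _ => if B = B0 then 1 else 0) fun r _ => ?_).trans (avg_const _ _)
    rw [walk]
    by_cases h : B = B0
    · rw [if_pos h, if_pos h.symm]
    · rw [if_neg h, if_neg fun h' => h h'.symm]
  | succ t ih =>
    intro n hn B' hB'
    obtain ⟨n', rfl⟩ : ∃ n', n = 2 * wid T + n' :=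
      Nat.exists_eq_add_of_le (by rw [mul_add] at hn; omega)
    have hn' : 2 * wid T * t ≤ n' := by
      rw [mul_add] at hn
      omega
    rw [avg_append]
    have h1 : ∀ c : List Bool, c.length = 2 * wid T →
        avg n' (fun r => if walk T I B0 (t + 1) (c ++ r) = B' then (1 : ℝ) else 0) =
          ∑ B ∈ Om T I, pd T I B0 t B * if stp T I B c = B' then 1 else 0 := by
      intro c hc
      have h2 : ∀ r : List Bool, r.length = n' →
          (if walk T I B0 (t + 1) (c ++ r) = B' then (1 : ℝ) else 0) =
            ∑ B ∈ Om T I, (if walk T I B0 t r = B then 1 else 0) *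
              if stp T I B c = B' then 1 else 0 := by
        intro r _
        rw [walk, List.drop_left' hc, List.take_left' hc]
        simp only [ite_mul, one_mul, zero_mul]
        rw [sum_ite_eq, if_pos (walk_mem hT hB0 t r)]
      rw [avg_congr h2, avg_sum]
      refine sum_congr rfl fun B hB => ?_
      rw [avg_mul', ih n' hn' B hB]
    rw [avg_congr h1, avg_sum]
    simp only [avg_mul]
    rw [sum_stp hT hB' (pd T I B0 t)]
    rfl

/-- the numbers of the strings -/
def cnt (T : List α) (I : List α → Bool) (B0 : List α) : ℕ → List α → ℕ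
  | 0, B => bif decide (B = B0) then 1 else 0
  | t + 1, B => (2 ^ (2 * wid T) - deg T I B) * cnt T I B0 t B +
      ∑ B' ∈ (Om T I).filter (fun B' => adj B B' = true), cnt T I B0 t B'

theorem deg_le_pow {T : List α} {I : List α → Bool} (hT : T.Nodup) {B : List α}
    (hB : B ∈ Om T I) : 2 * deg T I B ≤ 2 ^ (2 * wid T) := by
  have h1 := deg_le hT hB
  have h2 := (wid_spec T).1
  have h3 : (2 * T.length) * (2 * T.length) ≤ 2 ^ wid T * 2 ^ wid T :=
    Nat.mul_le_mul h2.le h2.le
  rw [← pow_add, ← two_mul] at h3
  have h4 : (2 * T.length) * (2 * T.length) = 4 * (T.length * T.length) := by ring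
  unfold deg
  omega

theorem cnt_eq {T : List α} {I : List α → Bool} (hT : T.Nodup) (B0 : List α) (t : ℕ) :
    ∀ B ∈ Om T I, (cnt T I B0 t B : ℝ) = (2 ^ (2 * wid T)) ^ t * pd T I B0 t B := by
  induction t with
  | zero =>
    intro B _
    rw [cnt, pd, pow_zero, one_mul]
    by_cases h : B = B0 <;> simp [h]
  | succ t ih =>
    intro B hB
    have hd := deg_le_pow hT hB
    have h1 : ((2 ^ (2 * wid T) - deg T I B : ℕ) : ℝ) = 2 ^ (2 * wid T) - deg T I B := by
      rw [Nat.cast_sub (by omega)]
      push_cast
      ring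
    have h2 : lap (Om T I) (fun B B' => adj B B' = true) (pd T I B0 t) B =
        deg T I B * pd T I B0 t B -
          ∑ B' ∈ (Om T I).filter (fun B' => adj B B' = true), pd T I B0 t B' := by
      unfold lap deg
      rw [← sum_filter, sum_sub_distrib, sum_const, nsmul_eq_mul]
    have h3 : ∑ B' ∈ (Om T I).filter (fun B' => adj B B' = true), (cnt T I B0 t B' : ℝ) =
        (2 ^ (2 * wid T)) ^ t *
          ∑ B' ∈ (Om T I).filter (fun B' => adj B B' = true), pd T I B0 t B' := by
      rw [mul_sum]
      exact sum_congr rfl fun B' hB' => ih B' (mem_of_mem_filter B' hB')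
    rw [cnt, pd, Nat.cast_add, Nat.cast_mul, h1, ih B hB, Nat.cast_sum, h3, h2]
    push_cast
    field_simp
    ring

end Pool.Agent.P8H86.ST
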