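import Pool.Agent.P8H86.ST.Mat

/-!
# The spectral gap of the basis exchange graph of a matroid
-/

set_option autoImplicit false

namespace Pool.Agent.P8H86.ST

open Finset

variable {α : Type} [Fintype α] [DecidableEq α]

/-- double counting of a set with a marked element -/
theorem sum_ins (j : ℕ) (ψ : Finset α → ℝ) :
    ∑ T ∈ powersetCard j (univ : Finset α), ∑ x ∈ univ \ T, ψ (insert x T) =
      (j + 1 : ℝ) * ∑ S ∈ powersetCard (j + 1) (univ : Finset α), ψ S := by
  rw [mul_sum]
  have h1 : ∀ S ∈ powersetCard (j + 1) (univ : Finset α), (j + 1 : ℝ) * ψ S = ∑ x ∈ S, ψ S := by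
    intro S hS
    rw [mem_powersetCard] at hS
    rw [sum_const, hS.2, nsmul_eq_mul]
    push_cast
    rfl
  rw [sum_congr rfl h1, sum_sigma', sum_sigma']
  refine sum_bij' (fun p _ => ⟨insert p.2 p.1, p.2⟩) (fun p _ => ⟨p.1.erase p.2, p.2⟩) ?_ ?_ ?_ ?_ ?_
  · rintro ⟨T, x⟩ h
    simp only [mem_sigma, mem_powersetCard, mem_sdiff] at h ⊢
    refine ⟨⟨subset_univ _, ?_⟩, mem_insert_self _ _⟩
    rw [card_insert_of_notMem h.2.2, h.1.2]
  · rintro ⟨S, x⟩ h
    simp only [mem_sigma, mem_powersetCard, mem_sdiff] at h ⊢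
    refine ⟨⟨subset_univ _, ?_⟩, mem_univ _, fun h' => (mem_erase.1 h').1 rfl⟩
    rw [card_erase_of_mem h.2, h.1.2]
    rfl
  · rintro ⟨T, x⟩ h
    simp only [mem_sigma, mem_powersetCard, mem_sdiff] at h
    simp only [erase_insert h.2.2]
  · rintro ⟨S, x⟩ h
    simp only [mem_sigma, mem_powersetCard] at h
    simp only [insert_erase h.2]
  · rintro ⟨T, x⟩ _
    rfl

namespace FM

variable (M : FM α) (f : Finset α → ℝ)

/-- the sum over the bases above a set -/
noncomputable def fs (S : Finset α) : ℝ := ∑ B ∈ M.bases.filter (fun B => S ⊆ B), f B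

/-- the square of the sum, normalized -/
noncomputable def φ (S : Finset α) : ℝ := M.fs f S ^ 2 / M.w S

theorem fs_zero {S : Finset α} (h : ¬ M.Ind S) : M.fs f S = 0 := by
  unfold fs
  rw [filter_false_of_mem, sum_empty]
  intro B hB hSB
  exact h (M.mono hSB (M.mem_bases.1 hB).1)

theorem φ_zero {S : Finset α} (h : ¬ M.Ind S) : M.φ f S = 0 := by
  rw [φ, M.fs_zero f h]; simp

theorem fs_eq_sum (S : Finset α) : M.fs f S = ∑ B ∈ M.bases, if S ⊆ B then f B else 0 := by
  unfold fs
  rw [sum_filter]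

theorem sum_insert_fs (S : Finset α) :
    ∑ x ∈ univ \ S, M.fs f (insert x S) = ((M.r : ℝ) - S.card) * M.fs f S := by
  simp only [fs_eq_sum]
  rw [sum_comm, mul_sum]
  refine sum_congr rfl fun B hB => ?_
  rw [mem_bases] at hB
  by_cases h : S ⊆ B
  · rw [if_pos h]
    have h1 : ∀ x ∈ univ \ S, (if insert x S ⊆ B then f B else 0) = if x ∈ B then f B else 0 := by
      intro x _
      by_cases hx : x ∈ B
      · rw [if_pos hx, if_pos (insert_subset hx h)]
      · rw [if_neg hx, if_neg fun h' => hx (h' (mem_insert_self _ _))]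
    rw [sum_congr rfl h1, ← sum_filter, sum_const, nsmul_eq_mul]
    have h2 : (univ \ S).filter (fun x => x ∈ B) = B \ S := by
      ext x; simp [and_comm]
    rw [h2, card_sdiff_of_subset h, ← hB.2, Nat.cast_sub (card_le_card h)]
  · rw [if_neg h, mul_zero]
    refine sum_eq_zero fun x _ => ?_
    rw [if_neg fun h' => h ((subset_insert _ _).trans h')]

theorem fs_shift (c : ℝ) (S : Finset α) :
    M.fs (fun B => f B - c) S = M.fs f S - c * M.w S := by
  simp only [fs_eq_sum, w_eq_sum]
  rw [mul_sum, ← sum_sub_distrib]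
  refine sum_congr rfl fun B _ => ?_
  split_ifs <;> ring

theorem φ_shift (c : ℝ) (S : Finset α) :
    M.φ (fun B => f B - c) S = M.φ f S - 2 * c * M.fs f S + c ^ 2 * M.w S := by
  by_cases h : M.Ind S
  · have hw := M.w_pos.2 h
    unfold φ
    rw [fs_shift]
    field_simp
    ring
  · rw [φ_zero M _ h, φ_zero M _ h, fs_zero M _ h, w_zero M h]
    ring

/-- the local variance inequality, for functions with mean zero above `T` -/
theorem local_var_zero {T : Finset α} (hT : M.Ind T) (hc : T.card + 2 ≤ M.r)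
    (h0 : M.fs f T = 0) :
    2 * ((M.r : ℝ) - T.card - 1) * ∑ x ∈ univ \ T, M.φ f (insert x T) ≤
      ∑ x ∈ univ \ T, ∑ y ∈ univ \ insert x T, M.φ f (insert y (insert x T)) := by
  set k : ℝ := (M.r : ℝ) - T.card - 1 with hk
  let h : α → ℝ := fun x => M.fs f (insert x T) / M.w (insert x T)
  have hfs : ∀ S, M.fs f S = M.w S * (M.fs f S / M.w S) := by
    intro S
    by_cases hS : M.Ind S
    · rw [mul_div_cancel₀ _ (M.w_pos.2 hS).ne']
    · rw [fs_zero M f hS]; simp
  -- sums of `a`
  have ha : ∀ u : α → ℝ, ∑ x, M.a T x * u x = ∑ x ∈ univ \ T, M.w (insert x T) * u x := by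
    intro u
    rw [← sum_subset (subset_univ (univ \ T))]
    · refine sum_congr rfl fun x hx => ?_
      rw [mem_sdiff] at hx
      rw [a, if_neg hx.2]
    · intro x _ hx
      rw [mem_sdiff, not_and, not_not] at hx
      rw [a, if_pos (hx (mem_univ _)), zero_mul]
  have hb : ∀ u : α → α → ℝ, ∑ x, ∑ y, M.b T x y * u x y =
      ∑ x ∈ univ \ T, ∑ y ∈ univ \ insert x T, M.w (insert y (insert x T)) * u x y := by
    intro u
    rw [← sum_subset (subset_univ (univ \ T))]
    · refine sum_congr rfl fun x hx => ?_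
      rw [mem_sdiff] at hx
      rw [← sum_subset (subset_univ (univ \ insert x T))]
      · refine sum_congr rfl fun y hy => ?_
        rw [mem_sdiff, mem_insert, not_or] at hy
        rw [b, if_neg, Finset.insert_comm]
        rintro (h | h | h)
        · exact hx.2 h
        · exact hy.2.2 h
        · exact hy.2.1 h.symm
      · intro y _ hy
        rw [mem_sdiff, not_and, not_not, mem_insert] at hy
        rw [b, if_pos, zero_mul]
        rcases hy (mem_univ _) with h | h
        · exact Or.inr (Or.inr h.symm)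
        · exact Or.inr (Or.inl h)
    · intro x _ hx
      rw [mem_sdiff, not_and, not_not] at hx
      exact sum_eq_zero fun y _ => by rw [b, if_pos (Or.inl (hx (mem_univ _))), zero_mul]
  have hmean : ∑ x, M.a T x * h x = 0 := by
    rw [ha]
    have : ∑ x ∈ univ \ T, M.w (insert x T) * h x = ∑ x ∈ univ \ T, M.fs f (insert x T) :=
      sum_congr rfl fun x _ => (hfs _).symm
    rw [this, sum_insert_fs, h0, mul_zero]
  have hQ : M.Q T h ≤ 0 := by
    have h1 := M.loc_all hT hc h
    rw [hmean] at h1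
    have h2 : (0 : ℝ) < ((M.r : ℝ) - T.card) * M.w T := by
      have hr : ((T.card : ℝ) + 2) ≤ M.r := by exact_mod_cast hc
      have := M.w_pos.2 hT
      have : (0 : ℝ) < (M.r : ℝ) - T.card := by linarith
      positivity
    nlinarith
  let g : α → α → ℝ := fun x y => M.fs f (insert y (insert x T)) / M.w (insert y (insert x T))
  have hpos : 0 ≤ ∑ x, ∑ y, M.b T x y * (g x y - h x - h y) ^ 2 :=
    sum_nonneg fun x _ => sum_nonneg fun y _ => mul_nonneg (M.b_nonneg _ _ _) (sq_nonneg _)
  have hgs : ∀ x y, g x y = g y x := by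
    intro x y
    simp only [g]
    rw [Finset.insert_comm]
  have e1 : ∑ x, ∑ y, M.b T x y * (g x y * h x) = k * ∑ x, M.a T x * h x ^ 2 := by
    rw [hb, ha, mul_sum]
    refine sum_congr rfl fun x hx => ?_
    rw [mem_sdiff] at hx
    have : ∑ y ∈ univ \ insert x T, M.w (insert y (insert x T)) * (g x y * h x) =
        (∑ y ∈ univ \ insert x T, M.fs f (insert y (insert x T))) * h x := by
      rw [sum_mul]
      refine sum_congr rfl fun y _ => ?_
      rw [hfs (insert y (insert x T))]
      ring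
    rw [this, sum_insert_fs, card_insert_of_notMem hx.2, hfs (insert x T)]
    push_cast
    simp only [h, hk]
    ring
  have e2 : ∑ x, ∑ y, M.b T x y * (g x y * h y) = k * ∑ x, M.a T x * h x ^ 2 := by
    rw [← e1, sum_comm]
    refine sum_congr rfl fun x _ => sum_congr rfl fun y _ => ?_
    rw [b_symm, hgs]
  have e3 : ∑ x, ∑ y, M.b T x y * h x ^ 2 = k * ∑ x, M.a T x * h x ^ 2 := by
    rw [mul_sum]
    refine sum_congr rfl fun x _ => ?_
    rw [← sum_mul, sum_b, hk]
    ring
  have e4 : ∑ x, ∑ y, M.b T x y * h y ^ 2 = k * ∑ x, M.a T x * h x ^ 2 := by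
    rw [← e3, sum_comm]
    refine sum_congr rfl fun x _ => sum_congr rfl fun y _ => ?_
    rw [b_symm]
  have e5 : ∑ x, ∑ y, M.b T x y * (g x y - h x - h y) ^ 2 =
      ∑ x, ∑ y, M.b T x y * g x y ^ 2 - 2 * (k * ∑ x, M.a T x * h x ^ 2) + 2 * M.Q T h := by
    have : ∑ x, ∑ y, M.b T x y * (g x y - h x - h y) ^ 2 = ∑ x, ∑ y, (M.b T x y * g x y ^ 2 -
        2 * (M.b T x y * (g x y * h x)) - 2 * (M.b T x y * (g x y * h y)) +
        M.b T x y * h x ^ 2 + M.b T x y * h y ^ 2 + 2 * (M.b T x y * h x * h y)) :=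
      sum_congr rfl fun x _ => sum_congr rfl fun y _ => by ring
    rw [this]
    simp only [sum_add_distrib, sum_sub_distrib, ← mul_sum]
    rw [e1, e2, e3, e4]
    unfold Q
    ring
  have e6 : ∑ x, ∑ y, M.b T x y * g x y ^ 2 =
      ∑ x ∈ univ \ T, ∑ y ∈ univ \ insert x T, M.φ f (insert y (insert x T)) := by
    rw [hb]
    refine sum_congr rfl fun x _ => sum_congr rfl fun y _ => ?_
    by_cases hi : M.Ind (insert y (insert x T))
    · have := M.w_pos.2 hi
      simp only [g, φ]
      field_simp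
    · rw [φ_zero M f hi, w_zero M hi, zero_mul]
  have e7 : ∑ x, M.a T x * h x ^ 2 = ∑ x ∈ univ \ T, M.φ f (insert x T) := by
    rw [ha]
    refine sum_congr rfl fun x _ => ?_
    by_cases hi : M.Ind (insert x T)
    · have := M.w_pos.2 hi
      simp only [h, φ]
      field_simp
    · rw [φ_zero M f hi, w_zero M hi, zero_mul]
  rw [e5, e6, e7] at hpos
  linarith

/-- the local variance inequality -/
theorem local_var {T : Finset α} (hc : T.card + 2 ≤ M.r) :
    2 * ((M.r : ℝ) - T.card - 1) * ∑ x ∈ univ \ T, M.φ f (insert x T) ≤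
      ∑ x ∈ univ \ T, ∑ y ∈ univ \ insert x T, M.φ f (insert y (insert x T)) +
        ((M.r : ℝ) - T.card) * ((M.r : ℝ) - T.card - 1) * M.φ f T := by
  by_cases hT : M.Ind T
  · have hw := M.w_pos.2 hT
    set c : ℝ := M.fs f T / M.w T with hcdef
    have hfsT : M.fs f T = c * M.w T := by rw [hcdef, div_mul_cancel₀ _ hw.ne']
    have h0 : M.fs (fun B => f B - c) T = 0 := by rw [fs_shift, hfsT, sub_self]
    have h1 := M.local_var_zero (fun B => f B - c) hT hc h0
    set k : ℝ := (M.r : ℝ) - T.card - 1 with hk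
    have e1 : ∑ x ∈ univ \ T, M.φ (fun B => f B - c) (insert x T) =
        ∑ x ∈ univ \ T, M.φ f (insert x T) - (k + 1) * c ^ 2 * M.w T := by
      simp only [φ_shift]
      rw [sum_add_distrib, sum_sub_distrib, ← mul_sum, ← mul_sum, sum_insert_fs, sum_insert_w,
        hfsT]
      rw [show (M.r : ℝ) - T.card = k + 1 by rw [hk]; ring]
      ring
    have e2 : ∑ x ∈ univ \ T, ∑ y ∈ univ \ insert x T,
        M.φ (fun B => f B - c) (insert y (insert x T)) =
        ∑ x ∈ univ \ T, ∑ y ∈ univ \ insert x T, M.φ f (insert y (insert x T)) -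
          (k + 1) * k * c ^ 2 * M.w T := by
      have h3 : ∀ x ∈ univ \ T, ∑ y ∈ univ \ insert x T,
          M.φ (fun B => f B - c) (insert y (insert x T)) =
          ∑ y ∈ univ \ insert x T, M.φ f (insert y (insert x T)) -
            2 * c * (k * M.fs f (insert x T)) + c ^ 2 * (k * M.w (insert x T)) := by
        intro x hx
        rw [mem_sdiff] at hx
        simp only [φ_shift]
        rw [sum_add_distrib, sum_sub_distrib, ← mul_sum, ← mul_sum, sum_insert_fs, sum_insert_w,
          card_insert_of_notMem hx.2]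
        push_cast
        rw [show (M.r : ℝ) - (T.card + 1) = k by rw [hk]; ring]
      rw [sum_congr rfl h3, sum_add_distrib, sum_sub_distrib, ← mul_sum, ← mul_sum, ← mul_sum,
        ← mul_sum, sum_insert_fs, sum_insert_w, hfsT]
      rw [show (M.r : ℝ) - T.card = k + 1 by rw [hk]; ring]
      ring
    rw [e1, e2] at h1
    have e3 : M.φ f T = c ^ 2 * M.w T := by
      rw [φ, hfsT]
      field_simp
    rw [e3, show (M.r : ℝ) - T.card = k + 1 by rw [hk]; ring]
    nlinarith
  · rw [φ_zero M f hT, mul_zero, add_zero]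
    have h1 : ∑ x ∈ univ \ T, M.φ f (insert x T) = 0 :=
      sum_eq_zero fun x _ => φ_zero M f fun h => hT (M.mono (subset_insert _ _) h)
    have h2 : ∑ x ∈ univ \ T, ∑ y ∈ univ \ insert x T, M.φ f (insert y (insert x T)) = 0 :=
      sum_eq_zero fun x _ => sum_eq_zero fun y _ => φ_zero M f fun h =>
        hT (M.mono ((subset_insert _ _).trans (subset_insert _ _)) h)
    rw [h1, h2, mul_zero]

/-- the second moment on level `k` -/
noncomputable def Mk (k : ℕ) : ℝ := ∑ S ∈ powersetCard k (univ : Finset α), M.φ f S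

theorem level_ineq {j : ℕ} (hj : j + 2 ≤ M.r) :
    2 * ((M.r : ℝ) - j - 1) * (j + 1) * M.Mk f (j + 1) ≤
      (j + 1) * (j + 2) * M.Mk f (j + 2) + ((M.r : ℝ) - j) * ((M.r : ℝ) - j - 1) * M.Mk f j := by
  have h1 : ∀ T ∈ powersetCard j (univ : Finset α),
      2 * ((M.r : ℝ) - j - 1) * ∑ x ∈ univ \ T, M.φ f (insert x T) ≤
      ∑ x ∈ univ \ T, ∑ y ∈ univ \ insert x T, M.φ f (insert y (insert x T)) +
        ((M.r : ℝ) - j) * ((M.r : ℝ) - j - 1) * M.φ f T := by
    intro T hT
    rw [mem_powersetCard] at hT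
    have := M.local_var f (T := T) (by omega)
    rw [hT.2] at this
    exact this
  have h2 := sum_le_sum h1
  rw [sum_add_distrib, ← mul_sum, ← mul_sum, sum_ins j (M.φ f),
    sum_ins j (fun S => ∑ y ∈ univ \ S, M.φ f (insert y S)), sum_ins (j + 1) (M.φ f)] at h2
  unfold Mk
  push_cast at h2
  linarith

/-- the normalized second moment -/
noncomputable def ek (k : ℕ) : ℝ := M.Mk f k / (M.r.choose k : ℝ)

theorem ek_convex {j : ℕ} (hj : j + 2 ≤ M.r) :
    M.ek f (j + 1) - M.ek f j ≤ M.ek f (j + 2) - M.ek f (j + 1) := by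
  have h := M.level_ineq f hj
  have c0 : (0 : ℝ) < (M.r.choose j : ℝ) := by exact_mod_cast Nat.choose_pos (by omega)
  have c1 : (0 : ℝ) < (M.r.choose (j + 1) : ℝ) := by exact_mod_cast Nat.choose_pos (by omega)
  have c2 : (0 : ℝ) < (M.r.choose (j + 2) : ℝ) := by exact_mod_cast Nat.choose_pos (by omega)
  have n1 : (M.r.choose (j + 1) : ℝ) * (j + 1) = (M.r.choose j : ℝ) * ((M.r : ℝ) - j) := by
    have := Nat.choose_succ_right_eq M.r j
    have h' : ((M.r.choose (j + 1) * (j + 1) : ℕ) : ℝ) = ((M.r.choose j * (M.r - j) : ℕ) : ℝ) := by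
      rw [this]
    push_cast at h'
    rw [Nat.cast_sub (by omega)] at h'
    exact h'
  have n2 : (M.r.choose (j + 2) : ℝ) * (j + 2) = (M.r.choose (j + 1) : ℝ) * ((M.r : ℝ) - j - 1) := by
    have := Nat.choose_succ_right_eq M.r (j + 1)
    have h' : ((M.r.choose (j + 1 + 1) * (j + 1 + 1) : ℕ) : ℝ) =
        ((M.r.choose (j + 1) * (M.r - (j + 1)) : ℕ) : ℝ) := by rw [this]
    push_cast at h'
    rw [Nat.cast_sub (by omega)] at h'
    push_cast at h'
    linarith
  have m0 : M.Mk f j = M.ek f j * (M.r.choose j : ℝ) := by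
    rw [ek, div_mul_cancel₀ _ c0.ne']
  have m1 : M.Mk f (j + 1) = M.ek f (j + 1) * (M.r.choose (j + 1) : ℝ) := by
    rw [ek, div_mul_cancel₀ _ c1.ne']
  have m2 : M.Mk f (j + 2) = M.ek f (j + 2) * (M.r.choose (j + 2) : ℝ) := by
    rw [ek, div_mul_cancel₀ _ c2.ne']
  rw [m0, m1, m2] at h
  have hr : ((j : ℝ) + 2) ≤ M.r := by exact_mod_cast hj
  set c : ℝ := (M.r.choose (j + 1) : ℝ) with hcdef
  set R : ℝ := (M.r : ℝ) with hR
  have hK : 0 < (j + 1 : ℝ) * (R - j - 1) * c := by
    have : (0 : ℝ) < R - j - 1 := by linarith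
    positivity
  have e2 : (j + 1 : ℝ) * (j + 2) * (M.ek f (j + 2) * (M.r.choose (j + 2) : ℝ)) =
      (j + 1) * (R - j - 1) * c * M.ek f (j + 2) := by
    calc (j + 1 : ℝ) * (j + 2) * (M.ek f (j + 2) * (M.r.choose (j + 2) : ℝ))
        = (j + 1) * M.ek f (j + 2) * ((M.r.choose (j + 2) : ℝ) * (j + 2)) := by ring
      _ = _ := by rw [n2]; ring
  have e0 : (R - j) * (R - j - 1) * (M.ek f j * (M.r.choose j : ℝ)) =
      (j + 1) * (R - j - 1) * c * M.ek f j := by
    calc (R - j) * (R - j - 1) * (M.ek f j * (M.r.choose j : ℝ))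
        = (R - j - 1) * M.ek f j * ((M.r.choose j : ℝ) * (R - j)) := by ring
      _ = _ := by rw [← n1]; ring
  rw [e2, e0] at h
  have h3 : (j + 1 : ℝ) * (R - j - 1) * c * (2 * M.ek f (j + 1)) ≤
      (j + 1) * (R - j - 1) * c * (M.ek f (j + 2) + M.ek f j) := by linarith
  have h4 := le_of_mul_le_mul_left h3 hK
  linarith

theorem ek_gap (hr : 1 ≤ M.r) :
    M.ek f M.r - M.ek f 0 ≤ M.r * (M.ek f M.r - M.ek f (M.r - 1)) := by
  have hmono : ∀ j, j + 1 ≤ M.r → M.ek f (j + 1) - M.ek f j ≤
      M.ek f M.r - M.ek f (M.r - 1) := by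
    intro j hj
    obtain ⟨d, hd⟩ : ∃ d, M.r = j + 1 + d := ⟨M.r - (j + 1), by omega⟩
    have key : ∀ d, j + 1 + d ≤ M.r → M.ek f (j + 1) - M.ek f j ≤
        M.ek f (j + d + 1) - M.ek f (j + d) := by
      intro d
      induction d with
      | zero => intro _; exact le_rfl
      | succ d ih =>
        intro h
        refine (ih (by omega)).trans ?_
        exact M.ek_convex f (j := j + d) (by omega)
    have := key d (by omega)
    have e1 : j + d + 1 = M.r := by omega
    have e2 : j + d = M.r - 1 := by omega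
    rw [e1, e2] at this
    exact this
  have htel : ∀ n, n ≤ M.r → M.ek f n - M.ek f 0 ≤ n * (M.ek f M.r - M.ek f (M.r - 1)) := by
    intro n
    induction n with
    | zero => intro _; simp
    | succ n ih =>
      intro h
      have h1 := ih (by omega)
      have h2 := hmono n h
      push_cast
      linarith
  exact htel M.r le_rfl

/-- two bases are adjacent if they differ by an exchange -/
def Adj (B B' : Finset α) : Prop := (B ∩ B').card + 1 = M.r

open scoped Classical in
/-- **The Poincaré inequality for the basis exchange graph**. -/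
theorem poincare (f : Finset α → ℝ) :
    ∑ B ∈ M.bases, ∑ B' ∈ M.bases, (f B - f B') ^ 2 ≤ (M.bases.card : ℝ) *
      ∑ B ∈ M.bases, ∑ B' ∈ M.bases, if M.Adj B B' then (f B - f B') ^ 2 else 0 := by
  obtain ⟨B0, hB0, hB0c⟩ := M.ex
  have hB0m : B0 ∈ M.bases := M.mem_bases.2 ⟨hB0, hB0c⟩
  by_cases hr : M.r = 0
  · -- only one basis
    have h1 : ∀ B ∈ M.bases, ∀ B' ∈ M.bases, (f B - f B') ^ 2 = 0 := by
      intro B hB B' hB'
      rw [mem_bases, hr, card_eq_zero] at hB hB'
      rw [hB.2, hB'.2, sub_self]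
      norm_num
    rw [sum_eq_zero fun B hB => sum_eq_zero fun B' hB' => h1 B hB B' hB']
    refine mul_nonneg (Nat.cast_nonneg _) (sum_nonneg fun B _ => sum_nonneg fun B' _ => ?_)
    split_ifs
    · exact sq_nonneg _
    · exact le_rfl
  have hr1 : 1 ≤ M.r := Nat.one_le_iff_ne_zero.2 hr
  have hN : (0 : ℝ) < (M.bases.card : ℝ) := by exact_mod_cast card_pos.2 ⟨B0, hB0m⟩
  have hgap := M.ek_gap f hr1
  -- the levels
  have er : M.ek f M.r = ∑ B ∈ M.bases, f B ^ 2 := by
    rw [ek, Nat.choose_self, Nat.cast_one, div_one, Mk]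
    have hsub : M.bases ⊆ powersetCard M.r (univ : Finset α) := by
      intro B hB
      exact mem_powersetCard.2 ⟨subset_univ _, (M.mem_bases.1 hB).2⟩
    rw [← sum_subset hsub]
    · refine sum_congr rfl fun B hB => ?_
      obtain ⟨h1, h2⟩ := M.mem_bases.1 hB
      rw [φ, M.w_basis h1 h2, div_one]
      congr 1
      unfold fs
      have : (M.bases.filter fun B' => B ⊆ B') = {B} := by
        ext B'
        rw [mem_filter, mem_bases, mem_singleton]
        constructor
        · rintro ⟨⟨h3, h4⟩, h5⟩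
          exact (eq_of_subset_of_card_le h5 (by omega)).symm
        · rintro rfl
          exact ⟨⟨h1, h2⟩, Subset.refl _⟩
      rw [this, sum_singleton]
    · intro S hS hS'
      refine φ_zero M f fun h => hS' (M.mem_bases.2 ⟨h, (mem_powersetCard.1 hS).2⟩)
  have e0 : M.ek f 0 = (∑ B ∈ M.bases, f B) ^ 2 / M.bases.card := by
    rw [ek, Nat.choose_zero_right, Nat.cast_one, div_one, Mk, powersetCard_zero, sum_singleton, φ]
    unfold fs w
    simp
  have er1 : M.ek f (M.r - 1) = M.Mk f (M.r - 1) / M.r := by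
    rw [ek]
    congr 2
    obtain ⟨n, hn⟩ : ∃ n, M.r = n + 1 := ⟨M.r - 1, by omega⟩
    rw [hn, Nat.add_sub_cancel]
    simp
  -- the sum of squares, counted by the sets below
  have hsq : (M.r : ℝ) * ∑ B ∈ M.bases, f B ^ 2 =
      ∑ S ∈ powersetCard (M.r - 1) (univ : Finset α),
        ∑ B ∈ M.bases.filter (fun B => S ⊆ B), f B ^ 2 := by
    have h1 : ∀ S ∈ powersetCard (M.r - 1) (univ : Finset α),
        ∑ B ∈ M.bases.filter (fun B => S ⊆ B), f B ^ 2 = M.fs (fun B => f B ^ 2) S := fun S _ => rfl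
    rw [sum_congr rfl h1]
    have h2 : ∀ S ∈ powersetCard (M.r - 1) (univ : Finset α), M.fs (fun B => f B ^ 2) S =
        ∑ x ∈ univ \ S, M.fs (fun B => f B ^ 2) (insert x S) := by
      intro S hS
      rw [sum_insert_fs, (mem_powersetCard.1 hS).2, Nat.cast_sub hr1]
      push_cast
      ring
    rw [sum_congr rfl h2, sum_ins, Nat.sub_add_cancel hr1, Nat.cast_sub hr1]
    push_cast
    have h3 : ∑ S ∈ powersetCard M.r (univ : Finset α), M.fs (fun B => f B ^ 2) S =
        ∑ B ∈ M.bases, f B ^ 2 := by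
      have hsub : M.bases ⊆ powersetCard M.r (univ : Finset α) := by
        intro B hB
        exact mem_powersetCard.2 ⟨subset_univ _, (M.mem_bases.1 hB).2⟩
      rw [← sum_subset hsub]
      · refine sum_congr rfl fun B hB => ?_
        obtain ⟨h1, h2⟩ := M.mem_bases.1 hB
        unfold fs
        have : (M.bases.filter fun B' => B ⊆ B') = {B} := by
          ext B'
          rw [mem_filter, mem_bases, mem_singleton]
          constructor
          · rintro ⟨⟨h3, h4⟩, h5⟩
            exact (eq_of_subset_of_card_le h5 (by omega)).symm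
          · rintro rfl
            exact ⟨⟨h1, h2⟩, Subset.refl _⟩
        rw [this, sum_singleton]
      · intro S hS hS'
        refine fs_zero M _ fun h => hS' (M.mem_bases.2 ⟨h, (mem_powersetCard.1 hS).2⟩)
    rw [h3]
    ring
  -- the difference identity
  have hdiff : ∀ (P : Finset (Finset α)), ∑ B ∈ P, ∑ B' ∈ P, (f B - f B') ^ 2 =
      2 * (P.card * ∑ B ∈ P, f B ^ 2 - (∑ B ∈ P, f B) ^ 2) := by
    intro P
    have : ∑ B ∈ P, ∑ B' ∈ P, (f B - f B') ^ 2 =
        ∑ B ∈ P, ∑ B' ∈ P, (f B ^ 2 + f B' ^ 2 - 2 * (f B * f B')) :=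
      sum_congr rfl fun _ _ => sum_congr rfl fun _ _ => by ring
    rw [this]
    simp only [sum_sub_distrib, sum_add_distrib, sum_const, nsmul_eq_mul, ← mul_sum, ← sum_mul]
    ring
  have hlow : ∀ S ∈ powersetCard (M.r - 1) (univ : Finset α),
      ∑ B ∈ M.bases.filter (fun B => S ⊆ B), f B ^ 2 - M.φ f S ≤
      1 / 2 * ∑ B ∈ M.bases.filter (fun B => S ⊆ B), ∑ B' ∈ M.bases.filter (fun B => S ⊆ B),
        (f B - f B') ^ 2 := by
    intro S _
    by_cases hS : M.Ind S
    · have hw := M.w_pos.2 hS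
      have hw1 : 1 ≤ M.w S := by
        unfold w at hw ⊢
        have : 0 < (M.bases.filter fun B => S ⊆ B).card := by exact_mod_cast hw
        exact_mod_cast this
      have hvar := hdiff (M.bases.filter fun B => S ⊆ B)
      have hv0 : 0 ≤ ∑ B ∈ M.bases.filter (fun B => S ⊆ B), ∑ B' ∈ M.bases.filter (fun B => S ⊆ B),
          (f B - f B') ^ 2 := sum_nonneg fun _ _ => sum_nonneg fun _ _ => sq_nonneg _
      rw [hvar] at hv0 ⊢
      change 0 ≤ 2 * (M.w S * _ - (M.fs f S) ^ 2) at hv0
      change _ ≤ 1 / 2 * (2 * (M.w S * _ - (M.fs f S) ^ 2))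
      rw [φ]
      set q := ∑ B ∈ M.bases.filter (fun B => S ⊆ B), f B ^ 2
      have e1 : q - M.fs f S ^ 2 / M.w S = (M.w S * q - M.fs f S ^ 2) / M.w S := by
        field_simp
      rw [e1, div_le_iff₀ hw]
      nlinarith
    · rw [φ_zero M f hS]
      have : (M.bases.filter fun B => S ⊆ B) = ∅ :=
        filter_false_of_mem fun B hB hSB => hS (M.mono hSB (M.mem_bases.1 hB).1)
      rw [this]
      simp
  have hadj : ∑ S ∈ powersetCard (M.r - 1) (univ : Finset α),
      ∑ B ∈ M.bases.filter (fun B => S ⊆ B), ∑ B' ∈ M.bases.filter (fun B => S ⊆ B),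
        (f B - f B') ^ 2 =
      ∑ B ∈ M.bases, ∑ B' ∈ M.bases, if M.Adj B B' then (f B - f B') ^ 2 else 0 := by
    simp only [sum_filter]
    rw [sum_comm]
    refine sum_congr rfl fun B hB => ?_
    have h1 : ∀ S : Finset α, (if S ⊆ B then ∑ B' ∈ M.bases, (if S ⊆ B' then (f B - f B') ^ 2 else 0)
        else 0) = ∑ B' ∈ M.bases, if S ⊆ B ∩ B' then (f B - f B') ^ 2 else 0 := by
      intro S
      by_cases hS : S ⊆ B
      · rw [if_pos hS]
        refine sum_congr rfl fun B' _ => ?_
        by_cases hS' : S ⊆ B'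
        · rw [if_pos hS', if_pos (subset_inter hS hS')]
        · rw [if_neg hS', if_neg fun h => hS' (h.trans inter_subset_right)]
      · rw [if_neg hS]
        exact (sum_eq_zero fun B' _ => if_neg fun h => hS (h.trans inter_subset_left)).symm
    rw [sum_congr rfl fun S _ => h1 S, sum_comm]
    refine sum_congr rfl fun B' hB' => ?_
    obtain ⟨b1, b2⟩ := M.mem_bases.1 hB
    obtain ⟨b1', b2'⟩ := M.mem_bases.1 hB'
    by_cases hA : M.Adj B B'
    · rw [if_pos hA]
      rw [sum_eq_single (B ∩ B')]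
      · rw [if_pos (Subset.refl _)]
      · intro S hS hne
        rw [if_neg]
        intro h
        refine hne (eq_of_subset_of_card_le h ?_)
        rw [(mem_powersetCard.1 hS).2]
        unfold Adj at hA
        omega
      · intro h
        exfalso
        apply h
        rw [mem_powersetCard]
        unfold Adj at hA
        exact ⟨subset_univ _, by omega⟩
    · rw [if_neg hA]
      refine sum_eq_zero fun S hS => ?_
      split_ifs with h
      · by_cases hBB : B = B'
        · rw [hBB, sub_self]; norm_num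
        · exfalso
          have h2 : (B ∩ B').card < M.r := by
            rw [← b2]
            refine card_lt_card ⟨inter_subset_left, fun h3 => hBB ?_⟩
            exact eq_of_subset_of_card_le (h3.trans inter_subset_right) (by omega)
          have h3 := card_le_card h
          rw [(mem_powersetCard.1 hS).2] at h3
          exact hA (by unfold Adj; omega)
      · rfl
  -- conclusion
  rw [er, e0, er1] at hgap
  have h1 := sum_le_sum hlow
  rw [sum_sub_distrib, ← hsq, ← mul_sum, hadj] at h1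
  have hrpos : (0 : ℝ) < M.r := by exact_mod_cast hr1
  have h2 : (M.r : ℝ) * (∑ B ∈ M.bases, f B ^ 2 - M.Mk f (M.r - 1) / M.r) =
      M.r * ∑ B ∈ M.bases, f B ^ 2 - M.Mk f (M.r - 1) := by
    field_simp
  rw [h2] at hgap
  have h3 : ∑ B ∈ M.bases, f B ^ 2 - (∑ B ∈ M.bases, f B) ^ 2 / M.bases.card ≤
      1 / 2 * ∑ B ∈ M.bases, ∑ B' ∈ M.bases, if M.Adj B B' then (f B - f B') ^ 2 else 0 :=
    hgap.trans h1
  rw [hdiff]
  have h4 := mul_le_mul_of_nonneg_left h3 hN.le
  have h5 : (M.bases.card : ℝ) * (∑ B ∈ M.bases, f B ^ 2 - (∑ B ∈ M.bases, f B) ^ 2 / M.bases.card) =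
      M.bases.card * ∑ B ∈ M.bases, f B ^ 2 - (∑ B ∈ M.bases, f B) ^ 2 := by
    field_simp
  rw [h5] at h4
  linarith

end FM

end Pool.Agent.P8H86.ST
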