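import Pool.Agent.P8H86.ST.Algo
import Pool.Agent.P8H86.ST.Gap
import Pool.Agent.P8H86.ST.Chain
import Pool.Agent.P8H86.ST.Coins

/-!
# The distribution of the walk
-/

set_option autoImplicit false

namespace Pool.Agent.P8H86.ST

open Finset Pool.Agent.NPC

variable {α : Type} [DecidableEq α]

/-- the finite set of a sublist of `T` -/
def toS (T B : List α) : Finset {x // x ∈ T} := univ.filter fun x => x.1 ∈ B

theorem mem_toS {T B : List α} {x : {x // x ∈ T}} : x ∈ toS T B ↔ x.1 ∈ B := by simp [toS]

theorem filter_mem {T B : List α} (hT : T.Nodup) (hB : B.Sublist T) :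
    T.filter (fun x => decide (x ∈ B)) = B := by
  induction hB with
  | slnil => rfl
  | cons a h ih =>
    rename_i l₁ l₂
    have ha : a ∉ l₁ := fun h' => (List.nodup_cons.1 hT).1 (h.subset h')
    rw [List.filter_cons_of_neg (by simpa using ha), ih (List.nodup_cons.1 hT).2]
  | cons_cons a h ih =>
    rename_i l₁ l₂
    rw [List.filter_cons_of_pos (by simp)]
    congr 1
    rw [← ih (List.nodup_cons.1 hT).2]
    refine List.filter_congr fun x hx => ?_
    have hxa : x ≠ a := fun e => (List.nodup_cons.1 hT).1 (e ▸ hx)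
    rw [ih (List.nodup_cons.1 hT).2]
    simp [hxa]

theorem eq_of_mem_iff {T B B' : List α} (hT : T.Nodup) (hB : B.Sublist T) (hB' : B'.Sublist T)
    (h : ∀ x ∈ T, x ∈ B ↔ x ∈ B') : B = B' := by
  rw [← filter_mem hT hB, ← filter_mem hT hB']
  refine List.filter_congr fun x hx => ?_
  simp only [h x hx]

theorem toS_inj {T B B' : List α} (hT : T.Nodup) (hB : B.Sublist T) (hB' : B'.Sublist T)
    (h : toS T B = toS T B') : B = B' :=
  eq_of_mem_iff hT hB hB' fun x hx => by
    have := congrArg (fun S => (⟨x, hx⟩ : {x // x ∈ T}) ∈ S) h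
    simpa [mem_toS] using this

theorem toS_card {T B : List α} (hT : T.Nodup) (hB : B.Sublist T) : (toS T B).card = B.length := by
  have h1 : (toS T B).map (Function.Embedding.subtype _) = B.toFinset := by
    ext x
    simp only [mem_map, mem_toS, Function.Embedding.coe_subtype, List.mem_toFinset]
    constructor
    · rintro ⟨y, hy, rfl⟩
      exact hy
    · intro hx
      exact ⟨⟨x, hB.subset hx⟩, hx, rfl⟩
  rw [← card_map (Function.Embedding.subtype _), h1, List.toFinset_card_of_nodup (hT.sublist hB)]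

/-- the list of a finite set -/
def lst (T : List α) (S : Finset {x // x ∈ T}) : List α :=
  T.filter fun x => decide (∃ h : x ∈ T, (⟨x, h⟩ : {x // x ∈ T}) ∈ S)

theorem mem_lst {T : List α} {S : Finset {x // x ∈ T}} {x : α} :
    x ∈ lst T S ↔ ∃ h : x ∈ T, (⟨x, h⟩ : {x // x ∈ T}) ∈ S := by
  unfold lst
  rw [List.mem_filter, decide_eq_true_eq]
  exact ⟨fun h => h.2, fun h => ⟨h.1, h⟩⟩

theorem lst_sublist (T : List α) (S : Finset {x // x ∈ T}) : (lst T S).Sublist T :=
  List.filter_sublist

theorem toS_lst (T : List α) (S : Finset {x // x ∈ T}) : toS T (lst T S) = S := by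
  ext x
  rw [mem_toS, mem_lst]
  exact ⟨fun ⟨_, h⟩ => h, fun h => ⟨x.2, h⟩⟩

/-- The list `T` with the test `I` describes the matroid `M`. -/
structure Desc (T : List α) (I : List α → Bool) (M : FM {x // x ∈ T}) : Prop where
  nodup : T.Nodup
  ind : ∀ B : List α, B.Sublist T → (I B = true ↔ M.Ind (toS T B))

/-- the bases, as lists -/
def Om (T : List α) (I : List α → Bool) : Finset (List α) :=
  (T.sublists'.filter fun B => decide (B.length = (greedy I T).length) && I B).toFinset

theorem mem_Om {T : List α} {I : List α → Bool} {B : List α} :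
    B ∈ Om T I ↔ B.Sublist T ∧ B.length = (greedy I T).length ∧ I B = true := by
  unfold Om
  rw [List.mem_toFinset, List.mem_filter, List.mem_sublists', Bool.and_eq_true, decide_eq_true_eq]

omit [DecidableEq α] in
theorem greedy_cons (I : List α → Bool) (f : α) (T : List α) :
    greedy I (f :: T) = bif I (f :: greedy I T) then f :: greedy I T else greedy I T := rfl

omit [DecidableEq α] in
theorem greedy_sub (I : List α → Bool) (T : List α) : (greedy I T).Sublist T := by
  induction T with
  | nil => exact List.Sublist.refl _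
  | cons f T ih =>
    rw [greedy_cons]
    cases I (f :: greedy I T) with
    | false => exact ih.cons f
    | true => exact ih.cons_cons f

namespace Desc

variable {T : List α} {I : List α → Bool} {M : FM {x // x ∈ T}} (hD : Desc T I M)

include hD

theorem greedy_aux (T' : List α) (hT' : T'.Sublist T) : I (greedy I T') = true ∧
    ∀ x : {x // x ∈ T}, x.1 ∈ T' → x.1 ∉ greedy I T' →
      ¬ M.Ind (insert x (toS T (greedy I T'))) := by
  induction T' with
  | nil =>
    refine ⟨?_, fun x hx => absurd hx (by simp)⟩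
    have hg : greedy I ([] : List α) = [] := rfl
    rw [hg, hD.ind _ hT']
    have : toS T [] = ∅ := by
      ext x
      rw [mem_toS]
      simp
    rw [this]
    exact M.empty
  | cons f T' ih =>
    have hsub : T'.Sublist T := (List.sublist_cons_self f T').trans hT'
    obtain ⟨ih1, ih2⟩ := ih hsub
    have hf : f ∈ T := hT'.subset (by simp)
    have hcons : (f :: greedy I T').Sublist T := ((greedy_sub I T').cons_cons f).trans hT'
    have e1 : toS T (f :: greedy I T') = insert ⟨f, hf⟩ (toS T (greedy I T')) := by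
      ext x
      rw [mem_insert, mem_toS, mem_toS, List.mem_cons, Subtype.ext_iff]
    rw [greedy_cons]
    cases h : I (f :: greedy I T') with
    | false =>
      rw [cond_false]
      refine ⟨ih1, fun x hx hx' => ?_⟩
      rcases List.mem_cons.1 hx with h1 | h1
      · have hx2 : x = ⟨f, hf⟩ := Subtype.ext h1
        rw [hx2, ← e1, ← hD.ind _ hcons, h]
        simp
      · exact ih2 x h1 hx'
    | true =>
      rw [cond_true]
      refine ⟨h, fun x hx hx' => ?_⟩
      rw [List.mem_cons, not_or] at hx'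
      rcases List.mem_cons.1 hx with h1 | h1
      · exact absurd h1 hx'.1
      · intro hind
        refine ih2 x h1 hx'.2 (M.mono ?_ hind)
        rw [e1]
        exact insert_subset_insert _ (subset_insert _ _)

theorem greedy_len : (greedy I T).length = M.r := by
  obtain ⟨h1, h2⟩ := hD.greedy_aux T (List.Sublist.refl T)
  have h3 : M.Ind (toS T (greedy I T)) := (hD.ind _ (greedy_sub I T)).1 h1
  have h4 := M.le h3
  rw [toS_card hD.nodup (greedy_sub I T)] at h4
  by_contra hne
  obtain ⟨B0, hB0, hB0c⟩ := M.ex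
  obtain ⟨x, -, hx, hind⟩ := M.aug h3 hB0 (by
    rw [toS_card hD.nodup (greedy_sub I T)]
    omega)
  exact h2 x x.2 (fun h => hx (mem_toS.2 h)) hind

theorem greedy_mem : greedy I T ∈ Om T I :=
  mem_Om.2 ⟨greedy_sub I T, rfl, (hD.greedy_aux T (List.Sublist.refl T)).1⟩

theorem Om_eq : Om T I = M.bases.image (lst T) := by
  ext B
  rw [mem_Om, mem_image, hD.greedy_len]
  constructor
  · rintro ⟨h1, h2, h3⟩
    refine ⟨toS T B, M.mem_bases.2 ⟨(hD.ind _ h1).1 h3, ?_⟩, ?_⟩
    · rw [toS_card hD.nodup h1, h2]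
    · exact toS_inj hD.nodup (lst_sublist _ _) h1 (toS_lst _ _)
  · rintro ⟨S, hS, rfl⟩
    obtain ⟨h1, h2⟩ := M.mem_bases.1 hS
    refine ⟨lst_sublist _ _, ?_, ?_⟩
    · rw [← toS_card hD.nodup (lst_sublist _ _), toS_lst, h2]
    · rw [hD.ind _ (lst_sublist _ _), toS_lst]
      exact h1

omit hD in
theorem lst_inj : Function.Injective (lst T) := fun S S' h => by
  rw [← toS_lst T S, h, toS_lst]

theorem card_Om : (Om T I).card = M.bases.card := by
  rw [hD.Om_eq, card_image_of_injective _ lst_inj]

theorem adj_iff {S S' : Finset {x // x ∈ T}} (hS : S ∈ M.bases) (hS' : S' ∈ M.bases) :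
    adj (lst T S) (lst T S') = true ↔ M.Adj S S' := by
  have key : ∀ S S' : Finset {x // x ∈ T},
      ((lst T S).filter fun f => !decide (f ∈ lst T S')).length = (S \ S').card := by
    intro S S'
    have hsub : ((lst T S).filter fun f => !decide (f ∈ lst T S')).Sublist T :=
      List.filter_sublist.trans (lst_sublist _ _)
    rw [← toS_card hD.nodup hsub]
    congr 1
    ext x
    rw [mem_toS, List.mem_filter, mem_sdiff, ← mem_toS (T := T) (B := lst T S), toS_lst]
    simp only [Bool.not_eq_true', decide_eq_false_iff_not]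
    rw [← mem_toS (T := T) (B := lst T S'), toS_lst]
  unfold adj FM.Adj
  rw [Bool.and_eq_true, decide_eq_true_eq, decide_eq_true_eq, key, key]
  obtain ⟨-, h1⟩ := M.mem_bases.1 hS
  obtain ⟨-, h2⟩ := M.mem_bases.1 hS'
  have h3 := card_sdiff_add_card_inter S S'
  have h4 := card_sdiff_add_card_inter S' S
  rw [inter_comm] at h4
  omega

theorem poincare (f : List α → ℝ) :
    ∑ B ∈ Om T I, ∑ B' ∈ Om T I, (f B - f B') ^ 2 ≤
      ((Om T I).card : ℝ) * dir (Om T I) (fun B B' => adj B B' = true) f := by
  classical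
  have h1 := M.poincare fun S => f (lst T S)
  unfold dir
  rw [hD.card_Om]
  rw [hD.Om_eq]
  rw [sum_image fun _ _ _ _ h => lst_inj h, sum_image fun _ _ _ _ h => lst_inj h]
  have e1 : ∀ S ∈ M.bases, ∑ B' ∈ M.bases.image (lst T), (f (lst T S) - f B') ^ 2 =
      ∑ S' ∈ M.bases, (f (lst T S) - f (lst T S')) ^ 2 := fun S _ =>
    sum_image fun _ _ _ _ h => lst_inj h
  have e2 : ∀ S ∈ M.bases, (∑ B' ∈ M.bases.image (lst T),
      if adj (lst T S) B' = true then (f (lst T S) - f B') ^ 2 else 0) =
      ∑ S' ∈ M.bases, if M.Adj S S' then (f (lst T S) - f (lst T S')) ^ 2 else 0 := by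
    intro S hS
    rw [sum_image fun _ _ _ _ h => lst_inj h]
    refine sum_congr rfl fun S' hS' => ?_
    by_cases h : M.Adj S S'
    · rw [if_pos h, if_pos ((hD.adj_iff hS hS').2 h)]
    · rw [if_neg h, if_neg fun h' => h ((hD.adj_iff hS hS').1 h')]
  rw [sum_congr rfl e1, sum_congr rfl e2]
  convert h1 using 5

end Desc

/-! ### The exchange -/

theorem mem_swp {T B : List α} {f g x : α} :
    x ∈ swp T B f g ↔ x ∈ T ∧ ((x ∈ B ∧ x ≠ f) ∨ x = g) := by
  unfold swp
  rw [List.mem_filter]
  simp

theorem swp_sublist (T B : List α) (f g : α) : (swp T B f g).Sublist T := List.filter_sublist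

theorem swp_length {T B : List α} {f g : α} (hT : T.Nodup) (hB : B.Sublist T) (hf : f ∈ B)
    (hg : g ∈ T) (hgB : g ∉ B) : (swp T B f g).length = B.length := by
  have hfT := hB.subset hf
  have e : toS T (swp T B f g) = insert ⟨g, hg⟩ ((toS T B).erase ⟨f, hfT⟩) := by
    ext x
    rw [mem_toS, mem_swp, mem_insert, mem_erase, mem_toS]
    simp only [ne_eq, Subtype.ext_iff]
    constructor
    · rintro ⟨-, h | h⟩
      · exact Or.inr ⟨h.2, h.1⟩
      · exact Or.inl h
    · rintro (h | h)
      · exact ⟨x.2, Or.inr h⟩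
      · exact ⟨x.2, Or.inl ⟨h.2, h.1⟩⟩
  rw [← toS_card hT (swp_sublist T B f g), e, card_insert_of_notMem (by
    rw [mem_erase, mem_toS]
    exact fun h => hgB h.2), card_erase_of_mem (mem_toS.2 hf), toS_card hT hB]
  have : 0 < B.length := List.length_pos_of_mem hf
  omega

theorem filter_eq_singleton {B : List α} {f : α} (hB : B.Nodup) (hf : f ∈ B) (p : α → Bool)
    (hp : ∀ x ∈ B, p x = true ↔ x = f) : B.filter p = [f] := by
  have h1 : B.filter p = B.filter (fun x => decide (x = f)) :=
    List.filter_congr fun x hx => by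
      rw [Bool.eq_iff_iff, hp x hx, decide_eq_true_eq]
  rw [h1]
  have h2 : (B.filter fun x => decide (x = f)) = B.filter (· = f) := rfl
  rw [h2, List.filter_eq, List.count_eq_one_of_mem hB hf]
  rfl

theorem swp_iff {T B B' : List α} {f g : α} (hT : T.Nodup) (hB : B.Sublist T)
    (hB' : B'.Sublist T) (hf : f ∈ B) (hg : g ∈ T) (hgB : g ∉ B) : B' = swp T B f g ↔
      (B.filter (fun x => !decide (x ∈ B')) = [f] ∧
        B'.filter (fun x => !decide (x ∈ B)) = [g]) := by
  constructor
  · rintro rfl
    refine ⟨filter_eq_singleton (hT.sublist hB) hf _ fun x hx => ?_,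
      filter_eq_singleton (hT.sublist hB') (mem_swp.2 ⟨hg, Or.inr rfl⟩) _ fun x hx => ?_⟩
    · rw [Bool.not_eq_true', decide_eq_false_iff_not, mem_swp]
      constructor
      · intro h
        by_contra hne
        exact h ⟨hB.subset hx, Or.inl ⟨hx, hne⟩⟩
      · rintro rfl ⟨-, h | h⟩
        · exact h.2 rfl
        · exact hgB (h ▸ hx)
    · rw [Bool.not_eq_true', decide_eq_false_iff_not]
      rcases (mem_swp.1 hx).2 with h | h
      · exact ⟨fun h' => absurd h.1 h', fun h' => absurd (h' ▸ h.1) hgB⟩
      · exact ⟨fun _ => h, fun _ => h ▸ hgB⟩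
  · rintro ⟨h1, h2⟩
    refine eq_of_mem_iff hT hB' (swp_sublist _ _ _ _) fun x hx => ?_
    rw [mem_swp]
    have hf' : f ∉ B' := by
      have : f ∈ B.filter (fun x => !decide (x ∈ B')) := by rw [h1]; simp
      have := (List.mem_filter.1 this).2
      simpa using this
    have hg' : g ∈ B' := by
      have : g ∈ B'.filter (fun x => !decide (x ∈ B)) := by rw [h2]; simp
      exact (List.mem_filter.1 this).1
    constructor
    · intro hxB'
      refine ⟨hx, ?_⟩
      by_cases hxB : x ∈ B
      · exact Or.inl ⟨hxB, fun h => hf' (h ▸ hxB')⟩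
      · right
        have : x ∈ B'.filter (fun x => !decide (x ∈ B)) :=
          List.mem_filter.2 ⟨hxB', by simpa using hxB⟩
        rw [h2] at this
        simpa using this
    · rintro ⟨-, h | h⟩
      · by_contra hxB'
        have : x ∈ B.filter (fun x => !decide (x ∈ B')) :=
          List.mem_filter.2 ⟨h.1, by simpa using hxB'⟩
        rw [h1] at this
        exact h.2 (by simpa using this)
      · exact h ▸ hg'

theorem adj_symm (B B' : List α) : adj B B' = true ↔ adj B' B = true := by
  unfold adj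
  rw [Bool.and_comm]

theorem adj_irrefl (B : List α) : ¬ adj B B = true := by
  unfold adj
  have : (B.filter fun f => !decide (f ∈ B)) = [] := by
    rw [List.filter_eq_nil_iff]
    intro x hx
    simp [hx]
  simp [this]

theorem exch_some {T : List α} {I : List α → Bool} {B : List α} {i j : ℕ} {f g : α}
    (hi : T[i]? = some f) (hj : T[j]? = some g) : exch T I B i j =
      bif decide (f ∈ B) && !decide (g ∈ B) && I (swp T B f g) then swp T B f g else B := by
  unfold exch
  rw [hi, hj]
  rfl

theorem exch_mem {T : List α} {I : List α → Bool} (hT : T.Nodup) {B : List α} (hB : B ∈ Om T I)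
    (i j : ℕ) : exch T I B i j ∈ Om T I := by
  cases hi : T[i]? with
  | none => unfold exch; rw [hi]; exact hB
  | some f =>
    cases hj : T[j]? with
    | none => unfold exch; rw [hi, hj]; exact hB
    | some g =>
      rw [exch_some hi hj]
      cases h : decide (f ∈ B) && !decide (g ∈ B) && I (swp T B f g) with
      | false => exact hB
      | true =>
        rw [cond_true]
        rw [Bool.and_eq_true, Bool.and_eq_true, decide_eq_true_eq, Bool.not_eq_true',
          decide_eq_false_iff_not] at h
        obtain ⟨h1, h2, h3⟩ := mem_Om.1 hB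
        refine mem_Om.2 ⟨swp_sublist _ _ _ _, ?_, h.2⟩
        rw [swp_length hT h1 h.1.1 (List.mem_of_getElem? hj) h.1.2, h2]

theorem exch_adj {T : List α} {I : List α → Bool} (hT : T.Nodup) {B B' : List α}
    (hB : B ∈ Om T I) (hB' : B' ∈ Om T I) (hne : B ≠ B') {i j : ℕ} (h : exch T I B i j = B') :
    adj B B' = true ∧ i < T.length ∧ j < T.length ∧
      ∃ f g, T[i]? = some f ∧ T[j]? = some g ∧ B.filter (fun x => !decide (x ∈ B')) = [f] ∧
        B'.filter (fun x => !decide (x ∈ B)) = [g] := by
  cases hi : T[i]? with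
  | none => unfold exch at h; rw [hi] at h; exact absurd h hne
  | some f =>
    cases hj : T[j]? with
    | none => unfold exch at h; rw [hi, hj] at h; exact absurd h hne
    | some g =>
      rw [exch_some hi hj] at h
      cases hc : decide (f ∈ B) && !decide (g ∈ B) && I (swp T B f g) with
      | false => rw [hc] at h; exact absurd h hne
      | true =>
        rw [hc, cond_true] at h
        rw [Bool.and_eq_true, Bool.and_eq_true, decide_eq_true_eq, Bool.not_eq_true',
          decide_eq_false_iff_not] at hc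
        have h1 := (swp_iff hT (mem_Om.1 hB).1 (mem_Om.1 hB').1 hc.1.1 (List.mem_of_getElem? hj)
          hc.1.2).1 h.symm
        refine ⟨?_, (List.getElem?_eq_some_iff.1 hi).1, (List.getElem?_eq_some_iff.1 hj).1,
          f, g, rfl, rfl, h1⟩
        unfold adj
        rw [h1.1, h1.2]
        rfl

/-- adjacent bases are joined by exactly one exchange -/
theorem adj_exch {T : List α} {I : List α → Bool} (hT : T.Nodup) {B B' : List α}
    (hB : B ∈ Om T I) (hB' : B' ∈ Om T I) (h : adj B B' = true) :
    ∃ i0 < T.length, ∃ j0 < T.length, ∀ i j, exch T I B i j = B' ↔ i = i0 ∧ j = j0 := by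
  have hne : B ≠ B' := by
    rintro rfl
    exact adj_irrefl B h
  unfold adj at h
  rw [Bool.and_eq_true, decide_eq_true_eq, decide_eq_true_eq] at h
  obtain ⟨f, hf⟩ := List.length_eq_one_iff.1 h.1
  obtain ⟨g, hg⟩ := List.length_eq_one_iff.1 h.2
  have hf1 : f ∈ B ∧ f ∉ B' := by
    have : f ∈ B.filter (fun x => !decide (x ∈ B')) := by rw [hf]; simp
    simpa using List.mem_filter.1 this
  have hg1 : g ∈ B' ∧ g ∉ B := by
    have : g ∈ B'.filter (fun x => !decide (x ∈ B)) := by rw [hg]; simp
    simpa using List.mem_filter.1 this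
  have hfT := (mem_Om.1 hB).1.subset hf1.1
  have hgT := (mem_Om.1 hB').1.subset hg1.1
  obtain ⟨i0, hi0, e1⟩ := List.mem_iff_getElem.1 hfT
  obtain ⟨j0, hj0, e2⟩ := List.mem_iff_getElem.1 hgT
  refine ⟨i0, hi0, j0, hj0, fun i j => ?_⟩
  constructor
  · intro hex
    obtain ⟨-, -, -, f', g', h1, h2, h3, h4⟩ := exch_adj hT hB hB' hne hex
    rw [hf] at h3
    rw [hg] at h4
    obtain rfl : f = f' := by simpa using h3
    obtain rfl : g = g' := by simpa using h4
    obtain ⟨hi, e3⟩ := List.getElem?_eq_some_iff.1 h1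
    obtain ⟨hj, e4⟩ := List.getElem?_eq_some_iff.1 h2
    exact ⟨(List.Nodup.getElem_inj_iff hT).1 (e3.trans e1.symm),
      (List.Nodup.getElem_inj_iff hT).1 (e4.trans e2.symm)⟩
  · rintro ⟨rfl, rfl⟩
    have e3 : B' = swp T B f g :=
      (swp_iff hT (mem_Om.1 hB).1 (mem_Om.1 hB').1 hf1.1 hgT hg1.2).2 ⟨hf, hg⟩
    rw [exch_some (List.getElem?_eq_some_iff.2 ⟨hi0, e1⟩) (List.getElem?_eq_some_iff.2 ⟨hj0, e2⟩),
      ← e3, (mem_Om.1 hB').2.2]
    simp [hf1.1, hg1.2]

/-- a basis has few neighbours -/
theorem deg_le {T : List α} {I : List α → Bool} (hT : T.Nodup) {B : List α} (hB : B ∈ Om T I) :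
    ((Om T I).filter fun B' => adj B B' = true).card ≤ T.length * T.length := by
  have h : ((Om T I).filter fun B' => adj B B' = true) ⊆
      (range T.length ×ˢ range T.length).image fun p => exch T I B p.1 p.2 := by
    intro B' hB'
    obtain ⟨h1, h2⟩ := mem_filter.1 hB'
    obtain ⟨i, hi, j, hj, h3⟩ := adj_exch hT hB h1 h2
    exact mem_image.2 ⟨(i, j), mem_product.2 ⟨mem_range.2 hi, mem_range.2 hj⟩,
      (h3 i j).2 ⟨rfl, rfl⟩⟩
  refine (card_le_card h).trans (card_image_le.trans ?_)
  rw [card_product, card_range]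

theorem wid_spec (T : List α) : 2 * T.length < 2 ^ wid T ∧
    (T ≠ [] → 2 ^ wid T ≤ 4 * T.length) := by
  unfold wid
  rw [Nat.size_eq_bits_len]
  refine ⟨Nat.lt_size_self _, fun h => ?_⟩
  have h0 : 0 < T.length := List.length_pos_iff.2 h
  have h1 : 0 < (2 * T.length).size := Nat.size_pos.2 (by omega)
  obtain ⟨k, hk⟩ := Nat.exists_eq_succ_of_ne_zero h1.ne'
  have h2 : 2 ^ k ≤ 2 * T.length := Nat.lt_size.1 (by omega)
  rw [hk, pow_succ]
  omega

end Pool.Agent.P8H86.ST
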