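import Pool.Agent.P8H86.ST.Stage
import Pool.Agent.P8H86.ST.Defs
import Pool.Agent.P8H86.ST.Col
import Pool.Agent.P8H86.ST.Walk

/-!
# Spanning trees of complexes and bases
-/

set_option autoImplicit false

namespace Pool.Agent.P8H86.ST

open Finset Pool.Agent.NPC

/-! ### Gram determinants -/

theorem gdet_ne_zero (R : List (List ℤ)) (m : ℕ) (hR : ∀ u ∈ R, u.length = m) :
    H670R2.gdet R ≠ 0 ↔ ∀ c : Fin R.length → ℚ,
      (∀ k < m, ∑ i, c i * ((R.get i).getD k 0 : ℤ) = 0) → ∀ i, c i = 0 := by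
  have hG : ∀ i j, (H670R2.gramM R i j : ℚ) =
      ∑ k ∈ range m, ((R.get i).getD k 0 : ℤ) * (((R.get j).getD k 0 : ℤ) : ℚ) := by
    intro i j
    unfold H670R2.gramM
    rw [Matrix.of_apply, H670R2.dotL_eq_sum, hR _ (List.get_mem R i)]
    push_cast
    rfl
  have h1 : H670R2.gdet R ≠ 0 ↔ ((H670R2.gramM R).map (Int.cast : ℤ → ℚ)).det ≠ 0 := by
    have e : ((H670R2.gramM R).map (Int.cast : ℤ → ℚ)).det = ((H670R2.gramM R).det : ℚ) :=
      (Int.cast_det (H670R2.gramM R)).symm
    rw [H670R2.gdet_eq, e]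
    simp
  rw [h1, ne_eq, ← Matrix.exists_vecMul_eq_zero_iff, not_exists]
  have hsq : ∀ c : Fin R.length → ℚ, ∑ j, c j * (∑ i, c i * (H670R2.gramM R i j : ℚ)) =
      ∑ k ∈ range m, (∑ i, c i * ((R.get i).getD k 0 : ℤ)) ^ 2 := by
    intro c
    have e1 : ∀ k, (∑ i, c i * (((R.get i).getD k 0 : ℤ) : ℚ)) ^ 2 =
        ∑ j, ∑ i, c j * (c i * ((((R.get i).getD k 0 : ℤ) : ℚ) * (((R.get j).getD k 0 : ℤ) : ℚ))) := by
      intro k
      rw [sq, sum_mul_sum, sum_comm]
      refine sum_congr rfl fun j _ => sum_congr rfl fun i _ => ?_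
      ring
    simp only [e1, hG]
    rw [sum_comm]
    refine sum_congr rfl fun j _ => ?_
    rw [sum_comm, mul_sum]
    refine sum_congr rfl fun i _ => ?_
    rw [mul_sum, mul_sum]
  constructor
  · intro h c hc
    by_contra hne
    push Not at hne
    obtain ⟨i0, hi0⟩ := hne
    refine h c ⟨fun h0 => hi0 (by rw [h0]; rfl), ?_⟩
    funext j
    change ∑ i, c i * (H670R2.gramM R i j : ℚ) = 0
    simp only [hG, mul_sum]
    rw [sum_comm]
    refine sum_eq_zero fun k hk => ?_
    have h2 := hc k (mem_range.1 hk)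
    have h3 : ∀ i, c i * ((((R.get i).getD k 0 : ℤ) : ℚ) * (((R.get j).getD k 0 : ℤ) : ℚ)) =
        (c i * (((R.get i).getD k 0 : ℤ) : ℚ)) * (((R.get j).getD k 0 : ℤ) : ℚ) := fun i => by ring
    simp only [h3]
    rw [← sum_mul, h2, zero_mul]
  · rintro h c ⟨hc0, hc⟩
    apply hc0
    have h2 : ∀ j, ∑ i, c i * (H670R2.gramM R i j : ℚ) = 0 := fun j => congrFun hc j
    have h3 := hsq c
    simp only [h2, mul_zero, sum_const_zero] at h3
    have h4 := (sum_eq_zero_iff_of_nonneg (fun k _ => sq_nonneg _)).1 h3.symm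
    funext i
    exact h c (fun k hk => pow_eq_zero_iff (two_ne_zero) |>.1 (h4 k (mem_range.2 hk))) i

/-! ### Faces as lists -/

theorem sorted_nodup {f : List ℕ} (hf : f.Pairwise (· < ·)) : f.Nodup :=
  hf.imp fun h => ne_of_lt h

theorem sorted_inj {f g : List ℕ} (hf : f.Pairwise (· < ·)) (hg : g.Pairwise (· < ·))
    (h : f.toFinset = g.toFinset) : f = g := by
  have h1 : f.Perm g := List.perm_of_nodup_nodup_toFinset_eq (sorted_nodup hf) (sorted_nodup hg) h
  exact List.Perm.eq_of_pairwise' (r := (· ≤ ·)) (hf.imp fun h => h.le) (hg.imp fun h => h.le) h1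

theorem bdry_apply (σ τ : Finset ℕ) : bdry σ τ =
    ∑ v ∈ σ, if σ.erase v = τ then (-1 : ℚ) ^ (σ.filter (· < v)).card else 0 := by
  unfold bdry
  rw [Finsupp.finsetSum_apply]
  refine sum_congr rfl fun v _ => ?_
  rw [Finsupp.single_apply]

theorem coef_eq {f g : List ℕ} (hf : f.Pairwise (· < ·)) (hg : g.Pairwise (· < ·)) :
    (coef f g : ℚ) = bdry f.toFinset g.toFinset := by
  rw [bdry_apply]
  unfold coef
  rw [List.sum_toFinset _ (sorted_nodup hf), Int.cast_list_sum, List.map_map]
  congr 1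
  refine List.map_congr_left fun v _ => ?_
  simp only [Function.comp_apply]
  have h1 : (f.filter fun w => !decide (w = v)).toFinset = f.toFinset.erase v := by
    ext w
    simp [and_comm]
  have h2 : g = (f.filter fun w => !decide (w = v)) ↔ f.toFinset.erase v = g.toFinset := by
    rw [← h1]
    exact ⟨fun h => by rw [← h], fun h => sorted_inj hg (hf.filter _) h.symm⟩
  have h3 : (f.toFinset.filter (· < v)).card = (f.filter fun w => decide (w < v)).length := by
    have e : f.toFinset.filter (· < v) = (f.filter fun w => decide (w < v)).toFinset := by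
      ext w
      simp
    rw [e, List.toFinset_card_of_nodup ((sorted_nodup hf).filter _)]
  rw [h3]
  by_cases h : f.toFinset.erase v = g.toFinset
  · rw [if_pos h, decide_eq_true (h2.2 h), cond_true]
    set n := (f.filter fun w => decide (w < v)).length
    rcases Nat.even_or_odd n with he | ho
    · rw [he.neg_one_pow, decide_eq_true (Nat.even_iff.1 he), cond_true]
      simp
    · rw [ho.neg_one_pow]
      have : n % 2 ≠ 0 := by
        rw [Nat.odd_iff.1 ho]
        norm_num
      rw [decide_eq_false this, cond_false]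
      simp
  · rw [if_neg h, decide_eq_false (fun h' => h (h2.1 h')), cond_false]
    simp

/-! ### The complex of a list -/

/-- the situation: `L` lists the complex `Δ` of dimension `d` -/
structure Sit (L : List (List ℕ)) (Δ : Finset (Finset ℕ)) (d : ℕ) : Prop where
  pos : 1 ≤ d
  cx : IsComplex Δ
  dim : HasDim Δ d
  lists : Lists L Δ

namespace Sit

variable {L : List (List ℕ)} {Δ : Finset (Finset ℕ)} {d : ℕ} (h : Sit L Δ d)

include h

theorem sorted {f : List ℕ} (hf : f ∈ L) : f.Pairwise (· < ·) := h.lists.2.1 f hf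

theorem mem_iff {σ : Finset ℕ} : σ ∈ Δ ↔ ∃ f ∈ L, f.toFinset = σ := by
  rw [h.lists.2.2, List.mem_toFinset, List.mem_map]

theorem mem {f : List ℕ} (hf : f ∈ L) : f.toFinset ∈ Δ := h.mem_iff.2 ⟨f, hf, rfl⟩

theorem card_eq {f : List ℕ} (hf : f ∈ L) : f.toFinset.card = f.length :=
  List.toFinset_card_of_nodup (sorted_nodup (h.sorted hf))

theorem inj {f g : List ℕ} (hf : f ∈ L) (hg : g ∈ L) (he : f.toFinset = g.toFinset) : f = g :=
  sorted_inj (h.sorted hf) (h.sorted hg) he

theorem len_le {f : List ℕ} (hf : f ∈ L) : f.length ≤ d + 1 := by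
  rw [← h.card_eq hf]
  exact h.dim.1 _ (h.mem hf)

theorem mem_top {f : List ℕ} : f ∈ top L ↔ f ∈ L ∧ f.length = d + 1 := by
  unfold top
  rw [List.mem_filter, List.all_eq_true]
  refine and_congr_right fun hf => ?_
  simp only [decide_eq_true_eq]
  constructor
  · intro h1
    obtain ⟨σ, hσ, hc⟩ := h.dim.2
    obtain ⟨g, hg, rfl⟩ := h.mem_iff.1 hσ
    have h2 := h1 g hg
    rw [h.card_eq hg] at hc
    have h3 := h.len_le hf
    omega
  · intro h1 g hg
    rw [h1]
    exact h.len_le hg

theorem mem_low {f : List ℕ} : f ∈ low L ↔ f ∈ L ∧ f.length ≤ d := by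
  have h1 : f ∈ low L ↔ f ∈ L ∧ f ∉ top L := by
    unfold low top
    rw [List.mem_filter, List.mem_filter]
    refine and_congr_right fun hf => ?_
    simp [hf]
  rw [h1, h.mem_top]
  constructor
  · rintro ⟨h2, h3⟩
    have h4 := h.len_le h2
    refine ⟨h2, ?_⟩
    by_contra h5
    exact h3 ⟨h2, by omega⟩
  · rintro ⟨h2, h3⟩
    exact ⟨h2, fun h4 => by omega⟩

omit h in
theorem top_sub (L : List (List ℕ)) : (top L).Sublist L := List.filter_sublist

theorem top_nodup : (top L).Nodup := h.lists.1.sublist (top_sub L)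

theorem top_ne : top L ≠ [] := by
  obtain ⟨σ, hσ, hc⟩ := h.dim.2
  obtain ⟨g, hg, rfl⟩ := h.mem_iff.1 hσ
  rw [h.card_eq hg] at hc
  exact List.ne_nil_of_mem (h.mem_top.2 ⟨hg, hc⟩)

/-- the support of a boundary -/
theorem bdry_supp {f : List ℕ} (hf : f ∈ top L) {τ : Finset ℕ}
    (hτ : bdry f.toFinset τ ≠ 0) : ∃ g ∈ L, g.toFinset = τ := by
  rw [bdry_apply] at hτ
  obtain ⟨v, hv, hne⟩ := exists_ne_zero_of_sum_ne_zero hτ
  have he : f.toFinset.erase v = τ := by
    by_contra h0
    rw [if_neg h0] at hne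
    exact hne rfl
  obtain ⟨h1, h2⟩ := h.mem_top.1 hf
  rw [← h.mem_iff, ← he]
  refine h.cx.2 _ (h.mem h1) _ (erase_subset _ _) ?_
  rw [← card_pos, card_erase_of_mem hv, h.card_eq h1, h2]
  have := h.pos
  omega

theorem ind_iff (B : List (List ℕ)) (hB : B.Sublist (top L)) :
    ind L B = true ↔ LinearIndependent ℚ fun i : Fin B.length => bdry (B.get i).toFinset := by
  have hBL : ∀ i : Fin B.length, B.get i ∈ top L := fun i => hB.subset (List.get_mem B i)
  unfold ind
  rw [Bool.not_eq_true', decide_eq_false_iff_not, ← ne_eq,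
    gdet_ne_zero _ L.length (by
      intro u hu
      obtain ⟨f, -, rfl⟩ := List.mem_map.1 hu
      rw [List.length_map]), Fintype.linearIndependent_iff]
  set R := B.map fun f => L.map fun g => coef f g with hR
  have hlen : R.length = B.length := by rw [hR, List.length_map]
  have hget : ∀ (i : Fin R.length) (k : ℕ) (hk : k < L.length), (((R.get i).getD k 0 : ℤ) : ℚ) =
      bdry (B.get (Fin.cast hlen i)).toFinset (L[k]).toFinset := by
    intro i k hk
    have e1 : R.get i = L.map fun g => coef (B.get (Fin.cast hlen i)) g := by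
      simp [hR]
    rw [e1, ← coef_eq (h.sorted (h.mem_top.1 (hBL _)).1) (h.sorted (List.getElem_mem hk))]
    congr 1
    rw [List.getD_eq_getElem _ _ (by simpa using hk), List.getElem_map]
  have hzero : ∀ c : Fin B.length → ℚ, (∀ k (hk : k < L.length),
      ∑ i, c i * bdry (B.get i).toFinset (L[k]).toFinset = 0) ↔
        ∑ i, c i • bdry (B.get i).toFinset = 0 := by
    intro c
    constructor
    · intro h1
      ext τ
      rw [Finsupp.finsetSum_apply]
      simp only [Finsupp.smul_apply, smul_eq_mul, Finsupp.coe_zero, Pi.zero_apply]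
      by_cases hτ : ∃ g ∈ L, g.toFinset = τ
      · obtain ⟨g, hg, rfl⟩ := hτ
        obtain ⟨k, hk, rfl⟩ := List.mem_iff_getElem.1 hg
        exact h1 k hk
      · refine sum_eq_zero fun i _ => ?_
        by_contra hne
        exact hτ (h.bdry_supp (hBL i) fun h0 => hne (by rw [h0, mul_zero]))
    · intro h1 k hk
      have h2 := DFunLike.congr_fun h1 (L[k]).toFinset
      rw [Finsupp.finsetSum_apply] at h2
      simpa using h2
  constructor
  · intro h1 c hc i
    have h2 := h1 (fun i => c (Fin.cast hlen i)) (fun k hk => by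
      have h3 := (hzero c).2 hc k hk
      rw [← h3]
      refine Fintype.sum_equiv (finCongr hlen) _ _ fun j => ?_
      rw [hget j k hk]
      rfl) (Fin.cast hlen.symm i)
    exact h2
  · intro h1 c hc i
    have h2 := h1 (fun i => c (Fin.cast hlen.symm i)) ((hzero _).1 fun k hk => by
      rw [← hc k hk]
      refine Fintype.sum_equiv (finCongr hlen.symm) _ _ fun j => ?_
      rw [hget _ k hk]
      rfl) (Fin.cast hlen i)
    exact h2

/-- the vectors -/
noncomputable def vec (L : List (List ℕ)) (x : {x // x ∈ top L}) : Finset ℕ →₀ ℚ :=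
  bdry x.1.toFinset

theorem desc : Desc (top L) (ind L) (FM.ofVec (vec L)) where
  nodup := h.top_nodup
  ind := by
    intro B hB
    rw [h.ind_iff B hB, ofVec_ind]
    have hnd : B.Nodup := h.top_nodup.sublist hB
    let e : Fin B.length ≃ ((toS (top L) B : Finset {x // x ∈ top L}) : Set {x // x ∈ top L}) :=
      Equiv.ofBijective (fun i => ⟨⟨B.get i, hB.subset (List.get_mem B i)⟩,
        mem_coe.2 (mem_toS.2 (List.get_mem B i))⟩) (by
        constructor
        · intro i j hij
          have : B.get i = B.get j := congrArg (fun x => x.1.1) hij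
          exact (List.nodup_iff_injective_get.1 hnd) this
        · rintro ⟨⟨x, hx⟩, hx'⟩
          obtain ⟨i, hi⟩ := List.mem_iff_get.1 (mem_toS.1 (mem_coe.1 hx'))
          exact ⟨i, by simpa using hi⟩)
    have := linearIndependent_equiv e (R := ℚ) (f := fun x :
      ((toS (top L) B : Finset {x // x ∈ top L}) : Set {x // x ∈ top L}) => vec L x.1)
    unfold LinearIndepOn
    rw [← this]
    rfl

end Sit

end Pool.Agent.P8H86.ST
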