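import Pool.Agent.NPC.Prog
import Pool.Agent.P8H86.ST.Defs

/-!
# Programs as probabilistic machines
-/

set_option autoImplicit false

namespace Pool.Agent.P8H86.ST

open Pool.Agent.NPC Turing
open Function (update)

/-- stack `0` contains `x` and stack `1` contains `r` -/
def inp2 (x r : List Bool) : ℕ → List Bool := update (update (fun _ => []) 0 x) 1 r

/-- the probabilistic machine of a program -/
def ofCmd (c : Cmd ℕ) : RandTM where
  tm := (c.map (Fin.ofNat (c.bd + 2))).toTM (n := c.bd + 1)
  inA := Equiv.refl Bool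
  outA := Equiv.refl Bool
  coin := (1 : Fin (c.bd + 2))
  coinA := Equiv.refl Bool
  ne := by
    change (1 : Fin (c.bd + 2)) ≠ 0
    intro h
    have := congrArg Fin.val h
    simp at this

theorem ofCmd_init (c : Cmd ℕ) (x r : List Bool) : (ofCmd c).init x r =
    (⟨some (some (c.map (Fin.ofNat (c.bd + 2))).entry), none,
      fun i : Fin (c.bd + 2) => inp2 x r i⟩ : (ofCmd c).tm.Cfg) := by
  unfold RandTM.init
  congr 1
  funext k
  change Fin (c.bd + 2) at k
  change Function.update (Function.update (fun _ : Fin (c.bd + 2) => ([] : List Bool)) 0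
    (x.map id)) 1 (r.map id) k = inp2 x r k
  rw [List.map_id, List.map_id]
  unfold inp2
  by_cases h1 : k = 1
  · subst h1
    rw [Function.update_self]
    have : ((1 : Fin (c.bd + 2)) : ℕ) = 1 := by simp
    rw [this, Function.update_self]
  · have h1' : (k : ℕ) ≠ 1 := fun h => h1 (Fin.ext (by simpa using h))
    rw [Function.update_of_ne h1, Function.update_of_ne h1']
    by_cases h0 : k = 0
    · subst h0
      rw [Function.update_self]
      have : ((0 : Fin (c.bd + 2)) : ℕ) = 0 := rfl
      rw [this, Function.update_self]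
    · have h0' : (k : ℕ) ≠ 0 := fun h => h0 (Fin.ext h)
      rw [Function.update_of_ne h0, Function.update_of_ne h0']

theorem ofCmd_halts {c : Cmd ℕ} {x r : List Bool} {s' : ℕ → List Bool} {n : ℕ}
    (h : Runs c (inp2 x r) s' n) : (ofCmd c).Halts x r (n + 1) (s' 0) := by
  obtain ⟨t, ht, hr⟩ := h
  have h1 := hr.restrict (n := c.bd + 1) (by omega)
  obtain ⟨v, hv⟩ := code_correct h1 (L := Option (c.map (Fin.ofNat (c.bd + 2))).Lbl)
    (fun l => Option.rec (TM2.Stmt.load (fun _ => none) TM2.Stmt.halt)
      (fun l => (c.map (Fin.ofNat (c.bd + 2))).code some none l) l) some none (fun l => rfl) none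
  refine ⟨t + 1, by omega, ⟨none, none, fun i : Fin (c.bd + 2) => s' i⟩, ?_, rfl, ?_⟩
  · rw [ofCmd_init]
    have hv' : (flip bind (ofCmd c).tm.step)^[t]
        (some (⟨some (some (c.map (Fin.ofNat (c.bd + 2))).entry), none,
          fun i : Fin (c.bd + 2) => inp2 x r i⟩ : (ofCmd c).tm.Cfg)) =
        some ⟨some none, v, fun i : Fin (c.bd + 2) => s' i⟩ := hv
    rw [add_comm, Function.iterate_add_apply, hv']
    rfl
  · change List.map id (s' ((0 : Fin (c.bd + 2)) : ℕ)) = s' 0
    rw [List.map_id]
    rfl

namespace RandTM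

variable (M : RandTM)

theorem iter_none (m : ℕ) : (flip bind M.tm.step)^[m] none = none := by
  induction m with
  | zero => rfl
  | succ m ih => rw [Function.iterate_succ_apply]; exact ih

theorem step_halt {c : M.tm.Cfg} (h : c.l = none) : M.tm.step c = none := by
  obtain ⟨l, v, s⟩ := c
  change l = none at h
  subst h
  rfl

theorem Halts.unique {x r : List Bool} {n n' : ℕ} {y y' : List Bool} (h : M.Halts x r n y)
    (h' : M.Halts x r n' y') : y = y' := by
  obtain ⟨m, -, c, h1, h2, h3⟩ := h
  obtain ⟨m', -, c', h1', h2', h3'⟩ := h'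
  have key : ∀ (a b : ℕ) (c c' : M.tm.Cfg), a < b →
      (flip bind M.tm.step)^[a] (some (M.init x r)) = some c → c.l = none →
      (flip bind M.tm.step)^[b] (some (M.init x r)) = some c' → False := by
    intro a b c c' hab ha hc hb
    obtain ⟨d, rfl⟩ : ∃ d, b = (d + 1) + a := ⟨b - a - 1, by omega⟩
    rw [Function.iterate_add_apply, ha, Function.iterate_succ_apply] at hb
    have : (flip bind M.tm.step) (some c) = none := by
      change (some c).bind M.tm.step = none
      rw [Option.bind_some]
      exact M.step_halt hc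
    rw [this, iter_none] at hb
    exact absurd hb (by simp)
  rcases lt_trichotomy m m' with hlt | rfl | hlt
  · exact (key m m' c c' hlt h1 h2 h1').elim
  · rw [h1] at h1'
    obtain rfl := Option.some.inj h1'
    rw [← h3, ← h3']
  · exact (key m' m c' c hlt h1' h2' h1).elim

theorem Halts.mono {x r : List Bool} {n n' : ℕ} {y : List Bool} (h : M.Halts x r n y)
    (hn : n ≤ n') : M.Halts x r n' y := by
  obtain ⟨m, hm, h⟩ := h
  exact ⟨m, hm.trans hn, h⟩

theorem Outputs.unique {x : List Bool} {ω : ℕ → Bool} {n n' : ℕ} {y y' : List Bool}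
    (h : M.Outputs x ω n y) (h' : M.Outputs x ω n' y') : y = y' := by
  obtain ⟨N, h1, h2⟩ := (h.and h').exists
  exact h1.unique M h2

theorem Outputs.mono {x : List Bool} {ω : ℕ → Bool} {n n' : ℕ} {y : List Bool}
    (h : M.Outputs x ω n y) (hn : n ≤ n') : M.Outputs x ω n' y := by
  unfold Outputs at *
  filter_upwards [h] with N hN
  exact hN.mono M hn

end RandTM

/-! ### The loop program -/

/-- the renaming which leaves the stacks `1, 2, 3, 4` free -/
def ren (i : ℕ) : ℕ := if i = 0 then 0 else i + 4

theorem ren_inj : Function.Injective ren := by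
  intro i j h
  unfold ren at h
  split_ifs at h <;> omega

/-- a family of stacks -/
def st (u ρ fl p q : List Bool) : ℕ → List Bool
  | 0 => u
  | 1 => ρ
  | 2 => fl
  | 3 => p
  | 4 => q
  | _ => []

theorem upd0 (u ρ fl p q v : List Bool) : update (st u ρ fl p q) 0 v = st v ρ fl p q := by
  funext i
  rcases i with _ | _ | _ | _ | _ | i <;> simp [update, st]
theorem upd1 (u ρ fl p q v : List Bool) : update (st u ρ fl p q) 1 v = st u v fl p q := by
  funext i
  rcases i with _ | _ | _ | _ | _ | i <;> simp [update, st]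
theorem upd2 (u ρ fl p q v : List Bool) : update (st u ρ fl p q) 2 v = st u ρ v p q := by
  funext i
  rcases i with _ | _ | _ | _ | _ | i <;> simp [update, st]
theorem upd3 (u ρ fl p q v : List Bool) : update (st u ρ fl p q) 3 v = st u ρ fl v q := by
  funext i
  rcases i with _ | _ | _ | _ | _ | i <;> simp [update, st]
theorem upd4 (u ρ fl p q v : List Bool) : update (st u ρ fl p q) 4 v = st u ρ fl p v := by
  funext i
  rcases i with _ | _ | _ | _ | _ | i <;> simp [update, st]

theorem inp2_eq (x r : List Bool) : inp2 x r = st x r [] [] [] := by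
  have : (fun _ : ℕ => ([] : List Bool)) = st [] [] [] [] [] := by
    funext i
    rcases i with _ | _ | _ | _ | _ | i <;> rfl
  unfold inp2
  rw [this, upd0, upd1]

theorem runs_push (s : ℕ → List Bool) (k : ℕ) (b : Bool) {s' : ℕ → List Bool}
    (h : update s k (b :: s k) = s') : Runs (Cmd.push k b) s s' 1 := h ▸ Runs.push s k b

theorem runs_pop (s : ℕ → List Bool) (k : ℕ) {s' : ℕ → List Bool}
    (h : update s k (s k).tail = s') : Runs (Cmd.pop k) s s' 1 := h ▸ Runs.pop s k

/-- a subprogram which works on stack `0` -/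
theorem runs_sub {c : Cmd ℕ} {u v : List Bool} {n : ℕ} (h : Runs c (inp u) (inp v) n)
    (ρ fl p q : List Bool) : Runs (c.map ren) (st u ρ fl p q) (st v ρ fl p q) n := by
  obtain ⟨t, ht, hr⟩ := h
  obtain ⟨S', h1, h2, h3⟩ := hr.map ren_inj (st u ρ fl p q) (by
    funext i
    rcases i with _ | i
    · rfl
    · simp [ren, inp, st])
  refine ⟨t, ht, ?_⟩
  have : S' = st v ρ fl p q := by
    funext j
    by_cases hj : j ∈ Set.range ren
    · obtain ⟨i, rfl⟩ := hj
      have := congrFun h2 i
      rw [this]
      rcases i with _ | i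
      · simp [inp, ren, st]
      · simp [inp, ren, st]
    · rw [h3 j hj]
      have h0 : j ≠ 0 := by
        rintro rfl
        exact hj ⟨0, rfl⟩
      have h5 : j < 5 := by
        by_contra hlt
        exact hj ⟨j - 4, by unfold ren; rw [if_neg (by omega)]; omega⟩
      rcases j with _ | _ | _ | _ | _ | j
      · exact absurd rfl h0
      · rfl
      · rfl
      · rfl
      · rfl
      · omega
  rwa [this] at h1

/-- move stack `0` to stack `3` and draw as many coin flips to stack `4` -/
def draw : Cmd ℕ := Cmd.loop 0 (Cmd.seq (Cmd.cases 0 Cmd.skip (Cmd.push 3 false) (Cmd.push 3 true))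
  (Cmd.seq (Cmd.pop 0) (Cmd.seq (Cmd.cases 1 (Cmd.push 4 false) (Cmd.push 4 false) (Cmd.push 4 true))
    (Cmd.pop 1))))

theorem runs_draw (u : List Bool) : ∀ (r R fl p q : List Bool), r.length = u.length →
    Runs draw (st u (r ++ R) fl p q) (st [] R fl (u.reverse ++ p) (r.reverse ++ q))
      (7 * u.length + 1) := by
  induction u with
  | nil =>
    intro r R fl p q hr
    have : r = [] := List.length_eq_zero_iff.1 hr
    subst this
    exact (Runs.loopNil rfl).conv rfl rfl (by simp)
  | cons a u ih =>
    intro r R fl p q hr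
    cases r with
    | nil => simp at hr
    | cons b r =>
      have h1 : Runs (Cmd.cases 0 Cmd.skip (Cmd.push 3 false) (Cmd.push 3 true))
          (st (a :: u) (b :: (r ++ R)) fl p q) (st (a :: u) (b :: (r ++ R)) fl (a :: p) q) 2 := by
        cases a
        · exact Runs.casesFalse rfl (runs_push _ _ _ (upd3 _ _ _ _ _ _))
        · exact Runs.casesTrue rfl (runs_push _ _ _ (upd3 _ _ _ _ _ _))
      have h2 : Runs (Cmd.pop 0) (st (a :: u) (b :: (r ++ R)) fl (a :: p) q)
          (st u (b :: (r ++ R)) fl (a :: p) q) 1 := runs_pop _ _ (upd0 _ _ _ _ _ _)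
      have h3 : Runs (Cmd.cases 1 (Cmd.push 4 false) (Cmd.push 4 false) (Cmd.push 4 true))
          (st u (b :: (r ++ R)) fl (a :: p) q) (st u (b :: (r ++ R)) fl (a :: p) (b :: q)) 2 := by
        cases b
        · exact Runs.casesFalse rfl (runs_push _ _ _ (upd4 _ _ _ _ _ _))
        · exact Runs.casesTrue rfl (runs_push _ _ _ (upd4 _ _ _ _ _ _))
      have h4 : Runs (Cmd.pop 1) (st u (b :: (r ++ R)) fl (a :: p) (b :: q))
          (st u (r ++ R) fl (a :: p) (b :: q)) 1 := runs_pop _ _ (upd1 _ _ _ _ _ _)
      have h5 := ih r R fl (a :: p) (b :: q) (by simpa using hr)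
      refine (Runs.loopCons (by simp [st]) (h1.seq (h2.seq (h3.seq h4))) h5).conv rfl ?_ ?_
      · simp
      · simp only [List.length_cons]
        omega

/-- move stack `4` to stack `0` -/
def back : Cmd ℕ := Cmd.loop 4 (Cmd.seq (Cmd.cases 4 Cmd.skip (Cmd.push 0 false) (Cmd.push 0 true))
  (Cmd.pop 4))

theorem runs_back (q : List Bool) : ∀ (u ρ fl p : List Bool),
    Runs back (st u ρ fl p q) (st (q.reverse ++ u) ρ fl p []) (4 * q.length + 1) := by
  induction q with
  | nil =>
    intro u ρ fl p
    exact (Runs.loopNil rfl).conv rfl rfl (by simp)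
  | cons b q ih =>
    intro u ρ fl p
    have h1 : Runs (Cmd.cases 4 Cmd.skip (Cmd.push 0 false) (Cmd.push 0 true))
        (st u ρ fl p (b :: q)) (st (b :: u) ρ fl p (b :: q)) 2 := by
      cases b
      · exact Runs.casesFalse rfl (runs_push _ _ _ (upd0 _ _ _ _ _ _))
      · exact Runs.casesTrue rfl (runs_push _ _ _ (upd0 _ _ _ _ _ _))
    have h2 : Runs (Cmd.pop 4) (st (b :: u) ρ fl p (b :: q)) (st (b :: u) ρ fl p q) 1 :=
      runs_pop _ _ (upd4 _ _ _ _ _ _)
    refine (Runs.loopCons (by simp [st]) (h1.seq h2) (ih (b :: u) ρ fl p)).conv rfl ?_ ?_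
    · simp
    · simp only [List.length_cons]
      omega

/-- move stack `3` to stack `0`, with marks -/
def mark : Cmd ℕ := Cmd.loop 3 (Cmd.seq (Cmd.cases 3 Cmd.skip (Cmd.push 0 false) (Cmd.push 0 true))
  (Cmd.seq (Cmd.push 0 true) (Cmd.pop 3)))

theorem runs_mark (p : List Bool) : ∀ (u ρ fl q : List Bool),
    Runs mark (st u ρ fl p q) (st (p.reverse.flatMap (fun b => [true, b]) ++ u) ρ fl [] q)
      (5 * p.length + 1) := by
  induction p with
  | nil =>
    intro u ρ fl q
    exact (Runs.loopNil rfl).conv rfl rfl (by simp)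
  | cons b p ih =>
    intro u ρ fl q
    have h1 : Runs (Cmd.cases 3 Cmd.skip (Cmd.push 0 false) (Cmd.push 0 true))
        (st u ρ fl (b :: p) q) (st (b :: u) ρ fl (b :: p) q) 2 := by
      cases b
      · exact Runs.casesFalse rfl (runs_push _ _ _ (upd0 _ _ _ _ _ _))
      · exact Runs.casesTrue rfl (runs_push _ _ _ (upd0 _ _ _ _ _ _))
    have h2 : Runs (Cmd.push 0 true) (st (b :: u) ρ fl (b :: p) q)
        (st (true :: b :: u) ρ fl (b :: p) q) 1 := runs_push _ _ _ (upd0 _ _ _ _ _ _)
    have h3 : Runs (Cmd.pop 3) (st (true :: b :: u) ρ fl (b :: p) q)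
        (st (true :: b :: u) ρ fl p q) 1 := runs_pop _ _ (upd3 _ _ _ _ _ _)
    refine (Runs.loopCons (by simp [st]) (h1.seq (h2.seq h3)) (ih (true :: b :: u) ρ fl q)).conv
      rfl ?_ ?_
    · simp
    · simp only [List.length_cons]
      omega

/-- one stage -/
def body (cF : Cmd ℕ) : Cmd ℕ := Cmd.seq (Cmd.pop 2) (Cmd.seq draw (Cmd.seq back (Cmd.seq
  (Cmd.push 0 false) (Cmd.seq mark (Cmd.seq (cF.map ren) (Cmd.cases 0 Cmd.skip
    (Cmd.seq (Cmd.pop 0) (Cmd.push 2 true)) (Cmd.pop 0)))))))

/-- the running time of one stage -/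
noncomputable def qF (pF : Polynomial ℕ) : Polynomial ℕ :=
  16 * Polynomial.X + pF.comp (3 * Polynomial.X + 1) + 10

theorem qF_eval (pF : Polynomial ℕ) (n : ℕ) :
    (qF pF).eval n = 16 * n + pF.eval (3 * n + 1) + 10 := by
  simp [qF, Polynomial.eval_comp]

section

variable {F : List Bool → List Bool} {cF : Cmd ℕ} {pF : Polynomial ℕ}
  (hF : ∀ a, Runs cF (inp a) (inp (F a)) (pF.eval a.length))

include hF

theorem runs_pre (u r R : List Bool) (hr : r.length = u.length) :
    ∃ n ≤ 16 * u.length + pF.eval (3 * u.length + 1) + 5,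
      ∀ {c : Cmd ℕ} {s' : ℕ → List Bool} {k : ℕ},
      Runs c (st (F (pairBits u r)) R [] [] []) s' k →
      Runs (Cmd.seq (Cmd.pop 2) (Cmd.seq draw (Cmd.seq back (Cmd.seq
        (Cmd.push 0 false) (Cmd.seq mark (Cmd.seq (cF.map ren) c))))))
        (st u (r ++ R) [true] [] []) s' (n + k) := by
  have h1 : Runs (Cmd.pop 2) (st u (r ++ R) [true] [] []) (st u (r ++ R) [] [] []) 1 :=
    runs_pop _ _ (upd2 _ _ _ _ _ _)
  have h2 := runs_draw u r R [] [] [] hr
  rw [List.append_nil, List.append_nil] at h2
  have h3 := runs_back r.reverse [] R [] u.reverse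
  rw [List.reverse_reverse, List.append_nil, List.length_reverse] at h3
  have h4 : Runs (Cmd.push 0 false) (st r R [] u.reverse []) (st (false :: r) R [] u.reverse []) 1 :=
    runs_push _ _ _ (upd0 _ _ _ _ _ _)
  have h5 := runs_mark u.reverse (false :: r) R [] []
  rw [List.reverse_reverse, List.length_reverse] at h5
  have h6 : Runs (cF.map ren) (st (u.flatMap (fun b => [true, b]) ++ false :: r) R [] [] [])
      (st (F (pairBits u r)) R [] [] []) (pF.eval (3 * u.length + 1)) := by
    have := runs_sub (hF (pairBits u r)) R [] [] []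
    have hl : (pairBits u r).length = 3 * u.length + 1 := by
      unfold pairBits
      have e : ∀ l : List Bool, (l.flatMap fun b => [true, b]).length = 2 * l.length := by
        intro l
        induction l with
        | nil => rfl
        | cons a l ih => simp only [List.flatMap_cons, List.length_append, ih, List.length_cons,
            List.length_nil]; omega
      rw [List.length_append, e, List.length_cons, hr]
      omega
    rw [hl] at this
    exact this
  refine ⟨1 + ((7 * u.length + 1) + ((4 * r.length + 1) + (1 + ((5 * u.length + 1) +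
    pF.eval (3 * u.length + 1))))), by omega, fun {c s' k} h7 => ?_⟩
  refine (h1.seq (h2.seq (h3.seq (h4.seq (h5.seq (h6.seq h7)))))).mono ?_
  omega

theorem runs_cont (u r R u' : List Bool) (hr : r.length = u.length)
    (h : F (pairBits u r) = false :: u') :
    Runs (body cF) (st u (r ++ R) [true] [] []) (st u' R [true] [] []) ((qF pF).eval u.length) := by
  obtain ⟨n, hn, hc⟩ := runs_pre hF u r R hr
  rw [h] at hc
  have h1 : Runs (Cmd.cases 0 Cmd.skip (Cmd.seq (Cmd.pop 0) (Cmd.push 2 true)) (Cmd.pop 0))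
      (st (false :: u') R [] [] []) (st u' R [true] [] []) 3 :=
    Runs.casesFalse rfl ((runs_pop _ _ (upd0 _ _ _ _ _ _)).seq
      (runs_push _ _ _ (upd2 _ _ _ _ _ _)))
  refine (hc h1).mono ?_
  rw [qF_eval]
  omega

theorem runs_fin (u r R y : List Bool) (hr : r.length = u.length)
    (h : F (pairBits u r) = true :: y) :
    Runs (body cF) (st u (r ++ R) [true] [] []) (st y R [] [] []) ((qF pF).eval u.length) := by
  obtain ⟨n, hn, hc⟩ := runs_pre hF u r R hr
  rw [h] at hc
  have h1 : Runs (Cmd.cases 0 Cmd.skip (Cmd.seq (Cmd.pop 0) (Cmd.push 2 true)) (Cmd.pop 0))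
      (st (true :: y) R [] [] []) (st y R [] [] []) 2 :=
    Runs.casesTrue rfl (runs_pop _ _ (upd0 _ _ _ _ _ _))
  refine (hc h1).mono ?_
  rw [qF_eval]
  omega

end

/-- A process: the states and the outcomes of the stages. -/
structure Proc where
  /-- the states -/
  u : ℕ → List Bool
  /-- the outcomes; `none` means that the process goes on -/
  out : ℕ → List Bool → Option (List Bool)

namespace Proc

variable (P : Proc)

/-- the number of coin flips before stage `i` -/
def o (i : ℕ) : ℕ := ∑ j ∈ Finset.range i, (P.u j).length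

theorem o_succ (i : ℕ) : P.o (i + 1) = P.o i + (P.u i).length := by
  simp [o, Finset.sum_range_succ]

/-- the coin flips of stage `i` -/
def rd (i : ℕ) (l : List Bool) : List Bool := (l.drop (P.o i)).take (P.u i).length

/-- the process does not stop before stage `J` -/
def Cont (J : ℕ) (l : List Bool) : Prop := ∀ i < J, P.out i (P.rd i l) = none

/-- the program works as the process -/
def Works (F : List Bool → List Bool) : Prop :=
  ∀ i r, r.length = (P.u i).length → F (pairBits (P.u i) r) =
    match P.out i r with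
    | none => false :: P.u (i + 1)
    | some y => true :: y

theorem rd_length {i : ℕ} {l : List Bool} (h : P.o (i + 1) ≤ l.length) :
    (P.rd i l).length = (P.u i).length := by
  unfold rd
  rw [List.length_take, List.length_drop]
  rw [o_succ] at h
  omega

theorem loop_runs {F : List Bool → List Bool} {cF : Cmd ℕ} {pF : Polynomial ℕ}
    (hF : ∀ a, Runs cF (inp a) (inp (F a)) (pF.eval a.length)) (hP : P.Works F)
    (l : List Bool) (J : ℕ) (hl : P.o (J + 1) ≤ l.length) (hc : P.Cont J l) (y : List Bool)
    (hy : P.out J (P.rd J l) = some y) : ∀ d ≤ J,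
    Runs (Cmd.loop 2 (body cF)) (st (P.u (J - d)) (l.drop (P.o (J - d))) [true] [] [])
      (st y (l.drop (P.o (J + 1))) [] [] [])
      (∑ i ∈ Finset.range (d + 1), ((qF pF).eval (P.u (J - d + i)).length + 1) + 1) := by
  intro d
  have hmono : ∀ i ≤ J, P.o (i + 1) ≤ l.length := by
    intro i hi
    refine le_trans ?_ hl
    unfold o
    exact Finset.sum_le_sum_of_subset (Finset.range_mono (by omega))
  have hsplit : ∀ i, l.drop (P.o i) = P.rd i l ++ l.drop (P.o (i + 1)) := by
    intro i
    unfold rd
    rw [o_succ, ← List.drop_drop, List.take_append_drop]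
  induction d with
  | zero =>
    intro _
    rw [Nat.sub_zero, hsplit J]
    have h1 := hP J (P.rd J l) (P.rd_length (hmono J le_rfl))
    rw [hy] at h1
    have h2 := runs_fin hF (P.u J) (P.rd J l) (l.drop (P.o (J + 1))) y
      (P.rd_length (hmono J le_rfl)) h1
    refine (Runs.loopCons (by simp [st]) h2 (Runs.loopNil rfl)).mono ?_
    simp
  | succ d ih =>
    intro hd
    have h0 := ih (by omega)
    set i := J - (d + 1) with hi
    have hi1 : J - d = i + 1 := by omega
    rw [hi1] at h0
    have hnone := hc i (by omega)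
    have h1 := hP i (P.rd i l) (P.rd_length (hmono i (by omega)))
    rw [hnone] at h1
    have h2 := runs_cont hF (P.u i) (P.rd i l) (l.drop (P.o (i + 1))) (P.u (i + 1))
      (P.rd_length (hmono i (by omega))) h1
    rw [hsplit i]
    refine (Runs.loopCons (by simp [st]) h2 h0).mono ?_
    rw [Finset.sum_range_succ' _ (d + 1)]
    have e : ∀ j, i + 1 + j = i + (j + 1) := fun j => by omega
    simp only [e, add_zero]
    omega

end Proc

/-- the complete program -/
def prog (cG cF : Cmd ℕ) : Cmd ℕ :=
  Cmd.seq (cG.map ren) (Cmd.seq (Cmd.push 2 true) (Cmd.loop 2 (body cF)))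

/-- the time after stage `J` -/
noncomputable def tm (P : Proc) (pF : Polynomial ℕ) (b0 : ℕ) (J : ℕ) : ℕ :=
  b0 + ∑ i ∈ Finset.range J, ((qF pF).eval (P.u i).length + 1)

theorem prog_outputs {F G : List Bool → List Bool} {cF cG : Cmd ℕ} {pF pG : Polynomial ℕ}
    (hF : ∀ a, Runs cF (inp a) (inp (F a)) (pF.eval a.length))
    (hG : ∀ a, Runs cG (inp a) (inp (G a)) (pG.eval a.length))
    (P : Proc) (hP : P.Works F) (x : List Bool) (hx : G x = P.u 0) (ω : ℕ → Bool) (J : ℕ)
    (hc : P.Cont J (pre ω (P.o J))) (y : List Bool)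
    (hy : P.out J (blk ω (P.o J) (P.u J).length) = some y) :
    (ofCmd (prog cG cF)).Outputs x ω (tm P pF (pG.eval x.length + 3) (J + 1)) y := by
  unfold RandTM.Outputs
  filter_upwards [Filter.eventually_ge_atTop (P.o (J + 1))] with N hN
  obtain ⟨k, rfl⟩ := Nat.exists_eq_add_of_le hN
  set l := pre ω (P.o (J + 1) + k) with hl
  have hlen : P.o (J + 1) ≤ l.length := by rw [hl, pre_length]; omega
  have hl1 : l = pre ω (P.o J) ++ (blk ω (P.o J) (P.u J).length ++ blk ω (P.o (J + 1)) k) := by
    rw [hl, pre_add, P.o_succ, pre_add, List.append_assoc]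
  have hrd : P.rd J l = blk ω (P.o J) (P.u J).length := by
    unfold Proc.rd
    rw [hl1, List.drop_left' (pre_length _ _), List.take_left' (blk_length _ _ _)]
  have hcont : P.Cont J l := by
    intro i hi
    have h1 := hc i hi
    have h2 : P.rd i l = P.rd i (pre ω (P.o J)) := by
      unfold Proc.rd
      have h3 : P.o i + (P.u i).length ≤ (pre ω (P.o J)).length := by
        rw [pre_length, ← P.o_succ]
        unfold Proc.o
        exact Finset.sum_le_sum_of_subset (Finset.range_mono (by omega))
      rw [hl1, List.drop_append_of_le_length (by omega), List.take_append_of_le_length (by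
        rw [List.length_drop]; omega)]
    rw [h2]
    exact h1
  have h1 := P.loop_runs hF hP l J hlen hcont y (by rw [hrd]; exact hy) J le_rfl
  have ho : P.o 0 = 0 := rfl
  rw [Nat.sub_self, ho, List.drop_zero] at h1
  have h2 := runs_sub (hG x) l [] [] []
  rw [hx] at h2
  have h3 : Runs (Cmd.push 2 true) (st (P.u 0) l [] [] []) (st (P.u 0) l [true] [] []) 1 :=
    runs_push _ _ _ (upd2 _ _ _ _ _ _)
  have h4 := h2.seq (h3.seq h1)
  rw [← inp2_eq] at h4
  have h5 := ofCmd_halts h4
  refine h5.mono _ ?_
  unfold tm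
  simp only [zero_add]
  omega

end Pool.Agent.P8H86.ST
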