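import Pool.Agent.P8H86.ST.Proc

/-!
# The exact uniform sampler
-/

set_option autoImplicit false

namespace Pool.Agent.P8H86.ST

open Finset Pool.Agent.NPC
open scoped ENNReal

theorem eval_le_mul (p : Polynomial ℕ) (a b : ℕ) (hb : 1 ≤ b) :
    p.eval (a * b) ≤ p.eval a * b ^ p.natDegree := by
  rw [Polynomial.eval_eq_sum_range, Polynomial.eval_eq_sum_range, sum_mul]
  refine sum_le_sum fun i hi => ?_
  rw [mul_pow, ← mul_assoc]
  exact Nat.mul_le_mul_left _ (Nat.pow_le_pow_right hb (by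
    have := mem_range.1 hi
    omega))

theorem len_bound (L : List (List ℕ)) (c k : ℕ) :
    (ust L c (k + 1)).length ≤ ((ust L c 0).length + 6) * 2 ^ (top L).length := by
  have h1 := pad_le L c k
  have h2 : 1 ≤ 2 ^ (top L).length := Nat.one_le_two_pow
  have h3 : (ust L c 0).length ≤ (ust L c 0).length * 2 ^ (top L).length :=
    Nat.le_mul_of_pos_right _ h2
  rw [ust_succ_len, add_mul]
  rw [ust_zero_len] at h3 ⊢
  omega

theorem time_bound (L : List (List ℕ)) (c : ℕ) (pF : Polynomial ℕ) (hc : (qF pF).natDegree ≤ c)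
    (b0 J : ℕ) (hJ : 1 ≤ J) :
    ((tm (proc L c) pF b0 (J + 1) - tm (proc L c) pF b0 J : ℕ) : ℝ) * (proc L c).c 0 ≤
      (((qF pF).eval ((ust L c 0).length + 6) + 1 : ℕ) : ℝ) := by
  obtain ⟨k, rfl⟩ : ∃ k, J = k + 1 := ⟨J - 1, by omega⟩
  have h1 : tm (proc L c) pF b0 (k + 1 + 1) - tm (proc L c) pF b0 (k + 1) =
      (qF pF).eval (ust L c (k + 1)).length + 1 := by
    unfold tm
    rw [sum_range_succ _ (k + 1)]
    change b0 + (_ + ((qF pF).eval (ust L c (k + 1)).length + 1)) - _ = _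
    omega
  rw [h1, proc_c0]
  have h2 : (qF pF).eval (ust L c (k + 1)).length ≤
      (qF pF).eval ((ust L c 0).length + 6) * 2 ^ hh L c := by
    refine (eval_mono _ (len_bound L c k)).trans ((eval_le_mul _ _ _ Nat.one_le_two_pow).trans ?_)
    refine Nat.mul_le_mul_left _ ?_
    rw [← pow_mul]
    refine Nat.pow_le_pow_right (by norm_num) ?_
    unfold hh
    rw [mul_comm]
    exact Nat.mul_le_mul_right _ hc
  have h3 : (qF pF).eval (ust L c (k + 1)).length + 1 ≤
      ((qF pF).eval ((ust L c 0).length + 6) + 1) * 2 ^ hh L c := by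
    rw [add_mul]
    have : 1 ≤ 1 * 2 ^ hh L c := by
      rw [one_mul]
      exact Nat.one_le_two_pow
    omega
  have h4 : (((qF pF).eval (ust L c (k + 1)).length + 1 : ℕ) : ℝ) ≤
      (((qF pF).eval ((ust L c 0).length + 6) + 1 : ℕ) : ℝ) * 2 ^ hh L c := by
    exact_mod_cast h3
  calc (((qF pF).eval (ust L c (k + 1)).length + 1 : ℕ) : ℝ) * (1 / 2) ^ hh L c
      ≤ ((((qF pF).eval ((ust L c 0).length + 6) + 1 : ℕ) : ℝ) * 2 ^ hh L c) *
        (1 / 2) ^ hh L c := mul_le_mul_of_nonneg_right h4 (by positivity)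
    _ = (((qF pF).eval ((ust L c 0).length + 6) + 1 : ℕ) : ℝ) * (2 * (1 / 2)) ^ hh L c := by
        rw [mul_assoc, ← mul_pow]
    _ = (((qF pF).eval ((ust L c 0).length + 6) + 1 : ℕ) : ℝ) := by norm_num

theorem length_le_of_poly {f : List Bool → List Bool} (hf : Poly f) :
    ∃ p : Polynomial ℕ, ∀ x, (f x).length ≤ p.eval x.length := by
  obtain ⟨p, hp⟩ := hf.sz_le
  refine ⟨p.comp (4 * Polynomial.X + 1), fun x => ?_⟩
  have h1 := length_lt_sz (f x)
  have h2 := hp x
  have h3 := eval_mono p (sz_listBool_le x)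
  rw [Polynomial.eval_comp]
  have h4 : (4 * Polynomial.X + 1 : Polynomial ℕ).eval x.length = 4 * x.length + 1 := by simp
  rw [h4]
  omega

theorem initB_bits (c : ℕ) (L : List (List ℕ)) : initB c (bits L) = ust L c 0 := by
  unfold initB
  rw [unbits_bits]
  rfl

theorem top_len_le (L : List (List ℕ)) (c : ℕ) : (top L).length + 1 ≤ (ust L c 0).length := by
  rw [ust_zero_len]
  unfold pp
  omega

/-- the size of the input -/
theorem input_le {L : List (List ℕ)} {Δ : Finset (Finset ℕ)} (hL : Lists L Δ)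
    (hv : ∀ σ ∈ Δ, ∀ v ∈ σ, v < Δ.card) :
    (bits L).length ≤ Δ.card * (Δ.card * (4 * Δ.card + 2) + 1 + 1) + 1 := by
  obtain ⟨h1, h2, h3⟩ := hL
  have hinj : ∀ f ∈ L, ∀ g ∈ L, f.toFinset = g.toFinset → f = g := fun f hf g hg he =>
    sorted_inj (h2 f hf) (h2 g hg) he
  have hlen : L.length = Δ.card := by
    rw [h3, List.toFinset_card_of_nodup, List.length_map]
    rw [List.nodup_map_iff_inj_on h1]
    exact hinj
  rw [bits_length]
  refine (sz_le_length_mul L (Δ.card * (4 * Δ.card + 2) + 1) fun f hf => ?_).trans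
    (by rw [hlen])
  have hfΔ : f.toFinset ∈ Δ := by
    rw [h3]
    exact List.mem_toFinset.2 (List.mem_map_of_mem hf)
  have hlt : ∀ v ∈ f, v < Δ.card := fun v hv' => hv _ hfΔ v (List.mem_toFinset.2 hv')
  have hfl : f.length ≤ Δ.card := by
    have h4 : f.toFinset ⊆ range Δ.card := fun v hv' =>
      mem_range.2 (hlt v (List.mem_toFinset.1 hv'))
    have h5 := card_le_card h4
    rwa [List.toFinset_card_of_nodup (sorted_nodup (h2 f hf)), card_range] at h5
  refine (sz_le_length_mul f (4 * Δ.card + 1) fun v hv' => ?_).trans ?_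
  · have h6 := sz_nat_le v
    have h7 := NPC.Poly.size_le_self v
    have h8 := hlt v hv'
    omega
  · exact Nat.add_le_add_right (Nat.mul_le_mul_right _ hfl) 1

/-- **There is an efficient exact uniform sampler for the spanning trees of simplicial
complexes.** -/
theorem sampler : ∃ (M : RandTM) (p q : Polynomial ℕ), ∀ (Δ : Finset (Finset ℕ)) (d : ℕ),
    1 ≤ d → IsComplex Δ → HasDim Δ d → ∀ x ∈ Codes Δ,
      (trees Δ d).Nonempty ∧
      (∀ Υ ∈ trees Δ d, M.probOut x (Codes Υ) = 1 / ((trees Δ d).card : ℝ≥0∞)) ∧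
      M.expectedTime x ≤ ((p.eval x.length : ℕ) : ℝ≥0∞) ∧
      ((∀ σ ∈ Δ, ∀ v ∈ σ, v < Δ.card) → M.expectedTime x ≤ ((q.eval Δ.card : ℕ) : ℝ≥0∞)) := by
  obtain ⟨cF, pF, hF⟩ := runs_of_poly poly_stageB
  set c := (qF pF).natDegree with hc
  obtain ⟨cG, pG, hG⟩ := runs_of_poly (poly_initB c)
  obtain ⟨pI, hI⟩ := length_le_of_poly (poly_initB c)
  let p : Polynomial ℕ := pG + 4 + (qF pF).comp pI + (pI + 3) * ((qF pF).comp (pI + 6) + 1)
  refine ⟨ofCmd (prog cG cF), p,
    p.comp (Polynomial.X * (Polynomial.X * (4 * Polynomial.X + 2) + 2) + 1), ?_⟩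
  rintro Δ d hd hcx hdim x ⟨L, rfl, hL⟩
  have h : Sit L Δ d := ⟨hd, hcx, hdim, hL⟩
  have hS := prog_sim hF hG (proc L c) (proc_works L c) (bits L) (initB_bits c L)
  have hT := proc_tail h c
  have htime : (ofCmd (prog cG cF)).expectedTime (bits L) ≤ ((p.eval (bits L).length : ℕ) : ℝ≥0∞) := by
    refine (hT.expectedTime hS _ fun J hJ => time_bound L c pF hc.ge _ J hJ).trans ?_
    rw [← ENNReal.ofReal_natCast]
    refine ENNReal.ofReal_le_ofReal ?_
    have e1 : tm (proc L c) pF (pG.eval (bits L).length + 3) 1 =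
        pG.eval (bits L).length + 3 + ((qF pF).eval (ust L c 0).length + 1) := by
      unfold tm
      rw [sum_range_one]
      rfl
    have hlen : (ust L c 0).length ≤ pI.eval (bits L).length := by
      rw [← initB_bits]
      exact hI _
    have e2 : p.eval (bits L).length = pG.eval (bits L).length + 4 +
        (qF pF).eval (pI.eval (bits L).length) + (pI.eval (bits L).length + 3) *
          ((qF pF).eval (pI.eval (bits L).length + 6) + 1) := by
      simp [p, Polynomial.eval_comp]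
    have e3 : k0 L c + 1 + 2 ≤ pI.eval (bits L).length + 3 := by
      have h1 := k0_le L c
      have h2 := top_len_le L c
      omega
    have e4 : (qF pF).eval ((ust L c 0).length + 6) + 1 ≤
        (qF pF).eval (pI.eval (bits L).length + 6) + 1 :=
      Nat.add_le_add_right (eval_mono _ (by omega)) 1
    have e5 : tm (proc L c) pF (pG.eval (bits L).length + 3) 1 + (k0 L c + 1 + 2) *
        ((qF pF).eval ((ust L c 0).length + 6) + 1) ≤ p.eval (bits L).length := by
      rw [e1, e2]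
      have h1 := Nat.mul_le_mul e3 e4
      have h2 := eval_mono (qF pF) hlen
      omega
    exact_mod_cast e5
  refine ⟨?_, fun Υ hΥ => ?_, htime, fun hv => htime.trans ?_⟩
  · rw [← card_pos, h.card_trees]
    exact card_pos' h
  · rw [hT.probOut hS, uniform h c hΥ]
    have hpos : (0 : ℝ) < ((trees Δ d).card : ℝ) := by
      rw [h.card_trees]
      exact_mod_cast card_pos' h
    rw [ENNReal.ofReal_div_of_pos hpos, ENNReal.ofReal_one, ENNReal.ofReal_natCast]
  · have h1 := eval_mono p (input_le hL hv)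
    rw [Polynomial.eval_comp]
    have e : (Polynomial.X * (Polynomial.X * (4 * Polynomial.X + 2) + 2) + 1 :
        Polynomial ℕ).eval Δ.card = Δ.card * (Δ.card * (4 * Δ.card + 2) + 1 + 1) + 1 := by
      simp
    rw [e]
    exact_mod_cast h1

end Pool.Agent.P8H86.ST
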