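import Pool.Agent.P8H86.ST.Trickle

/-!
# Finite matroids: the number of bases above a set is a Lorentzian weight
-/

set_option autoImplicit false

namespace Pool.Agent.P8H86.ST

open Finset

/-- A matroid of rank `r` on a finite set, given by its independent sets. -/
structure FM (α : Type) [DecidableEq α] where
  /-- the independent sets -/
  Ind : Finset α → Prop
  /-- the rank -/
  r : ℕ
  empty : Ind ∅
  mono : ∀ {S T : Finset α}, S ⊆ T → Ind T → Ind S
  aug : ∀ {S T : Finset α}, Ind S → Ind T → S.card < T.card → ∃ x ∈ T, x ∉ S ∧ Ind (insert x S)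
  le : ∀ {S : Finset α}, Ind S → S.card ≤ r
  ex : ∃ B, Ind B ∧ B.card = r

variable {α : Type} [Fintype α] [DecidableEq α]

namespace FM

variable (M : FM α)

open scoped Classical in
/-- the bases -/
noncomputable def bases : Finset (Finset α) := univ.filter fun B => M.Ind B ∧ B.card = M.r

theorem mem_bases {B : Finset α} : B ∈ M.bases ↔ M.Ind B ∧ B.card = M.r := by
  simp [bases]

/-- the number of bases above a set -/
noncomputable def w (S : Finset α) : ℝ := ((M.bases.filter fun B => S ⊆ B).card : ℝ)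

theorem w_nonneg (S : Finset α) : 0 ≤ M.w S := Nat.cast_nonneg _

theorem exists_basis {S : Finset α} (hS : M.Ind S) : ∃ B ∈ M.bases, S ⊆ B := by
  obtain ⟨B0, hB0, hB0c⟩ := M.ex
  have key : ∀ (d : ℕ) (S : Finset α), M.Ind S → M.r - S.card = d → ∃ B ∈ M.bases, S ⊆ B := by
    intro d
    induction d with
    | zero =>
      intro S hS hd
      refine ⟨S, M.mem_bases.2 ⟨hS, ?_⟩, Subset.refl _⟩
      have := M.le hS
      omega
    | succ d ih =>
      intro S hS hd
      obtain ⟨x, -, hx, hind⟩ := M.aug hS hB0 (by omega)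
      obtain ⟨B, hB, hSB⟩ := ih (insert x S) hind (by rw [card_insert_of_notMem hx]; omega)
      exact ⟨B, hB, (subset_insert _ _).trans hSB⟩
  exact key _ S hS rfl

theorem w_pos {S : Finset α} : 0 < M.w S ↔ M.Ind S := by
  unfold w
  rw [Nat.cast_pos, card_pos]
  constructor
  · rintro ⟨B, hB⟩
    rw [mem_filter, mem_bases] at hB
    exact M.mono hB.2 hB.1.1
  · intro hS
    obtain ⟨B, hB, hSB⟩ := M.exists_basis hS
    exact ⟨B, mem_filter.2 ⟨hB, hSB⟩⟩

theorem w_zero {S : Finset α} (h : ¬ M.Ind S) : M.w S = 0 :=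
  le_antisymm (not_lt.1 fun h' => h (M.w_pos.1 h')) (M.w_nonneg S)

theorem w_basis {S : Finset α} (h : M.Ind S) (hc : S.card = M.r) : M.w S = 1 := by
  unfold w
  have : (M.bases.filter fun B => S ⊆ B) = {S} := by
    ext B
    rw [mem_filter, mem_bases, mem_singleton]
    constructor
    · rintro ⟨⟨h1, h2⟩, h3⟩
      exact (eq_of_subset_of_card_le h3 (by omega)).symm
    · rintro rfl
      exact ⟨⟨h, hc⟩, Subset.refl _⟩
  rw [this]
  simp

theorem w_eq_sum (S : Finset α) : M.w S = ∑ B ∈ M.bases, if S ⊆ B then (1 : ℝ) else 0 := by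
  unfold w
  rw [card_filter]
  push_cast
  rfl

theorem sum_insert_w (S : Finset α) :
    ∑ x ∈ univ \ S, M.w (insert x S) = ((M.r : ℝ) - S.card) * M.w S := by
  simp only [w_eq_sum]
  rw [sum_comm, mul_sum]
  refine sum_congr rfl fun B hB => ?_
  rw [mem_bases] at hB
  by_cases h : S ⊆ B
  · rw [if_pos h, mul_one]
    have h1 : ∀ x ∈ univ \ S, (if insert x S ⊆ B then (1 : ℝ) else 0) = if x ∈ B then 1 else 0 := by
      intro x _
      by_cases hx : x ∈ B
      · rw [if_pos hx, if_pos (insert_subset hx h)]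
      · rw [if_neg hx, if_neg fun h' => hx (h' (mem_insert_self _ _))]
    rw [sum_congr rfl h1, ← sum_filter, sum_const, nsmul_eq_mul, mul_one]
    have h2 : (univ \ S).filter (fun x => x ∈ B) = B \ S := by
      ext x; simp [and_comm]
    rw [h2, card_sdiff_of_subset h, ← hB.2, Nat.cast_sub (card_le_card h)]
  · rw [if_neg h, mul_zero]
    refine sum_eq_zero fun x _ => ?_
    rw [if_neg fun h' => h ((subset_insert _ _).trans h')]

/-- the weights of the elements over a set -/
noncomputable def a (T : Finset α) (x : α) : ℝ := if x ∈ T then 0 else M.w (insert x T)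

/-- the weights of the pairs over a set -/
noncomputable def b (T : Finset α) (x y : α) : ℝ :=
  if x ∈ T ∨ y ∈ T ∨ x = y then 0 else M.w (insert x (insert y T))

theorem a_nonneg (T : Finset α) (x : α) : 0 ≤ M.a T x := by
  unfold a; split_ifs
  · exact le_rfl
  · exact M.w_nonneg _

theorem b_nonneg (T : Finset α) (x y : α) : 0 ≤ M.b T x y := by
  unfold b; split_ifs
  · exact le_rfl
  · exact M.w_nonneg _

theorem b_symm (T : Finset α) (x y : α) : M.b T x y = M.b T y x := by
  unfold b
  by_cases h : x ∈ T ∨ y ∈ T ∨ x = y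
  · rw [if_pos h, if_pos]
    rcases h with h | h | h
    · exact Or.inr (Or.inl h)
    · exact Or.inl h
    · exact Or.inr (Or.inr h.symm)
  · rw [if_neg h, if_neg, Finset.insert_comm]
    rintro (h' | h' | h')
    · exact h (Or.inr (Or.inl h'))
    · exact h (Or.inl h')
    · exact h (Or.inr (Or.inr h'.symm))

theorem b_ne {T : Finset α} {x y : α} : M.b T x y ≠ 0 ↔
    x ∉ T ∧ y ∉ T ∧ x ≠ y ∧ M.Ind (insert x (insert y T)) := by
  unfold b
  by_cases h : x ∈ T ∨ y ∈ T ∨ x = y
  · rw [if_pos h]
    simp only [ne_eq, not_true_eq_false, false_iff]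
    tauto
  · rw [if_neg h, ← M.w_pos]
    push Not at h
    constructor
    · intro h'
      exact ⟨h.1, h.2.1, h.2.2, lt_of_le_of_ne (M.w_nonneg _) (Ne.symm h')⟩
    · rintro ⟨-, -, -, h'⟩
      exact h'.ne'

theorem sum_a (T : Finset α) : ∑ x, M.a T x = ((M.r : ℝ) - T.card) * M.w T := by
  rw [← sum_insert_w, ← sum_subset (subset_univ (univ \ T))]
  · refine sum_congr rfl fun x hx => ?_
    rw [mem_sdiff] at hx
    rw [a, if_neg hx.2]
  · intro x _ hx
    rw [mem_sdiff, not_and, not_not] at hx
    rw [a, if_pos (hx (mem_univ _))]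

theorem sum_b (T : Finset α) (x : α) : ∑ y, M.b T x y = ((M.r : ℝ) - T.card - 1) * M.a T x := by
  by_cases hx : x ∈ T
  · rw [a, if_pos hx, mul_zero]
    exact sum_eq_zero fun y _ => by rw [b, if_pos (Or.inl hx)]
  · rw [a, if_neg hx]
    have h1 := M.sum_insert_w (insert x T)
    rw [card_insert_of_notMem hx] at h1
    push_cast at h1
    rw [show ((M.r : ℝ) - T.card - 1) = (M.r : ℝ) - (T.card + 1) by ring, ← h1,
      ← sum_subset (subset_univ (univ \ insert x T))]
    · refine sum_congr rfl fun y hy => ?_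
      rw [mem_sdiff, mem_insert, not_or] at hy
      rw [b, if_neg, Finset.insert_comm]
      rintro (h | h | h)
      · exact hx h
      · exact hy.2.2 h
      · exact hy.2.1 h.symm
    · intro y _ hy
      rw [mem_sdiff, not_and, not_not, mem_insert] at hy
      rw [b, if_pos]
      rcases hy (mem_univ _) with h | h
      · exact Or.inr (Or.inr h.symm)
      · exact Or.inr (Or.inl h)

theorem sum_b_insert (T : Finset α) (x y : α) :
    ∑ z ∈ univ \ T, M.b (insert z T) x y = ((M.r : ℝ) - T.card - 2) * M.b T x y := by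
  by_cases h : x ∈ T ∨ y ∈ T ∨ x = y
  · rw [b, if_pos h, mul_zero]
    refine sum_eq_zero fun z _ => ?_
    rw [b, if_pos]
    rcases h with h | h | h
    · exact Or.inl (mem_insert_of_mem h)
    · exact Or.inr (Or.inl (mem_insert_of_mem h))
    · exact Or.inr (Or.inr h)
  · rw [b, if_neg h]
    push Not at h
    obtain ⟨hx, hy, hxy⟩ := h
    have hx' : x ∉ insert y T := by
      rw [mem_insert, not_or]; exact ⟨hxy, hx⟩
    have h1 := M.sum_insert_w (insert x (insert y T))
    rw [card_insert_of_notMem hx', card_insert_of_notMem hy] at h1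
    push_cast at h1
    rw [show ((M.r : ℝ) - T.card - 2) = (M.r : ℝ) - (T.card + 1 + 1) by ring, ← h1]
    have hsub : univ \ insert x (insert y T) ⊆ univ \ T :=
      sdiff_subset_sdiff (Subset.refl _) ((subset_insert _ _).trans (subset_insert _ _))
    rw [← sum_subset hsub]
    · refine sum_congr rfl fun z hz => ?_
      rw [mem_sdiff, mem_insert, mem_insert, not_or, not_or] at hz
      obtain ⟨-, hzx, hzy, hzT⟩ := hz
      rw [b, if_neg]
      · congr 1
        rw [Finset.insert_comm z x, Finset.insert_comm z y]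
      · rintro (h | h | h)
        · rcases mem_insert.1 h with h | h
          · exact hzx h.symm
          · exact hx h
        · rcases mem_insert.1 h with h | h
          · exact hzy h.symm
          · exact hy h
        · exact hxy h
    · intro z hz hz'
      rw [mem_sdiff] at hz hz'
      rw [not_and, not_not, mem_insert, mem_insert] at hz'
      rw [b, if_pos]
      rcases hz' (mem_univ _) with h | h | h
      · exact Or.inl (by rw [h]; exact mem_insert_self _ _)
      · exact Or.inr (Or.inl (by rw [h]; exact mem_insert_self _ _))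
      · exact absurd h hz.2

theorem b_eq_a {T : Finset α} {x z : α} (hz : z ∉ T) : M.b T x z = M.a (insert z T) x := by
  unfold b a
  by_cases h : x ∈ insert z T
  · rw [if_pos h, if_pos]
    rcases mem_insert.1 h with h | h
    · exact Or.inr (Or.inr h)
    · exact Or.inl h
  · rw [if_neg h, if_neg]
    rintro (h' | h' | h')
    · exact h (mem_insert_of_mem h')
    · exact hz h'
    · exact h (by rw [h']; exact mem_insert_self _ _)

/-- The quadratic form. -/
noncomputable def Q (T : Finset α) (h : α → ℝ) : ℝ := ∑ x, ∑ y, M.b T x y * h x * h y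

/-- The main property, for the sets of rank at most `r - 2`. -/
def Loc (T : Finset α) : Prop :=
  ∀ h : α → ℝ, ((M.r : ℝ) - T.card) * M.w T * M.Q T h ≤
    ((M.r : ℝ) - T.card - 1) * (∑ x, M.a T x * h x) ^ 2

/-- It is enough to check the form on a hyperplane. -/
theorem loc_of {T : Finset α} (hT : M.Ind T) (hc : T.card + 2 ≤ M.r) (t : α → ℝ)
    (ht : ∑ x, t x ≠ 0) (hneg : ∀ v : α → ℝ, ∑ x, t x * v x = 0 → M.Q T v ≤ 0) : M.Loc T := by
  intro h
  set c : ℝ := (∑ x, t x * h x) / ∑ x, t x with hcdef
  set v : α → ℝ := fun x => h x - c with hv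
  have h1 : ∑ x, t x * v x = 0 := by
    simp only [hv, mul_sub, sum_sub_distrib]
    rw [← sum_mul, hcdef, mul_div_cancel₀ _ ht, sub_self]
  have h2 := hneg v h1
  have hr : ((T.card : ℝ) + 2) ≤ M.r := by exact_mod_cast hc
  have hw := M.w_pos.2 hT
  set k : ℝ := (M.r : ℝ) - T.card - 1 with hk
  have hk1 : 1 ≤ k := by rw [hk]; linarith
  set F : ℝ := ∑ x, M.a T x * h x with hF
  set n1 : ℝ := ∑ x, M.a T x with hn1
  have hn1' : n1 = (k + 1) * M.w T := by rw [hn1, sum_a, hk]; ring
  have e1 : ∑ x, ∑ y, M.b T x y * h x = k * F := by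
    rw [hF, mul_sum]
    refine sum_congr rfl fun x _ => ?_
    rw [← sum_mul, sum_b]; ring
  have e2 : ∑ x, ∑ y, M.b T x y * h y = k * F := by
    rw [sum_comm, ← e1]
    exact sum_congr rfl fun x _ => sum_congr rfl fun y _ => by rw [b_symm]
  have e3 : ∑ x, ∑ y, M.b T x y = k * n1 := by
    rw [hn1, mul_sum]
    exact sum_congr rfl fun x _ => by rw [sum_b]
  have e4 : M.Q T v = M.Q T h - 2 * c * (k * F) + c ^ 2 * (k * n1) := by
    have : M.Q T v = ∑ x, ∑ y, (M.b T x y * h x * h y - c * (M.b T x y * h x) -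
        c * (M.b T x y * h y) + c ^ 2 * M.b T x y) := by
      unfold Q
      refine sum_congr rfl fun x _ => sum_congr rfl fun y _ => ?_
      simp only [hv]
      ring
    rw [this]
    simp only [sum_add_distrib, sum_sub_distrib, ← mul_sum]
    rw [e1, e2, e3]
    unfold Q
    ring
  have hn1pos : 0 < n1 := by rw [hn1']; positivity
  have e5 : n1 * M.Q T h ≤ k * F ^ 2 := by
    have : M.Q T h ≤ 2 * c * (k * F) - c ^ 2 * (k * n1) := by linarith
    have h3 : n1 * M.Q T h ≤ n1 * (2 * c * (k * F) - c ^ 2 * (k * n1)) :=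
      mul_le_mul_of_nonneg_left this hn1pos.le
    have h4 : n1 * (2 * c * (k * F) - c ^ 2 * (k * n1)) = k * (F ^ 2 - (F - c * n1) ^ 2) := by ring
    have h5 : 0 ≤ k * (F - c * n1) ^ 2 := by positivity
    linarith
  have e6 : ((M.r : ℝ) - T.card) * M.w T = n1 := by rw [hn1', hk]; ring
  rw [e6]
  exact e5

/-! ### Rank two -/

theorem sum_class {β γ : Type} [Fintype β] [Fintype γ] [DecidableEq γ] (X : Finset β)
    (κ : β → γ) (v : β → ℝ) :
    ∑ x ∈ X, ∑ y ∈ X, (if κ x = κ y then v x * v y else 0) =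
      ∑ q : γ, (∑ x ∈ X, if κ x = q then v x else 0) ^ 2 := by
  have h1 : ∀ q : γ, (∑ x ∈ X, if κ x = q then v x else 0) ^ 2 =
      ∑ x ∈ X, ∑ y ∈ X, if κ x = q then (if κ y = q then v x * v y else 0) else 0 := by
    intro q
    rw [sq, sum_mul_sum]
    refine sum_congr rfl fun x _ => sum_congr rfl fun y _ => ?_
    by_cases hx : κ x = q <;> by_cases hy : κ y = q <;> simp [hx, hy]
  simp only [h1]
  symm
  rw [sum_comm]
  refine sum_congr rfl fun x _ => ?_
  rw [sum_comm]
  refine sum_congr rfl fun y _ => ?_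
  rw [sum_ite_eq]
  simp only [mem_univ, if_true]
  by_cases h : κ x = κ y
  · rw [if_pos h, if_pos h.symm]
  · rw [if_neg h, if_neg fun h' => h h'.symm]

theorem loc_base {T : Finset α} (hT : M.Ind T) (hc : T.card + 2 = M.r) : M.Loc T := by
  classical
  let X : Finset α := univ.filter fun x => x ∉ T ∧ M.Ind (insert x T)
  have hX : ∀ x, x ∈ X ↔ x ∉ T ∧ M.Ind (insert x T) := fun x => by simp [X]
  obtain ⟨B, hB, hTB⟩ := M.exists_basis hT
  rw [mem_bases] at hB
  have hne : X.Nonempty := by
    obtain ⟨x, hx, hxT⟩ := exists_of_ssubset (Finset.ssubset_iff_subset_ne.2 ⟨hTB, fun h => by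
      rw [h] at hc; omega⟩)
    exact ⟨x, (hX x).2 ⟨hxT, M.mono (insert_subset hx hTB) hB.1⟩⟩
  refine M.loc_of hT hc.le (fun x => if x ∈ X then 1 else 0) ?_ ?_
  · rw [← sum_filter, sum_const, nsmul_eq_mul, mul_one]
    have : (univ.filter fun x => x ∈ X) = X := by ext; simp
    rw [this]
    exact_mod_cast (card_pos.2 hne).ne'
  intro v hv
  have hv' : ∑ x ∈ X, v x = 0 := by
    rw [← hv, ← sum_subset (subset_univ X)]
    · exact sum_congr rfl fun x hx => by rw [if_pos hx, one_mul]
    · intro x _ hx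
      rw [if_neg hx, zero_mul]
  -- the parallel classes
  let R : α → α → Prop := fun x y => x = y ∨ ¬ M.Ind (insert x (insert y T))
  have hRsymm : ∀ x y, R x y → R y x := by
    rintro x y (h | h)
    · exact Or.inl h.symm
    · exact Or.inr (by rwa [Finset.insert_comm])
  have hRtrans : ∀ x y z, x ∈ X → y ∈ X → z ∈ X → R x y → R y z → R x z := by
    intro x y z hx hy hz h1 h2
    by_contra h3
    simp only [R, not_or, not_not] at h3
    rcases h1 with rfl | h1
    · exact h3.1 (h2.resolve_right fun h => h h3.2)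
    rcases h2 with rfl | h2
    · exact h1 h3.2
    have hy' := (hX y).1 hy
    have hx' := (hX x).1 hx
    have hz' := (hX z).1 hz
    have hc1 : (insert y T).card < (insert x (insert z T)).card := by
      rw [card_insert_of_notMem hy'.1, card_insert_of_notMem, card_insert_of_notMem hz'.1]
      · omega
      · rw [mem_insert, not_or]; exact ⟨h3.1, hx'.1⟩
    obtain ⟨u, hu, hu', hui⟩ := M.aug hy'.2 h3.2 hc1
    rw [mem_insert, mem_insert] at hu
    rw [mem_insert, not_or] at hu'
    rcases hu with rfl | rfl | hu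
    · exact h1 hui
    · exact h2 (by rwa [Finset.insert_comm])
    · exact hu'.2 hu
  let κ : α → Finset α := fun x => X.filter fun y => R x y
  have hκ : ∀ x ∈ X, ∀ y ∈ X, (κ x = κ y ↔ R x y) := by
    intro x hx y hy
    constructor
    · intro h
      have : y ∈ κ y := mem_filter.2 ⟨hy, Or.inl rfl⟩
      rw [← h, mem_filter] at this
      exact this.2
    · intro h
      ext z
      simp only [κ, mem_filter]
      constructor
      · rintro ⟨hz, h'⟩
        exact ⟨hz, hRtrans y x z hy hx hz (hRsymm _ _ h) h'⟩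
      · rintro ⟨hz, h'⟩
        exact ⟨hz, hRtrans x y z hx hy hz h h'⟩
  have hb : ∀ x y, M.b T x y = if x ∈ X ∧ y ∈ X ∧ κ x ≠ κ y then 1 else 0 := by
    intro x y
    by_cases h : M.b T x y = 0
    · rw [h, if_neg]
      rintro ⟨hx, hy, hxy⟩
      rw [ne_eq, hκ x hx y hy] at hxy
      simp only [R, not_or, not_not] at hxy
      exact M.b_ne.2 ⟨((hX x).1 hx).1, ((hX y).1 hy).1, hxy.1, hxy.2⟩ h
    · have h' := M.b_ne.1 h
      obtain ⟨hx, hy, hxy, hi⟩ := h'
      have hx' : x ∈ X := (hX x).2 ⟨hx, M.mono (insert_subset_insert _ (subset_insert _ _)) hi⟩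
      have hy' : y ∈ X := (hX y).2 ⟨hy, M.mono (subset_insert _ _) hi⟩
      rw [if_pos]
      · rw [b, if_neg (by push Not; exact ⟨hx, hy, hxy⟩)]
        refine M.w_basis hi ?_
        rw [card_insert_of_notMem, card_insert_of_notMem hy]
        · omega
        · rw [mem_insert, not_or]; exact ⟨hxy, hx⟩
      · refine ⟨hx', hy', ?_⟩
        rw [ne_eq, hκ x hx' y hy']
        simp only [R, not_or, not_not]
        exact ⟨hxy, hi⟩
  have e1 : M.Q T v = ∑ x ∈ X, ∑ y ∈ X, (v x * v y - if κ x = κ y then v x * v y else 0) := by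
    unfold Q
    rw [← sum_subset (subset_univ X)]
    · refine sum_congr rfl fun x hx => ?_
      rw [← sum_subset (subset_univ X)]
      · refine sum_congr rfl fun y hy => ?_
        rw [hb]
        by_cases h : κ x = κ y
        · rw [if_neg (fun h' => h'.2.2 h), if_pos h]; ring
        · rw [if_pos ⟨hx, hy, h⟩, if_neg h]; ring
      · intro y _ hy
        rw [hb, if_neg (fun h' => hy h'.2.1)]; ring
    · intro x _ hx
      refine sum_eq_zero fun y _ => ?_
      rw [hb, if_neg (fun h' => hx h'.1)]; ring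
  rw [e1]
  simp only [sum_sub_distrib]
  rw [← sum_mul_sum, hv', sum_class]
  have : 0 ≤ ∑ q : Finset α, (∑ x ∈ X, if κ x = q then v x else 0) ^ 2 :=
    sum_nonneg fun q _ => sq_nonneg _
  linarith

/-! ### The step -/

theorem loc_step {T : Finset α} (hT : M.Ind T) (hc : T.card + 3 ≤ M.r)
    (ih : ∀ z, z ∉ T → M.Ind (insert z T) → M.Loc (insert z T)) : M.Loc T := by
  classical
  have hr : ((T.card : ℝ) + 3) ≤ M.r := by exact_mod_cast hc
  have hw := M.w_pos.2 hT
  refine M.loc_of hT (by omega) (M.a T) ?_ ?_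
  · rw [sum_a]
    have : (0 : ℝ) < (M.r : ℝ) - T.card := by linarith
    positivity
  intro v hv
  let X : Type := {x : α // x ∉ T ∧ M.Ind (insert x T)}
  let P : Finset α := univ.filter fun x => x ∉ T ∧ M.Ind (insert x T)
  have hP : ∀ x, x ∈ P ↔ x ∉ T ∧ M.Ind (insert x T) := fun x => by simp [P]
  have hsum : ∀ f : α → ℝ, (∀ x, x ∉ P → f x = 0) → ∑ x : X, f x.1 = ∑ x, f x := by
    intro f hf
    rw [← sum_subset (subset_univ P) (fun x _ hx => hf x hx)]
    exact (Finset.sum_subtype P hP f).symm
  have hbP : ∀ x y, x ∉ P → M.b T x y = 0 := by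
    intro x y hx
    by_contra h
    obtain ⟨h1, h2, h3, h4⟩ := M.b_ne.1 h
    exact hx ((hP x).2 ⟨h1, M.mono (insert_subset_insert _ (subset_insert _ _)) h4⟩)
  have hbP' : ∀ x y, y ∉ P → M.b T x y = 0 := fun x y hy => by rw [b_symm, hbP y x hy]
  have haP : ∀ x, x ∉ P → M.a T x = 0 := by
    intro x hx
    unfold a
    split_ifs with h
    · rfl
    · exact M.w_zero fun h' => hx ((hP x).2 ⟨h, h'⟩)
  set k : ℝ := (M.r : ℝ) - T.card - 1 with hk
  have hk2 : 2 ≤ k := by rw [hk]; linarith
  have hpos : ∀ x : X, 0 < k * M.a T x.1 := by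
    intro x
    have h1 : M.a T x.1 = M.w (insert x.1 T) := by rw [a, if_neg x.2.1]
    rw [h1]
    have := M.w_pos.2 x.2.2
    positivity
  have hfin := trickle (X := X) (fun x y => M.b T x.1 y.1) (fun x y => M.b_symm T x.1 y.1)
    (fun x y => M.b_nonneg T x.1 y.1) (fun x => k * M.a T x.1) ?_ hpos ?_ ?_ (fun x => v x.1) ?_
  · have : M.Q T v = ∑ x : X, ∑ y : X, M.b T x.1 y.1 * v x.1 * v y.1 := by
      unfold Q
      rw [← hsum (fun x => ∑ y, M.b T x y * v x * v y)]
      · refine sum_congr rfl fun x _ => ?_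
        rw [← hsum (fun y => M.b T x.1 y * v x.1 * v y)]
        intro y hy
        rw [hbP' _ _ hy]; ring
      · intro x hx
        refine sum_eq_zero fun y _ => ?_
        rw [hbP _ _ hx]; ring
    rw [this]
    exact hfin
  · intro x
    rw [hsum (fun y => M.b T x.1 y) (fun y hy => hbP' _ _ hy), sum_b]
  · -- the local inequality
    intro h
    let H : α → ℝ := fun x => if hx : x ∉ T ∧ M.Ind (insert x T) then h ⟨x, hx⟩ else 0
    have hH : ∀ x : X, h x = H x.1 := by
      intro x
      simp only [H]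
      rw [dif_pos x.2]
    have e1 : ∑ x : X, ∑ y : X, M.b T x.1 y.1 * h x * h y = M.Q T H := by
      unfold Q
      rw [← hsum (fun x => ∑ y, M.b T x y * H x * H y)]
      · refine sum_congr rfl fun x _ => ?_
        rw [← hsum (fun y => M.b T x.1 y * H x.1 * H y)]
        · exact sum_congr rfl fun y _ => by rw [hH, hH]
        · intro y hy
          rw [hbP' _ _ hy]; ring
      · intro x hx
        refine sum_eq_zero fun y _ => ?_
        rw [hbP _ _ hx]; ring
    have e2 : ∑ x : X, (∑ y : X, M.b T x.1 y.1 * h y) ^ 2 / (k * M.a T x.1) =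
        ∑ z ∈ univ \ T, (∑ x, M.a (insert z T) x * H x) ^ 2 / (k * M.w (insert z T)) := by
      rw [← sum_subset (s₁ := P) (s₂ := univ \ T)]
      · rw [Finset.sum_subtype P hP]
        refine sum_congr rfl fun z _ => ?_
        have hz : z.1 ∉ T := z.2.1
        have h1 : M.a T z.1 = M.w (insert z.1 T) := by rw [a, if_neg hz]
        rw [h1]
        congr 2
        rw [← hsum (fun x => M.a (insert z.1 T) x * H x)]
        · refine sum_congr rfl fun y _ => ?_
          rw [hH, b_symm, b_eq_a M hz]
        · intro y hy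
          rw [← b_eq_a M hz, hbP _ _ hy, zero_mul]
      · intro x hx
        rw [mem_sdiff]
        exact ⟨mem_univ _, ((hP x).1 hx).1⟩
      · intro z hz hz'
        rw [mem_sdiff] at hz
        have : ¬ M.Ind (insert z T) := fun h => hz' ((hP z).2 ⟨hz.2, h⟩)
        rw [M.w_zero this]
        simp
    rw [e1, e2]
    have e3 : (k - 1) * M.Q T H = ∑ z ∈ univ \ T, M.Q (insert z T) H := by
      have e0 : ∑ z ∈ univ \ T, M.Q (insert z T) H =
          ∑ x, ∑ y, (∑ z ∈ univ \ T, M.b (insert z T) x y) * H x * H y := by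
        unfold Q
        rw [sum_comm]
        refine sum_congr rfl fun x _ => ?_
        rw [sum_comm]
        refine sum_congr rfl fun y _ => ?_
        rw [sum_mul, sum_mul]
      rw [e0]
      unfold Q
      rw [mul_sum]
      refine sum_congr rfl fun x _ => ?_
      rw [mul_sum]
      refine sum_congr rfl fun y _ => ?_
      rw [sum_b_insert, hk]
      ring
    have e4 : ∀ z ∈ univ \ T, M.Q (insert z T) H ≤
        (k - 1) * ((∑ x, M.a (insert z T) x * H x) ^ 2 / (k * M.w (insert z T))) := by
      intro z hz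
      rw [mem_sdiff] at hz
      by_cases hi : M.Ind (insert z T)
      · have h1 := ih z hz.2 hi H
        rw [card_insert_of_notMem hz.2] at h1
        push_cast at h1
        have h2 : (M.r : ℝ) - (T.card + 1) = k := by rw [hk]; ring
        rw [h2] at h1
        have hwz := M.w_pos.2 hi
        rw [← mul_div_assoc, le_div_iff₀ (by positivity), mul_comm]
        exact h1
      · have hw0 := M.w_zero hi
        have : M.Q (insert z T) H = 0 := by
          unfold Q
          refine sum_eq_zero fun x _ => sum_eq_zero fun y _ => ?_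
          have : M.b (insert z T) x y = 0 := by
            by_contra h
            obtain ⟨h1, h2, h3, h4⟩ := M.b_ne.1 h
            exact hi (M.mono ((subset_insert _ _).trans (subset_insert _ _)) h4)
          rw [this]; ring
        rw [this, hw0]
        simp
    have e5 := sum_le_sum e4
    rw [← e3, ← mul_sum] at e5
    exact le_of_mul_le_mul_left e5 (by linarith)
  · -- connectivity
    intro h hh x y
    by_cases hxy : x = y
    · rw [hxy]
    have hxy' : x.1 ≠ y.1 := fun e => hxy (Subtype.ext e)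
    by_cases hi : M.Ind (insert x.1 (insert y.1 T))
    · exact hh x y (M.b_ne.2 ⟨x.2.1, y.2.1, hxy', hi⟩)
    obtain ⟨B, hB, hTB⟩ := M.exists_basis x.2.2
    rw [mem_bases] at hB
    have hcx : (insert x.1 T).card = T.card + 1 := card_insert_of_notMem x.2.1
    obtain ⟨z, hz, hzT⟩ := exists_of_ssubset (Finset.ssubset_iff_subset_ne.2 ⟨hTB, fun h => by
      rw [h] at hcx; omega⟩)
    have hxz : M.Ind (insert z (insert x.1 T)) := M.mono (insert_subset hz hTB) hB.1
    have hcy : (insert y.1 T).card = T.card + 1 := card_insert_of_notMem y.2.1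
    obtain ⟨u, hu, hu', hui⟩ := M.aug y.2.2 hxz (by
      rw [card_insert_of_notMem hzT, hcx, hcy]; omega)
    rw [mem_insert, mem_insert] at hu
    rw [mem_insert, not_or] at hu' hzT
    have hzX : z ∉ T ∧ M.Ind (insert z T) :=
      ⟨hzT.2, M.mono (insert_subset_insert _ (subset_insert _ _)) hxz⟩
    have huz : u = z := by
      rcases hu with rfl | rfl | hu
      · rfl
      · exact absurd hui hi
      · exact absurd hu hu'.2
    subst huz
    have h1 := hh x ⟨u, hzX⟩ (M.b_ne.2 ⟨x.2.1, hzX.1, fun e => hzT.1 e.symm, by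
      rwa [Finset.insert_comm]⟩)
    have h2 := hh ⟨u, hzX⟩ y (M.b_ne.2 ⟨hzX.1, y.2.1, hu'.1, hui⟩)
    rw [h1, h2]
  · have : ∑ x : X, k * M.a T x.1 * v x.1 = ∑ x, k * (M.a T x * v x) := by
      rw [← hsum (fun x => k * (M.a T x * v x))]
      · exact sum_congr rfl fun x _ => by ring
      · intro x hx
        rw [haP x hx]; ring
    rw [this, ← mul_sum, hv, mul_zero]

theorem loc_all {T : Finset α} (hT : M.Ind T) (hc : T.card + 2 ≤ M.r) : M.Loc T := by
  have key : ∀ (d : ℕ) (T : Finset α), M.Ind T → T.card + 2 + d = M.r → M.Loc T := by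
    intro d
    induction d with
    | zero => exact fun T hT h => M.loc_base hT (by omega)
    | succ d ih =>
      intro T hT h
      refine M.loc_step hT (by omega) fun z hz hi => ih _ hi ?_
      rw [card_insert_of_notMem hz]
      omega
  exact key (M.r - (T.card + 2)) T hT (by omega)

end FM

end Pool.Agent.P8H86.ST
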