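import Pool.Agent.H671R2.PolyAuto
import Pool.Agent.H687R2.IntPoly
import Pool.Agent.P8H86.ST.Algo

/-!
# The algorithm works in polynomial time
-/

set_option autoImplicit false

namespace Pool.Agent.P8H86.ST

open Pool.Agent.NPC

theorem take_eq {β : Type} (l : List β) (n : ℕ) :
    (l.zipIdx.filter (fun p => decide (p.2 < n))).map Prod.fst = l.take n := by
  have key : ∀ (l : List β) (n s : ℕ),
      ((l.zipIdx s).filter (fun p => decide (p.2 < s + n))).map Prod.fst = l.take n := by
    intro l
    induction l with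
    | nil => intro n s; simp
    | cons a l ih =>
      intro n s
      cases n with
      | zero =>
        rw [List.take_zero, List.filter_eq_nil_iff.2, List.map_nil]
        intro p hp
        have := List.le_snd_of_mem_zipIdx hp
        simp only [decide_eq_true_eq]
        omega
      | succ n =>
        rw [List.zipIdx_cons, List.filter_cons_of_pos (by simp), List.map_cons, List.take_succ_cons]
        have := ih n (s + 1)
        rw [show s + 1 + n = s + (n + 1) by ring] at this
        rw [this]
  simpa using key l n 0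

theorem drop_eq {β : Type} (l : List β) (n : ℕ) :
    (l.zipIdx.filter (fun p => decide (n ≤ p.2))).map Prod.fst = l.drop n := by
  have key : ∀ (l : List β) (n s : ℕ),
      ((l.zipIdx s).filter (fun p => decide (s + n ≤ p.2))).map Prod.fst = l.drop n := by
    intro l
    induction l with
    | nil => intro n s; simp
    | cons a l ih =>
      intro n s
      cases n with
      | zero =>
        rw [List.drop_zero, List.filter_eq_self.2]
        · exact List.zipIdx_map_fst s (a :: l)
        · intro p hp
          have := List.le_snd_of_mem_zipIdx hp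
          simp only [decide_eq_true_eq]
          omega
      | succ n =>
        rw [List.zipIdx_cons, List.filter_cons_of_neg (by simp), List.drop_succ_cons]
        have := ih n (s + 1)
        rw [show s + 1 + n = s + (n + 1) by ring] at this
        rw [this]
  simpa using key l n 0

variable {α β : Type} [TEnc α] [TEnc β]

@[fun_prop]
theorem poly_take {l : α → List β} {n : α → ℕ} (hl : Poly l) (hn : Poly n) :
    Poly (fun a => (l a).take (n a)) := by
  have h : Poly (fun a => ((l a).zipIdx.filter (fun p => decide (p.2 < n a))).map Prod.fst) := by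
    fun_prop
  exact h.congr fun a => take_eq _ _

@[fun_prop]
theorem poly_drop {l : α → List β} {n : α → ℕ} (hl : Poly l) (hn : Poly n) :
    Poly (fun a => (l a).drop (n a)) := by
  have h : Poly (fun a => ((l a).zipIdx.filter (fun p => decide (n a ≤ p.2))).map Prod.fst) := by
    fun_prop
  exact h.congr fun a => drop_eq _ _

attribute [fun_prop] Poly.valBits Poly.natBits

theorem sz_sublist_le {l l' : List β} (h : l.Sublist l') : sz l ≤ sz l' := by
  induction h with
  | slnil => exact le_rfl
  | cons a _ ih => rw [sz_list_cons]; omega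
  | cons_cons a _ ih => rw [sz_list_cons, sz_list_cons]; omega

theorem sz_filter_le (l : List β) (p : β → Bool) : sz (l.filter p) ≤ sz l :=
  sz_sublist_le List.filter_sublist

variable {γ : Type} [TEnc γ] [DecidableEq γ]

@[fun_prop]
theorem poly_swp {T B : α → List γ} {f g : α → γ} (hT : Poly T) (hB : Poly B) (hf : Poly f)
    (hg : Poly g) : Poly (fun a => swp (T a) (B a) (f a) (g a)) := by
  unfold swp
  fun_prop

theorem poly_exch {T B : α → List γ} {I : α → List γ → Bool} {i j : α → ℕ} (hT : Poly T)
    (hI : Poly (fun p : α × List γ => I p.1 p.2)) (hB : Poly B) (hi : Poly i) (hj : Poly j) :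
    Poly (fun a => exch (T a) (I a) (B a) (i a) (j a)) := by
  unfold exch
  have h1 : Poly (fun p : (α × γ) × γ => I p.1.1 (swp (T p.1.1) (B p.1.1) p.1.2 p.2)) :=
    hI.comp (f := fun p : (α × γ) × γ => (p.1.1, swp (T p.1.1) (B p.1.1) p.1.2 p.2)) (by fun_prop)
  fun_prop

omit [DecidableEq γ] in
@[fun_prop]
theorem poly_wid {T : α → List γ} (hT : Poly T) : Poly (fun a => wid (T a)) := by
  unfold wid
  fun_prop

omit [DecidableEq γ] in
theorem upoly_wid {T : α → List γ} (hT : Poly T) : UPoly (fun a => wid (T a)) := by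
  unfold wid
  exact UPoly.length (Poly.natBits (by fun_prop))

theorem poly_stp {T B : α → List γ} {I : α → List γ → Bool} {c : α → List Bool} (hT : Poly T)
    (hI : Poly (fun p : α × List γ => I p.1 p.2)) (hB : Poly B) (hc : Poly c) :
    Poly (fun a => stp (T a) (I a) (B a) (c a)) := by
  unfold stp
  exact poly_exch hT hI hB (by fun_prop) (by fun_prop)

omit [TEnc γ] in
theorem exch_cases (T : List γ) (I : List γ → Bool) (B : List γ) (i j : ℕ) :
    exch T I B i j = B ∨ (exch T I B i j).Sublist T := by
  unfold exch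
  cases T[i]? with
  | none => exact Or.inl rfl
  | some f =>
    cases T[j]? with
    | none => exact Or.inl rfl
    | some g =>
      simp only [Option.elim_some]
      cases decide (f ∈ B) && !decide (g ∈ B) && I (swp T B f g) with
      | false => exact Or.inl rfl
      | true => exact Or.inr List.filter_sublist

theorem sz_stp (T : List γ) (I : List γ → Bool) (B : List γ) (c : List Bool) :
    sz (stp T I B c) ≤ max (sz B) (sz T) := by
  rcases exch_cases T I B (valB (c.take (wid T))) (valB (c.drop (wid T))) with h | h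
  · unfold stp
    rw [h]
    exact le_max_left _ _
  · exact (sz_sublist_le h).trans (le_max_right _ _)

theorem poly_walk {T B0 : α → List γ} {I : α → List γ → Bool} {t : α → ℕ} {r : α → List Bool}
    (hT : Poly T) (hI : Poly (fun p : α × List γ => I p.1 p.2)) (hB : Poly B0) (ht : UPoly t)
    (hr : Poly r) : Poly (fun a => walk (T a) (I a) (B0 a) (t a) (r a)) := by
  have h0 : Poly (fun a => List.range (t a)) := ht.range
  have h1 : Poly (fun a => (List.range (t a)).map fun k =>
      ((r a).drop (k * (2 * wid (T a)))).take (2 * wid (T a))) := by fun_prop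
  have h2 : Poly (fun p : α × List Bool × List γ => stp (T p.1) (I p.1) p.2.2 p.2.1) :=
    poly_stp (T := fun p : α × List Bool × List γ => T p.1) (I := fun p => I p.1)
      (B := fun p => p.2.2) (c := fun p => p.2.1) (by fun_prop)
      (hI.comp (f := fun q : (α × List Bool × List γ) × List γ => (q.1.1, q.2)) (by fun_prop))
      (by fun_prop) (by fun_prop)
  obtain ⟨q1, hq1⟩ := hT.sz_le
  obtain ⟨q2, hq2⟩ := hB.sz_le
  refine (Poly.foldr (F := fun a c B => stp (T a) (I a) B c) h1 hB h2 (q1 + q2) ?_).congr
    fun a => (walk_eq _ _ _ _ _).symm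
  intro a k _
  have key : ∀ l : List (List Bool), sz (l.foldr (fun c B => stp (T a) (I a) B c) (B0 a)) ≤
      max (sz (B0 a)) (sz (T a)) := by
    intro l
    induction l with
    | nil => exact le_max_left _ _
    | cons c l ih =>
      rw [List.foldr_cons]
      exact (sz_stp _ _ _ _).trans (max_le ih (le_max_right _ _))
  refine (key _).trans ?_
  rw [Polynomial.eval_add]
  have e1 := hq1 a
  have e2 := hq2 a
  exact max_le (by omega) (by omega)

omit [TEnc γ] [DecidableEq γ] in
theorem greedy_sublist (I : List γ → Bool) (T : List γ) : (greedy I T).Sublist T := by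
  induction T with
  | nil => exact List.Sublist.refl _
  | cons f T ih =>
    change (bif I (f :: greedy I T) then f :: greedy I T else greedy I T).Sublist (f :: T)
    cases I (f :: greedy I T) with
    | false => exact ih.cons f
    | true => exact ih.cons_cons f

omit [DecidableEq γ] in
theorem poly_greedy {T : α → List γ} {I : α → List γ → Bool} (hT : Poly T)
    (hI : Poly (fun p : α × List γ => I p.1 p.2)) : Poly (fun a => greedy (I a) (T a)) := by
  obtain ⟨q1, hq1⟩ := hT.sz_le
  have h1 : Poly (fun p : α × γ × List γ => I p.1 (p.2.1 :: p.2.2)) :=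
    hI.comp (f := fun p : α × γ × List γ => (p.1, p.2.1 :: p.2.2)) (by fun_prop)
  refine Poly.foldr (F := fun a f acc => bif I a (f :: acc) then f :: acc else acc) hT
    (NPC.Poly.const []) (by fun_prop) q1 ?_
  intro a k _
  exact (sz_sublist_le ((greedy_sublist (I a) ((T a).drop k)).trans
    (List.drop_sublist k (T a)))).trans (hq1 a)

omit [TEnc γ] [DecidableEq γ] in
theorem subs_len (N : ℕ) (T : List γ) : (subs N T).length ≤ N + 1 := by
  induction T with
  | nil => simp [subs]
  | cons f T ih =>
    have h2 : subs N (f :: T) = bif decide (2 * (subs N T).length ≤ N) then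
      subs N T ++ (subs N T).map (fun B => f :: B) else [] := rfl
    rw [h2]
    by_cases h : 2 * (subs N T).length ≤ N
    · rw [decide_eq_true h, cond_true, List.length_append, List.length_map]
      omega
    · rw [decide_eq_false h]
      simp

omit [TEnc γ] [DecidableEq γ] in
theorem subs_mem (N : ℕ) (T : List γ) : ∀ B ∈ subs N T, B.Sublist T := by
  induction T with
  | nil => simp [subs]
  | cons f T ih =>
    have h2 : subs N (f :: T) = bif decide (2 * (subs N T).length ≤ N) then
      subs N T ++ (subs N T).map (fun B => f :: B) else [] := rfl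
    rw [h2]
    by_cases h : 2 * (subs N T).length ≤ N
    · rw [decide_eq_true h, cond_true]
      intro B hB
      rcases List.mem_append.1 hB with h3 | h3
      · exact (ih B h3).cons f
      · obtain ⟨B', hB', rfl⟩ := List.mem_map.1 h3
        exact (ih B' hB').cons_cons f
    · rw [decide_eq_false h]
      simp

omit [DecidableEq γ] in
theorem poly_subs {T : α → List γ} {N : α → ℕ} (hT : Poly T) (hN : UPoly N) :
    Poly (fun a => subs (N a) (T a)) := by
  have hN' : Poly N := hN.toPoly
  obtain ⟨q1, hq1⟩ := hT.sz_le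
  obtain ⟨q2, hq2⟩ := Poly.sz_le hN
  refine Poly.foldr (F := fun a f acc => bif decide (2 * acc.length ≤ N a) then
    acc ++ acc.map (fun B => f :: B) else []) hT (NPC.Poly.const [[]]) (by fun_prop)
    ((q2 + 1) * (q1 + 1) + 1) ?_
  intro a k _
  have h1 := sz_le_length_mul (subs (N a) ((T a).drop k)) (sz (T a)) fun B hB =>
    sz_sublist_le ((subs_mem _ _ B hB).trans (List.drop_sublist k (T a)))
  have h2 := subs_len (N a) ((T a).drop k)
  have h3 := hq1 a
  have h4 := hq2 a
  have h5 := length_lt_sz (List.replicate (N a) ())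
  rw [List.length_replicate] at h5
  have h6 : (q2 + 1 : Polynomial ℕ).eval (sz a) = q2.eval (sz a) + 1 := by simp
  have h7 : (q1 + 1 : Polynomial ℕ).eval (sz a) = q1.eval (sz a) + 1 := by simp
  have h8 : ((q2 + 1) * (q1 + 1) + 1 : Polynomial ℕ).eval (sz a) =
      (q2.eval (sz a) + 1) * (q1.eval (sz a) + 1) + 1 := by simp
  rw [h8]
  refine h1.trans (Nat.add_le_add_right (Nat.mul_le_mul ?_ ?_) 1)
  · omega
  · omega

@[fun_prop]
theorem poly_adj {B B' : α → List γ} (hB : Poly B) (hB' : Poly B') :
    Poly (fun a => adj (B a) (B' a)) := by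
  unfold adj
  fun_prop

theorem poly_dstep_aux {M C : α → ℕ} {v : α → List (List γ × ℕ)} (hM : Poly M) (hC : Poly C)
    (hv : Poly v) : Poly (fun a => (v a).map fun p => (p.1,
      min ((C a - ((v a).filter fun q => adj p.1 q.1).length) * p.2 +
        (((v a).filter fun q => adj p.1 q.1).map Prod.snd).sum) (M a))) := by
  fun_prop

theorem poly_dstep {N C : α → ℕ} {v : α → List (List γ × ℕ)} (hN : UPoly N) (hC : Poly C)
    (hv : Poly v) : Poly (fun a => dstep (N a) (C a) (v a)) :=
  poly_dstep_aux (M := fun a => 2 ^ N a) (Poly.npow (NPC.Poly.const 2) hN) hC hv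

theorem poly_bl {T : α → List γ} {I : α → List γ → Bool} {N : α → ℕ} (hN : UPoly N) (hT : Poly T)
    (hI : Poly (fun p : α × List γ => I p.1 p.2)) : Poly (fun a => bl (N a) (I a) (T a)) := by
  unfold bl
  have h1 := poly_subs hT hN
  have h2 := poly_greedy hT hI
  have h3 : Poly (fun p : α × List γ => (greedy (I p.1) (T p.1)).length) :=
    (Poly.length h2).comp (f := fun p : α × List γ => p.1) (by fun_prop)
  exact Poly.filter (p := fun a B => decide (B.length = (greedy (I a) (T a)).length) && I a B) h1
    (Poly.and (Poly.dec_eq (by fun_prop) h3) hI)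

omit [TEnc γ] in
theorem dstep_mem {N C : ℕ} {v : List (List γ × ℕ)} {p : List γ × ℕ} (hp : p ∈ dstep N C v) :
    (∃ q ∈ v, p.1 = q.1) ∧ p.2 ≤ 2 ^ N := by
  unfold dstep at hp
  obtain ⟨q, hq, rfl⟩ := List.mem_map.1 hp
  exact ⟨⟨q, hq, rfl⟩, min_le_right _ _⟩

omit [TEnc γ] in
theorem dstep_iter {N C : ℕ} {v : List (List γ × ℕ)} (hv : ∀ p ∈ v, p.2 ≤ 2 ^ N) (k : ℕ) :
    ((dstep N C)^[k] v).length = v.length ∧ ∀ p ∈ (dstep N C)^[k] v,
      (∃ q ∈ v, p.1 = q.1) ∧ p.2 ≤ 2 ^ N := by
  induction k with
  | zero => exact ⟨rfl, fun p hp => ⟨⟨p, hp, rfl⟩, hv p hp⟩⟩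
  | succ k ih =>
    rw [Function.iterate_succ_apply']
    refine ⟨?_, fun p hp => ?_⟩
    · rw [← ih.1]
      unfold dstep
      rw [List.length_map]
    · obtain ⟨⟨q, hq, h1⟩, h2⟩ := dstep_mem hp
      obtain ⟨⟨q', hq', h3⟩, -⟩ := ih.2 q hq
      exact ⟨⟨q', hq', h1.trans h3⟩, h2⟩

theorem poly_init_aux {bs : α → List (List γ)} {G : α → List γ} (hb : Poly bs) (hG : Poly G) :
    Poly (fun a => (bs a).map fun B => (B, bif decide (B = G a) then 1 else 0)) := by
  fun_prop

theorem poly_dist {T : α → List γ} {I : α → List γ → Bool} {N t : α → ℕ} (hN : UPoly N)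
    (hT : Poly T) (hI : Poly (fun p : α × List γ => I p.1 p.2)) (ht : UPoly t) :
    Poly (fun a => dist (N a) (I a) (T a) (t a)) := by
  have h1 := poly_bl hN hT hI
  have h2 := poly_greedy hT hI
  have h3 : Poly (fun a => (bl (N a) (I a) (T a)).map fun B =>
      (B, bif decide (B = greedy (I a) (T a)) then 1 else 0)) :=
    poly_init_aux (G := fun a => greedy (I a) (T a)) h1 h2
  have h4 : Poly (fun a => 2 ^ (2 * wid (T a))) := Poly.npow (NPC.Poly.const 2)
    (UPoly.mul (UPoly.const 2) (upoly_wid hT))
  have h5 : Poly (fun p : α × List (List γ × ℕ) => dstep (N p.1) (2 ^ (2 * wid (T p.1))) p.2) :=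
    poly_dstep (N := fun p : α × List (List γ × ℕ) => N p.1)
      (C := fun p : α × List (List γ × ℕ) => 2 ^ (2 * wid (T p.1))) (hN.comp (by fun_prop))
      (h4.comp (f := fun p : α × List (List γ × ℕ) => p.1) (by fun_prop)) (by fun_prop)
  obtain ⟨q1, hq1⟩ := h1.sz_le
  obtain ⟨q2, hq2⟩ := Poly.sz_le hN
  have h7 := Poly.iterLen (F := fun a => dstep (N a) (2 ^ (2 * wid (T a)))) ht h3 h5
    (q1 * (q1 + 4 * q2 + 10) + 1) (by
      intro a k _
      set bs := bl (N a) (I a) (T a) with hbs
      have hv : ∀ p ∈ bs.map (fun B => (B, bif decide (B = greedy (I a) (T a)) then 1 else 0)),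
          p.2 ≤ 2 ^ N a := by
        intro p hp
        obtain ⟨B, -, rfl⟩ := List.mem_map.1 hp
        have : 1 ≤ 2 ^ N a := Nat.one_le_two_pow
        change (bif decide (B = greedy (I a) (T a)) then 1 else 0) ≤ 2 ^ N a
        cases decide (B = greedy (I a) (T a)) with
        | false => exact Nat.zero_le _
        | true => exact this
      obtain ⟨e1, e2⟩ := dstep_iter (C := 2 ^ (2 * wid (T a))) hv k
      have e3 := length_lt_sz bs
      have e4 : sz bs ≤ q1.eval (sz a) := hq1 a
      have e5 := length_lt_sz (List.replicate (N a) ())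
      rw [List.length_replicate] at e5
      have e6 := hq2 a
      have e7 := sz_le_length_mul _ (sz bs + 4 * N a + 9) (fun p hp => by
        obtain ⟨⟨q, hq, h8⟩, h9⟩ := e2 p hp
        obtain ⟨B, hB, rfl⟩ := List.mem_map.1 hq
        have h10 : sz p = sz p.1 + sz p.2 + 1 := by
          obtain ⟨x, y⟩ := p
          rw [sz_pair]
        have h11 := sz_le_of_mem hB
        have h12 := sz_nat_le p.2
        have h13 : p.2.size ≤ N a + 1 := by
          rw [Nat.size_le]
          exact lt_of_le_of_lt h9 (Nat.pow_lt_pow_right (by norm_num) (by omega))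
        rw [h10, h8]
        change sz B + sz p.2 + 1 ≤ _
        omega)
      rw [e1, List.length_map] at e7
      refine e7.trans ?_
      have e8 : (q1 * (q1 + 4 * q2 + 10) + 1 : Polynomial ℕ).eval (sz a) =
          q1.eval (sz a) * (q1.eval (sz a) + 4 * q2.eval (sz a) + 10) + 1 := by simp
      rw [e8]
      refine Nat.add_le_add_right (Nat.mul_le_mul ?_ ?_) 1
      · omega
      · omega)
  refine h7.congr fun a => ?_
  rw [List.length_replicate]
  rfl

theorem poly_wts_aux {v : α → List (List γ × ℕ)} {A D : α → ℕ} (hv : Poly v) (hA : Poly A)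
    (hD : Poly D) : Poly (fun a => (v a).map fun p => (p.1, A a * D a -
      (A a - 1) * (v a).length * p.2)) := by
  fun_prop

theorem poly_wts {T : α → List γ} {I : α → List γ → Bool} {N t h : α → ℕ} (hN : UPoly N)
    (hT : Poly T) (hI : Poly (fun p : α × List γ => I p.1 p.2)) (ht : UPoly t) (hh : UPoly h) :
    Poly (fun a => wts (N a) (I a) (T a) (t a) (h a)) := by
  have h1 := poly_dist hN hT hI ht
  have h2 : Poly (fun a => 2 ^ h a) := Poly.npow (NPC.Poly.const 2) hh
  have h3 : Poly (fun a => 2 ^ (2 * wid (T a) * t a)) := Poly.npow (NPC.Poly.const 2)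
    (UPoly.mul (UPoly.mul (UPoly.const 2) (upoly_wid hT)) ht)
  exact poly_wts_aux (A := fun a => 2 ^ h a) (D := fun a => 2 ^ (2 * wid (T a) * t a)) h1 h2 h3

omit [TEnc γ] [DecidableEq γ] in
theorem selc_fst (z : ℕ) (v : List (List γ × ℕ)) : (selc z v).1 = (v.map Prod.snd).sum := by
  induction v with
  | nil => rfl
  | cons p v ih =>
    rw [List.map_cons, List.sum_cons, ← ih, add_comm]
    rfl

omit [DecidableEq γ] in
theorem selc_snd (z : ℕ) (v : List (List γ × ℕ)) :
    sz (selc z v).2 ≤ sz v + 2 := by
  induction v with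
  | nil => simp [selc]
  | cons p v ih =>
    have h1 : (selc z (p :: v)).2 = bif decide ((selc z v).1 ≤ z) &&
      decide (z < (selc z v).1 + p.2) then some p.1 else (selc z v).2 := rfl
    have h2 : sz p = sz p.1 + sz p.2 + 1 := by
      obtain ⟨x, y⟩ := p
      rw [sz_pair]
    rw [h1, sz_list_cons]
    cases decide ((selc z v).1 ≤ z) && decide (z < (selc z v).1 + p.2) with
    | false => rw [cond_false]; omega
    | true =>
      rw [cond_true, sz_some]
      omega

theorem poly_selc {v : α → List (List γ × ℕ)} {z : α → ℕ} (hz : Poly z) (hv : Poly v) :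
    Poly (fun a => selc (z a) (v a)) := by
  obtain ⟨q1, hq1⟩ := hv.sz_le
  have h1 : Poly (fun a => ((v a).map Prod.snd).sum) := by fun_prop
  obtain ⟨q2, hq2⟩ := h1.sz_le
  unfold selc
  refine Poly.foldr (F := fun a p s => (s.1 + p.2, bif decide (s.1 ≤ z a) &&
    decide (z a < s.1 + p.2) then some p.1 else s.2)) hv (NPC.Poly.const (0, none)) (by fun_prop)
    (q1 + 2 * q2 + 3) ?_
  intro a k _
  change sz (selc (z a) ((v a).drop k)) ≤ _
  have e0 : sz (selc (z a) ((v a).drop k)) = sz (selc (z a) ((v a).drop k)).1 +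
      sz (selc (z a) ((v a).drop k)).2 + 1 := by
    rw [← sz_pair]
  have e1 : (q1 + 2 * q2 + 3 : Polynomial ℕ).eval (sz a) =
      q1.eval (sz a) + 2 * q2.eval (sz a) + 3 := by simp
  have e2 := selc_snd (z a) ((v a).drop k)
  have e3 := sz_sublist_le (List.drop_sublist k (v a))
  have e4 := hq1 a
  have e5 := hq2 a
  have e6 : (selc (z a) ((v a).drop k)).1 ≤ ((v a).map Prod.snd).sum := by
    rw [selc_fst]
    exact (List.Sublist.map _ (List.drop_sublist k (v a))).sum_le_sum (by simp)
  have e7 := sz_nat_mono_le e6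
  rw [e0, e1]
  omega

end Pool.Agent.P8H86.ST
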