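import Pool.Agent.P8H86.ST.Machine

/-!
# The distribution of the output, and the expected running time
-/

set_option autoImplicit false

namespace Pool.Agent.P8H86.ST

open Finset MeasureTheory Filter
open scoped ENNReal Classical Topology

theorem measurable_pre (n : ℕ) (P : List Bool → Prop) :
    MeasurableSet {ω : ℕ → Bool | P (pre ω n)} := by
  have h : Measurable (fun (ω : ℕ → Bool) (i : Fin n) => ω i) :=
    measurable_pi_lambda _ fun i => measurable_pi_apply _
  exact h (MeasurableSet.of_discrete (s := {v : Fin n → Bool | P (List.ofFn v)}))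

namespace Proc

variable (P : Proc)

/-- the coin flips of stage `i` -/
def rb (i : ℕ) (ω : ℕ → Bool) : List Bool := blk ω (P.o i) (P.u i).length

/-- no output before stage `J` -/
def CW (J : ℕ) (ω : ℕ → Bool) : Prop := ∀ i < J, P.out i (P.rb i ω) = none

theorem o_mono {i j : ℕ} (h : i ≤ j) : P.o i ≤ P.o j := by
  unfold o
  exact Finset.sum_le_sum_of_subset (Finset.range_mono h)

theorem rd_pre {i N : ℕ} (ω : ℕ → Bool) (h : P.o (i + 1) ≤ N) : P.rd i (pre ω N) = P.rb i ω := by
  obtain ⟨k, rfl⟩ := Nat.exists_eq_add_of_le h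
  unfold rd rb
  rw [P.o_succ, pre_add, pre_add, List.append_assoc, List.drop_left' (pre_length _ _),
    List.take_left' (blk_length _ _ _)]

theorem cont_pre {J N : ℕ} (ω : ℕ → Bool) (h : P.o J ≤ N) : P.Cont J (pre ω N) ↔ P.CW J ω := by
  unfold Cont CW
  refine forall_congr' fun i => forall_congr' fun hi => ?_
  rw [P.rd_pre ω ((P.o_mono (by omega)).trans h)]

/-- the probability that stage `i` gives no output -/
noncomputable def c (i : ℕ) : ℝ := avg (P.u i).length fun r => if P.out i r = none then 1 else 0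

/-- the probability that there is no output before stage `J` -/
noncomputable def s (J : ℕ) : ℝ := ∏ i ∈ range J, P.c i

/-- the probability that stage `J` gives an output in `A` -/
noncomputable def g (J : ℕ) (A : Set (List Bool)) : ℝ :=
  avg (P.u J).length fun r => if ∃ y ∈ A, P.out J r = some y then 1 else 0

theorem c_nonneg (i : ℕ) : 0 ≤ P.c i := avg_nonneg fun l _ => by split_ifs <;> norm_num

theorem g_nonneg (i : ℕ) (A : Set (List Bool)) : 0 ≤ P.g i A :=
  avg_nonneg fun l _ => by split_ifs <;> norm_num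

theorem s_nonneg (J : ℕ) : 0 ≤ P.s J := prod_nonneg fun i _ => P.c_nonneg i

theorem s_succ (J : ℕ) : P.s (J + 1) = P.s J * P.c J := by
  rw [s, prod_range_succ, ← s]

theorem rd_append_right {J : ℕ} {l l' : List Bool} (h : l.length = P.o J)
    (h' : l'.length = (P.u J).length) : P.rd J (l ++ l') = l' := by
  unfold rd
  rw [List.drop_left' h, ← h', List.take_length]

theorem cont_append {J : ℕ} {l l' : List Bool} (h : l.length = P.o J) :
    P.Cont J (l ++ l') ↔ P.Cont J l := by
  unfold Cont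
  refine forall_congr' fun i => forall_congr' fun hi => ?_
  have h3 : P.o i + (P.u i).length ≤ l.length := by
    rw [h, ← P.o_succ]
    exact P.o_mono (by omega)
  have : P.rd i (l ++ l') = P.rd i l := by
    unfold rd
    rw [List.drop_append_of_le_length (by omega), List.take_append_of_le_length (by
      rw [List.length_drop]; omega)]
  rw [this]

theorem avg_cont_mul (J : ℕ) (φ : List Bool → ℝ) :
    avg (P.o (J + 1)) (fun l => if P.Cont J l then φ (P.rd J l) else 0) =
      avg (P.o J) (fun l => if P.Cont J l then 1 else 0) * avg (P.u J).length φ := by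
  rw [o_succ, avg_append, ← avg_mul']
  refine avg_congr fun l hl => ?_
  rw [← avg_mul]
  refine avg_congr fun l' hl' => ?_
  rw [P.rd_append_right hl hl']
  by_cases h : P.Cont J l
  · rw [if_pos h, if_pos ((P.cont_append hl).2 h), one_mul]
  · rw [if_neg h, if_neg fun h' => h ((P.cont_append hl).1 h'), zero_mul]

theorem avg_cont (J : ℕ) : avg (P.o J) (fun l => if P.Cont J l then 1 else 0) = P.s J := by
  induction J with
  | zero =>
    have : P.s 0 = 1 := by simp [s]
    rw [this]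
    have h0 : ∀ l : List Bool, P.Cont 0 l := fun l i hi => absurd hi (by omega)
    simp only [h0, if_true]
    exact avg_const _ _
  | succ J ih =>
    rw [s_succ, ← ih, c, ← avg_cont_mul]
    refine avg_congr fun l _ => ?_
    have : P.Cont (J + 1) l ↔ P.Cont J l ∧ P.out J (P.rd J l) = none := by
      unfold Cont
      constructor
      · intro h
        exact ⟨fun i hi => h i (by omega), h J (by omega)⟩
      · rintro ⟨h1, h2⟩ i hi
        rcases Nat.lt_succ_iff_lt_or_eq.1 hi with h | rfl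
        · exact h1 i h
        · exact h2
    by_cases h1 : P.Cont J l <;> by_cases h2 : P.out J (P.rd J l) = none <;> simp [this, h1, h2]

theorem coins_CW (J : ℕ) : coins {ω | P.CW J ω} = ENNReal.ofReal (P.s J) := by
  have : {ω | P.CW J ω} = {ω : ℕ → Bool | P.Cont J (pre ω (P.o J))} := by
    ext ω
    exact (P.cont_pre ω le_rfl).symm
  rw [this, coins_pre, avg_cont]

/-- stage `J` gives an output in `A` -/
def E (J : ℕ) (A : Set (List Bool)) : Set (ℕ → Bool) :=
  {ω | P.CW J ω ∧ ∃ y ∈ A, P.out J (P.rb J ω) = some y}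

theorem E_eq (J : ℕ) (A : Set (List Bool)) : P.E J A = {ω : ℕ → Bool |
    (fun l => P.Cont J l ∧ ∃ y ∈ A, P.out J (P.rd J l) = some y) (pre ω (P.o (J + 1)))} := by
  ext ω
  unfold E
  simp only [Set.mem_ofPred_eq]
  rw [P.cont_pre ω (P.o_mono (Nat.le_succ J)), P.rd_pre ω le_rfl]

theorem E_meas (J : ℕ) (A : Set (List Bool)) : MeasurableSet (P.E J A) := by
  rw [E_eq]
  exact measurable_pre (P.o (J + 1))
    (fun l => P.Cont J l ∧ ∃ y ∈ A, P.out J (P.rd J l) = some y)

theorem coins_E (J : ℕ) (A : Set (List Bool)) :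
    coins (P.E J A) = ENNReal.ofReal (P.s J * P.g J A) := by
  rw [E_eq, coins_pre (P.o (J + 1)) (fun l => P.Cont J l ∧ ∃ y ∈ A, P.out J (P.rd J l) = some y),
    ← avg_cont, g, ← avg_cont_mul]
  congr 1
  refine avg_congr fun l _ => ?_
  by_cases h1 : P.Cont J l <;> by_cases h2 : ∃ y ∈ A, P.out J (P.rd J l) = some y <;> simp [h1, h2]

theorem E_disj (A : Set (List Bool)) : Pairwise (Function.onFun Disjoint fun J => P.E J A) := by
  have key : ∀ i j, i < j → Disjoint (P.E i A) (P.E j A) := by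
    intro i j hij
    refine Set.disjoint_left.2 fun ω h1 h2 => ?_
    obtain ⟨-, y, -, hy⟩ := h1
    have := h2.1 i hij
    rw [this] at hy
    exact absurd hy (by simp)
  intro i j hij
  rcases lt_or_gt_of_ne hij with h | h
  · exact key i j h
  · exact (key j i h).symm

theorem first {J : ℕ} {ω : ℕ → Bool} (h : ¬ P.CW J ω) :
    ∃ i < J, P.CW i ω ∧ ∃ y, P.out i (P.rb i ω) = some y := by
  unfold CW at h
  push Not at h
  have hex : ∃ i, i < J ∧ P.out i (P.rb i ω) ≠ none := h
  refine ⟨Nat.find hex, (Nat.find_spec hex).1, fun i hi => ?_,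
    Option.ne_none_iff_exists'.1 (Nat.find_spec hex).2⟩
  by_contra hne
  exact Nat.find_min hex hi ⟨hi.trans (Nat.find_spec hex).1, hne⟩

end Proc

/-- The machine simulates the process with the time bounds `b`. -/
structure Sim (M : RandTM) (x : List Bool) (P : Proc) (b : ℕ → ℕ) : Prop where
  mono : StrictMono b
  out : ∀ J ω y, P.CW J ω → P.out J (P.rb J ω) = some y → M.Outputs x ω (b (J + 1)) y

namespace Sim

variable {M : RandTM} {x : List Bool} {P : Proc} {b : ℕ → ℕ} (h : Sim M x P b)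

include h

theorem late {J n : ℕ} (hn : b J ≤ n) :
    coins {ω | ¬ ∃ y, M.Outputs x ω n y} ≤ ENNReal.ofReal (P.s J) := by
  rw [← P.coins_CW]
  refine measure_mono fun ω hω => ?_
  by_contra hc
  obtain ⟨i, hi, h1, y, hy⟩ := P.first hc
  exact hω ⟨y, (h.out i ω y h1 hy).mono M ((h.mono.monotone (by omega)).trans hn)⟩

theorem partial_sum (K : ℕ) : ∑ n ∈ range (b K), coins {ω | ¬ ∃ y, M.Outputs x ω n y} ≤
    (b 0 : ℝ≥0∞) + ∑ J ∈ range K, ((b (J + 1) - b J : ℕ) : ℝ≥0∞) * ENNReal.ofReal (P.s J) := by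
  induction K with
  | zero =>
    rw [range_zero, sum_empty, add_zero]
    calc ∑ n ∈ range (b 0), coins {ω | ¬ ∃ y, M.Outputs x ω n y} ≤ ∑ n ∈ range (b 0), 1 :=
          sum_le_sum fun n _ => prob_le_one
      _ = (b 0 : ℝ≥0∞) := by simp
  | succ K ih =>
    rw [← sum_range_add_sum_Ico _ (h.mono.monotone (Nat.le_succ K)), sum_range_succ _ K,
      ← add_assoc]
    refine add_le_add ih ?_
    calc ∑ n ∈ Ico (b K) (b (K + 1)), coins {ω | ¬ ∃ y, M.Outputs x ω n y}
        ≤ ∑ n ∈ Ico (b K) (b (K + 1)), ENNReal.ofReal (P.s K) :=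
          sum_le_sum fun n hn => h.late (mem_Ico.1 hn).1
      _ = ((b (K + 1) - b K : ℕ) : ℝ≥0∞) * ENNReal.ofReal (P.s K) := by
          rw [sum_const, Nat.card_Ico, nsmul_eq_mul]

theorem expectedTime_le : M.expectedTime x ≤
    (b 0 : ℝ≥0∞) + ∑' J, ((b (J + 1) - b J : ℕ) : ℝ≥0∞) * ENNReal.ofReal (P.s J) := by
  unfold RandTM.expectedTime
  rw [ENNReal.tsum_eq_iSup_nat]
  refine iSup_le fun N => ?_
  calc ∑ n ∈ range N, coins {ω | ¬ ∃ y, M.Outputs x ω n y}
      ≤ ∑ n ∈ range (b N), coins {ω | ¬ ∃ y, M.Outputs x ω n y} :=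
        sum_le_sum_of_subset (range_mono (h.mono.id_le N))
    _ ≤ _ := h.partial_sum N
    _ ≤ _ := by
        gcongr
        exact ENNReal.sum_le_tsum _

theorem probOut_eq (hs : Tendsto P.s atTop (𝓝 0)) (A : Set (List Bool)) :
    M.probOut x A = ∑' J, ENNReal.ofReal (P.s J * P.g J A) := by
  have h1 : ∑' J, ENNReal.ofReal (P.s J * P.g J A) = coins (⋃ J, P.E J A) := by
    rw [measure_iUnion (P.E_disj A) fun J => P.E_meas J A]
    exact tsum_congr fun J => (P.coins_E J A).symm
  rw [h1]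
  unfold RandTM.probOut
  refine le_antisymm ?_ ?_
  · have hz : coins {ω | ∀ J, P.CW J ω} = 0 := by
      have h2 : ∀ J, coins {ω | ∀ J, P.CW J ω} ≤ ENNReal.ofReal (P.s J) := fun J => by
        rw [← P.coins_CW]
        exact measure_mono fun ω hω => hω J
      have h3 : Tendsto (fun J => ENNReal.ofReal (P.s J)) atTop (𝓝 0) := by
        have := ENNReal.tendsto_ofReal hs
        rwa [ENNReal.ofReal_zero] at this
      exact le_antisymm (ge_of_tendsto' h3 h2) bot_le
    have h4 : {ω | ∃ n, ∃ y ∈ A, M.Outputs x ω n y} ⊆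
        (⋃ J, P.E J A) ∪ {ω | ∀ J, P.CW J ω} := by
      rintro ω ⟨n, y, hy, hout⟩
      by_cases hc : ∀ J, P.CW J ω
      · exact Or.inr hc
      · left
        push Not at hc
        obtain ⟨J, hJ⟩ := hc
        obtain ⟨i, -, h5, y', hy'⟩ := P.first hJ
        have : y = y' := hout.unique M (h.out i ω y' h5 hy')
        subst this
        exact Set.mem_iUnion.2 ⟨i, h5, y, hy, hy'⟩
    calc coins {ω | ∃ n, ∃ y ∈ A, M.Outputs x ω n y}
        ≤ coins ((⋃ J, P.E J A) ∪ {ω | ∀ J, P.CW J ω}) := measure_mono h4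
      _ ≤ coins (⋃ J, P.E J A) + coins {ω | ∀ J, P.CW J ω} := measure_union_le _ _
      _ = coins (⋃ J, P.E J A) := by rw [hz, add_zero]
  · refine measure_mono (Set.iUnion_subset fun J ω hω => ?_)
    obtain ⟨h5, y, hy, hy'⟩ := hω
    exact ⟨_, y, hy, h.out J ω y h5 hy'⟩

end Sim

theorem prog_sim {F G : List Bool → List Bool} {cF cG : NPC.Cmd ℕ} {pF pG : Polynomial ℕ}
    (hF : ∀ a, NPC.Runs cF (NPC.inp a) (NPC.inp (F a)) (pF.eval a.length))
    (hG : ∀ a, NPC.Runs cG (NPC.inp a) (NPC.inp (G a)) (pG.eval a.length))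
    (P : Proc) (hP : P.Works F) (x : List Bool) (hx : G x = P.u 0) :
    Sim (ofCmd (prog cG cF)) x P (tm P pF (pG.eval x.length + 3)) where
  mono := strictMono_nat_of_lt_succ fun n => by
    unfold tm
    rw [sum_range_succ]
    omega
  out := fun J ω y h1 h2 => prog_outputs hF hG P hP x hx ω J ((P.cont_pre ω le_rfl).2 h1) y h2

/-! ### Processes with a geometric tail -/

theorem split_sum (f : ℕ → ℝ≥0∞) (K : ℕ) :
    ∑ i ∈ range K, f i + ∑' i, f (i + K) = ∑' i, f i :=
  ENNReal.summable.sum_add_tsum_nat_add'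

/-- Stage `0`, then stages without output until stage `K`, then the same stage again and again. -/
structure Tail (P : Proc) (K : ℕ) : Prop where
  pos : 1 ≤ K
  mid : ∀ i, 1 ≤ i → i < K → ∀ r, P.out i r = none
  u : ∀ j, P.u (K + j) = P.u K
  out : ∀ j, P.out (K + j) = P.out K
  half : P.c K ≤ 1 / 2

namespace Tail

variable {P : Proc} {K : ℕ} (h : Tail P K)

include h

theorem c_mid {i : ℕ} (h1 : 1 ≤ i) (h2 : i < K) : P.c i = 1 := by
  unfold Proc.c
  rw [avg_congr (ψ := fun _ => 1) fun r _ => by rw [if_pos (h.mid i h1 h2 r)], avg_const]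

theorem g_mid {i : ℕ} (h1 : 1 ≤ i) (h2 : i < K) (A : Set (List Bool)) : P.g i A = 0 := by
  unfold Proc.g
  rw [avg_congr (ψ := fun _ => 0) fun r _ => by
    rw [if_neg]
    rintro ⟨y, -, hy⟩
    rw [h.mid i h1 h2 r] at hy
    exact absurd hy (by simp), avg_const]

theorem s_mid {J : ℕ} (h1 : 1 ≤ J) (h2 : J ≤ K) : P.s J = P.c 0 := by
  induction J, h1 using Nat.le_induction with
  | base => simp [Proc.s]
  | succ J hJ ih => rw [P.s_succ, ih (by omega), h.c_mid hJ (by omega), mul_one]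

theorem c_tail (j : ℕ) : P.c (K + j) = P.c K := by
  unfold Proc.c
  rw [h.u, h.out]

theorem g_tail (j : ℕ) (A : Set (List Bool)) : P.g (K + j) A = P.g K A := by
  unfold Proc.g
  rw [h.u, h.out]

theorem s_tail (j : ℕ) : P.s (K + j) = P.c 0 * P.c K ^ j := by
  induction j with
  | zero => rw [add_zero, pow_zero, mul_one, h.s_mid h.pos le_rfl]
  | succ j ih => rw [← add_assoc, P.s_succ, ih, h.c_tail, pow_succ, mul_assoc]

theorem s_tendsto : Tendsto P.s atTop (𝓝 0) := by
  rw [← tendsto_add_atTop_iff_nat K]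
  have h1 : (fun n => P.s (n + K)) = fun n => P.c 0 * P.c K ^ n := by
    funext n
    rw [add_comm, h.s_tail]
  rw [h1]
  have h2 := tendsto_pow_atTop_nhds_zero_of_lt_one (P.c_nonneg K) (by have := h.half; linarith)
  simpa using h2.const_mul (P.c 0)

theorem probOut {M : RandTM} {x : List Bool} {b : ℕ → ℕ} (hS : Sim M x P b)
    (A : Set (List Bool)) : M.probOut x A =
      ENNReal.ofReal (P.g 0 A + P.c 0 * P.g K A / (1 - P.c K)) := by
  rw [hS.probOut_eq h.s_tendsto]
  have h1 : HasSum (fun J => P.s J * P.g J A) (P.g 0 A + P.c 0 * P.g K A / (1 - P.c K)) := by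
    rw [← hasSum_nat_add_iff' K]
    have e1 : ∑ i ∈ range K, P.s i * P.g i A = P.g 0 A := by
      rw [sum_eq_single 0]
      · simp [Proc.s]
      · intro i hi hne
        rw [h.g_mid (by omega) (mem_range.1 hi), mul_zero]
      · intro h0
        exact absurd (mem_range.2 h.pos) h0
    rw [e1]
    have e2 : (fun n => P.s (n + K) * P.g (n + K) A) = fun n => P.c 0 * P.g K A * P.c K ^ n := by
      funext n
      rw [add_comm, h.s_tail, h.g_tail]
      ring
    rw [e2]
    have e3 := (hasSum_geometric_of_lt_one (P.c_nonneg K) (by have := h.half; linarith)).mul_left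
      (P.c 0 * P.g K A)
    rw [add_sub_cancel_left]
    exact e3
  rw [← h1.tsum_eq, ENNReal.ofReal_tsum_of_nonneg (fun J => mul_nonneg (P.s_nonneg J)
    (P.g_nonneg J A)) h1.summable]

theorem sum_head (b : ℕ → ℕ) (T : ℝ) (hT0 : 0 ≤ T)
    (hT : ∀ J, 1 ≤ J → ((b (J + 1) - b J : ℕ) : ℝ) * P.c 0 ≤ T) :
    ∑ J ∈ range K, ((b (J + 1) - b J : ℕ) : ℝ≥0∞) * ENNReal.ofReal (P.s J) ≤
      ENNReal.ofReal ((b 1 - b 0 : ℕ) + K * T) := by
  have h0 : ∀ J ∈ range K, ((b (J + 1) - b J : ℕ) : ℝ≥0∞) * ENNReal.ofReal (P.s J) ≤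
      ENNReal.ofReal (if J = 0 then ((b 1 - b 0 : ℕ) : ℝ) else T) := by
    intro J hJ
    rw [← ENNReal.ofReal_natCast, ← ENNReal.ofReal_mul (Nat.cast_nonneg _)]
    refine ENNReal.ofReal_le_ofReal ?_
    by_cases hJ0 : J = 0
    · subst hJ0
      simp [Proc.s]
    · rw [if_neg hJ0, h.s_mid (by omega) (mem_range.1 hJ).le]
      exact hT J (by omega)
  refine (sum_le_sum h0).trans ?_
  rw [← ENNReal.ofReal_sum_of_nonneg (fun i _ => by split_ifs; exacts [Nat.cast_nonneg _, hT0])]
  refine ENNReal.ofReal_le_ofReal ?_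
  have h1 : ∀ J ∈ range K, (if J = 0 then ((b 1 - b 0 : ℕ) : ℝ) else T) ≤
      (if J = 0 then ((b 1 - b 0 : ℕ) : ℝ) else 0) + T := by
    intro J _
    split_ifs <;> linarith
  refine (sum_le_sum h1).trans ?_
  rw [sum_add_distrib, sum_const, card_range, nsmul_eq_mul, sum_ite_eq' (range K) 0]
  rw [if_pos (mem_range.2 h.pos)]

theorem sum_tail (b : ℕ → ℕ) (T : ℝ) (hT0 : 0 ≤ T)
    (hT : ∀ J, 1 ≤ J → ((b (J + 1) - b J : ℕ) : ℝ) * P.c 0 ≤ T) :
    ∑' J, ((b (J + K + 1) - b (J + K) : ℕ) : ℝ≥0∞) * ENNReal.ofReal (P.s (J + K)) ≤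
      ENNReal.ofReal (2 * T) := by
  have h0 : ∀ J, ((b (J + K + 1) - b (J + K) : ℕ) : ℝ≥0∞) * ENNReal.ofReal (P.s (J + K)) ≤
      ENNReal.ofReal (T * (1 / 2) ^ J) := by
    intro J
    rw [← ENNReal.ofReal_natCast, ← ENNReal.ofReal_mul (Nat.cast_nonneg _)]
    refine ENNReal.ofReal_le_ofReal ?_
    rw [add_comm J K, h.s_tail, ← mul_assoc]
    have h1 := hT (K + J) (by have := h.pos; omega)
    exact mul_le_mul h1 (pow_le_pow_left₀ (P.c_nonneg K) h.half J) (pow_nonneg (P.c_nonneg K) _) hT0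
  refine (ENNReal.tsum_le_tsum h0).trans ?_
  have h2 := (hasSum_geometric_two).mul_left T
  rw [← ENNReal.ofReal_tsum_of_nonneg (fun J => by positivity) h2.summable, h2.tsum_eq, mul_comm]

theorem expectedTime {M : RandTM} {x : List Bool} {b : ℕ → ℕ} (hS : Sim M x P b) (T : ℝ)
    (hT : ∀ J, 1 ≤ J → ((b (J + 1) - b J : ℕ) : ℝ) * P.c 0 ≤ T) :
    M.expectedTime x ≤ ENNReal.ofReal (b 1 + (K + 2) * T) := by
  have hT0 : 0 ≤ T := (mul_nonneg (Nat.cast_nonneg _) (P.c_nonneg 0)).trans (hT 1 le_rfl)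
  refine hS.expectedTime_le.trans ?_
  rw [← split_sum (fun J => ((b (J + 1) - b J : ℕ) : ℝ≥0∞) * ENNReal.ofReal (P.s J)) K]
  have h1 := h.sum_head b T hT0 hT
  have h2 := h.sum_tail b T hT0 hT
  refine (add_le_add le_rfl (add_le_add h1 h2)).trans ?_
  rw [← ENNReal.ofReal_natCast, ← ENNReal.ofReal_add (by positivity) (by positivity),
    ← ENNReal.ofReal_add (by positivity) (by positivity)]
  refine ENNReal.ofReal_le_ofReal ?_
  have h3 : ((b 0 : ℕ) : ℝ) + ((b 1 - b 0 : ℕ) : ℝ) = b 1 := by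
    rw [← Nat.cast_add]
    congr 1
    have := hS.mono.monotone (show 0 ≤ 1 by omega)
    omega
  linarith

end Tail

end Pool.Agent.P8H86.ST
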