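import Pool.Agent.P8H86.ST.Dist

/-!
# The weights of the correction, and the selection
-/

set_option autoImplicit false

namespace Pool.Agent.P8H86.ST

open Finset Pool.Agent.NPC

theorem avg_take {κ n : ℕ} (h : κ ≤ n) (φ : List Bool → ℝ) :
    avg n (fun r => φ (r.take κ)) = avg κ φ := by
  obtain ⟨k, rfl⟩ := Nat.exists_eq_add_of_le h
  rw [avg_append]
  refine avg_congr fun l hl => ?_
  refine (avg_congr (ψ := fun _ => φ l) fun l' _ => ?_).trans (avg_const _ _)
  rw [List.take_left' hl]

variable {α : Type} [DecidableEq α]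

omit [DecidableEq α] in
theorem selc_cons (z : ℕ) (q : List α × ℕ) (v : List (List α × ℕ)) :
    (selc z (q :: v)).2 = bif decide ((selc z v).1 ≤ z) && decide (z < (selc z v).1 + q.2) then
      some q.1 else (selc z v).2 := rfl

omit [DecidableEq α] in
theorem selc_fst' (z : ℕ) (v : List (List α × ℕ)) : (selc z v).1 = (v.map Prod.snd).sum := by
  induction v with
  | nil => rfl
  | cons p v ih =>
    rw [List.map_cons, List.sum_cons, ← ih, add_comm]
    rfl

omit [DecidableEq α] in
theorem selc_none (z : ℕ) (v : List (List α × ℕ)) :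
    (selc z v).2 = none ↔ (v.map Prod.snd).sum ≤ z := by
  induction v with
  | nil => simp [selc]
  | cons q v ih =>
    rw [selc_cons, selc_fst', List.map_cons, List.sum_cons]
    by_cases h : (v.map Prod.snd).sum ≤ z ∧ z < (v.map Prod.snd).sum + q.2
    · rw [decide_eq_true h.1, decide_eq_true h.2, Bool.and_self, cond_true]
      simp only [reduceCtorEq, false_iff]
      omega
    · have : (decide ((v.map Prod.snd).sum ≤ z) && decide (z < (v.map Prod.snd).sum + q.2)) =
          false := by
        rw [← Bool.not_eq_true, Bool.and_eq_true, decide_eq_true_eq, decide_eq_true_eq]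
        exact h
      rw [this, cond_false, ih]
      omega

theorem sum_ico (S q M : ℕ) (h : S + q ≤ M) :
    ∑ z ∈ range M, (if S ≤ z ∧ z < S + q then (1 : ℝ) else 0) = q := by
  rw [← sum_filter]
  have : (range M).filter (fun z => S ≤ z ∧ z < S + q) = Ico S (S + q) := by
    ext z
    rw [mem_filter, mem_range, mem_Ico]
    omega
  rw [this, sum_const, Nat.card_Ico, nsmul_eq_mul, mul_one]
  congr 1
  omega

theorem sum_selc (v : List (List α × ℕ)) (M : ℕ) (hM : (v.map Prod.snd).sum ≤ M) (x : List α) :
    ∑ z ∈ range M, (if (selc z v).2 = some x then (1 : ℝ) else 0) =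
      ((v.map fun p => if p.1 = x then p.2 else 0).sum : ℕ) := by
  induction v with
  | nil => simp [selc]
  | cons q v ih =>
    rw [List.map_cons, List.sum_cons] at hM
    have h1 : ∀ z ∈ range M, (if (selc z (q :: v)).2 = some x then (1 : ℝ) else 0) =
        (if q.1 = x then (if (v.map Prod.snd).sum ≤ z ∧ z < (v.map Prod.snd).sum + q.2 then 1
          else 0) else 0) + if (selc z v).2 = some x then (1 : ℝ) else 0 := by
      intro z _
      rw [selc_cons, selc_fst']
      by_cases h : (v.map Prod.snd).sum ≤ z ∧ z < (v.map Prod.snd).sum + q.2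
      · rw [decide_eq_true h.1, decide_eq_true h.2, Bool.and_self, cond_true, if_pos h,
          (selc_none z v).2 h.1]
        simp
      · have : (decide ((v.map Prod.snd).sum ≤ z) && decide (z < (v.map Prod.snd).sum + q.2)) =
            false := by
          rw [← Bool.not_eq_true, Bool.and_eq_true, decide_eq_true_eq, decide_eq_true_eq]
          exact h
        rw [this, cond_false, if_neg h]
        simp
    rw [sum_congr rfl h1, sum_add_distrib, ih (by omega), List.map_cons, List.sum_cons,
      Nat.cast_add]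
    congr 1
    by_cases hq : q.1 = x
    · simp only [if_pos hq]
      exact sum_ico _ _ _ (by omega)
    · simp only [if_neg hq]
      simp

omit [DecidableEq α] in
theorem sum_selc_none (v : List (List α × ℕ)) (M : ℕ) (hM : (v.map Prod.snd).sum ≤ M) :
    ∑ z ∈ range M, (if (selc z v).2 = none then (1 : ℝ) else 0) =
      M - ((v.map Prod.snd).sum : ℕ) := by
  have h1 : ∀ z ∈ range M, (if (selc z v).2 = none then (1 : ℝ) else 0) =
      1 - if 0 ≤ z ∧ z < 0 + (v.map Prod.snd).sum then 1 else 0 := by
    intro z _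
    rw [if_congr (selc_none z v) rfl rfl]
    by_cases h : (v.map Prod.snd).sum ≤ z
    · rw [if_pos h, if_neg (by omega)]
      ring
    · rw [if_neg h, if_pos (by omega)]
      ring
  rw [sum_congr rfl h1, sum_sub_distrib, sum_ico _ _ _ (by omega), sum_const, card_range,
    nsmul_eq_mul, mul_one]

/-- the distribution of the selection -/
theorem avg_selc (v : List (List α × ℕ)) (n : ℕ)
    (hn : (v.map Prod.snd).sum.bits.length ≤ n) (x : List α) :
    avg n (fun r => if (selc (valB (r.take (v.map Prod.snd).sum.bits.length)) v).2 = some x then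
      (1 : ℝ) else 0) = ((v.map fun p => if p.1 = x then p.2 else 0).sum : ℕ) /
        2 ^ (v.map Prod.snd).sum.bits.length := by
  set κ := (v.map Prod.snd).sum.bits.length with hκ
  have hM : (v.map Prod.snd).sum ≤ 2 ^ κ := by
    rw [hκ, Nat.size_eq_bits_len]
    exact (Nat.lt_size_self _).le
  rw [avg_take hn fun r => if (selc (valB r) v).2 = some x then (1 : ℝ) else 0,
    avg_valB κ fun z => if (selc z v).2 = some x then (1 : ℝ) else 0, sum_selc v _ hM,
    one_div_pow]
  ring

omit [DecidableEq α] in
theorem avg_selc_none (v : List (List α × ℕ)) (n : ℕ)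
    (hn : (v.map Prod.snd).sum.bits.length ≤ n) :
    avg n (fun r => if (selc (valB (r.take (v.map Prod.snd).sum.bits.length)) v).2 = none then
      (1 : ℝ) else 0) = 1 - ((v.map Prod.snd).sum : ℕ) /
        2 ^ (v.map Prod.snd).sum.bits.length := by
  set κ := (v.map Prod.snd).sum.bits.length with hκ
  have hM : (v.map Prod.snd).sum ≤ 2 ^ κ := by
    rw [hκ, Nat.size_eq_bits_len]
    exact (Nat.lt_size_self _).le
  rw [avg_take hn fun r => if (selc (valB r) v).2 = none then (1 : ℝ) else 0,
    avg_valB κ fun z => if (selc z v).2 = none then (1 : ℝ) else 0, sum_selc_none v _ hM,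
    one_div_pow]
  push_cast
  field_simp

/-! ### The distribution is computed correctly -/

namespace Desc

variable {T : List α} {I : List α → Bool} {M : FM {x // x ∈ T}} (hD : Desc T I M)

include hD

theorem card_Om_le : (Om T I).card ≤ 2 ^ T.length := by
  rw [hD.card_Om]
  have h1 : M.bases.card ≤ (univ : Finset (Finset {x // x ∈ T})).card := card_le_univ _
  rw [card_univ, Fintype.card_finset] at h1
  have h2 : Fintype.card {x // x ∈ T} ≤ T.length := by
    rw [Fintype.card_of_subtype T.toFinset fun x => List.mem_toFinset]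
    exact T.toFinset_card_le
  exact h1.trans (Nat.pow_le_pow_right (by norm_num) h2)

theorem pd_sum (t : ℕ) : ∑ B ∈ Om T I, pd T I (greedy I T) t B = 1 := by
  have hC : (0 : ℝ) < (2 ^ (2 * wid T) : ℕ) := by positivity
  refine (converge (Ω := Om T I) (A := fun B B' => adj B B' = true) adj_symm
    (D := T.length * T.length) (fun B hB => deg_le hD.nodup hB)
    (κ := 1 / (2 ^ (2 * wid T) : ℕ)) (by positivity) ?_ ?_ hD.poincare
    (pd T I (greedy I T)) (greedy I T) hD.greedy_mem ?_ ?_ (fun t B _ => rfl) t).1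
  · rw [div_le_one hC]
    exact_mod_cast Nat.one_le_two_pow
  · rw [show 2 * (1 / ((2 ^ (2 * wid T) : ℕ) : ℝ)) * ((T.length * T.length : ℕ) : ℝ) =
      (2 * (T.length * T.length : ℕ)) / ((2 ^ (2 * wid T) : ℕ) : ℝ) by ring, div_le_one hC]
    have h2 := (wid_spec T).1
    have h3 : (2 * T.length) * (2 * T.length) ≤ 2 ^ wid T * 2 ^ wid T :=
      Nat.mul_le_mul h2.le h2.le
    rw [← pow_add, ← two_mul] at h3
    have h4 : (2 * T.length) * (2 * T.length) = 4 * (T.length * T.length) := by ring
    have h5 : 2 * (T.length * T.length) ≤ 2 ^ (2 * wid T) := by omega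
    exact_mod_cast h5
  · exact if_pos rfl
  · intro B _ hne
    exact if_neg hne

theorem cnt_sum (t : ℕ) : ∑ B ∈ Om T I, cnt T I (greedy I T) t B = 2 ^ (2 * wid T * t) := by
  have h1 : ((∑ B ∈ Om T I, cnt T I (greedy I T) t B : ℕ) : ℝ) = (2 ^ (2 * wid T * t) : ℕ) := by
    rw [Nat.cast_sum, sum_congr rfl fun B hB => cnt_eq hD.nodup (greedy I T) t B hB, ← mul_sum,
      hD.pd_sum, mul_one, ← pow_mul]
    push_cast
    rfl
  exact_mod_cast h1

theorem cnt_le (t : ℕ) {B : List α} (hB : B ∈ Om T I) :
    cnt T I (greedy I T) t B ≤ 2 ^ (2 * wid T * t) := by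
  rw [← hD.cnt_sum t]
  exact single_le_sum (f := fun B => cnt T I (greedy I T) t B) (fun _ _ => Nat.zero_le _) hB

theorem pd_enough (h t : ℕ)
    (ht : 2 * (T.length + h) * 2 ^ (2 * wid T) ≤ t) {B : List α} (hB : B ∈ Om T I) :
    (2 ^ h - 1) * ((Om T I).card : ℝ) * pd T I (greedy I T) t B ≤ 2 ^ h := by
  refine enough (Ω := Om T I) (A := fun B B' => adj B B' = true) adj_symm
    (D := T.length * T.length) (fun B hB => deg_le hD.nodup hB) (C := 2 ^ (2 * wid T))
    (by positivity) ?_ hD.poincare (pd T I (greedy I T)) (greedy I T) hD.greedy_mem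
    (if_pos rfl) (fun B _ hne => if_neg hne) (fun t B _ => rfl) T.length h hD.card_Om_le t ht B hB
  have h2 := (wid_spec T).1
  have h3 : (2 * T.length) * (2 * T.length) ≤ 2 ^ wid T * 2 ^ wid T :=
    Nat.mul_le_mul h2.le h2.le
  rw [← pow_add, ← two_mul] at h3
  have h4 : (2 * T.length) * (2 * T.length) = 4 * (T.length * T.length) := by ring
  omega

/-- the list of the bases -/
theorem bl_eq {N : ℕ} (hN : 2 ^ T.length ≤ N) : (bl N I T).Nodup ∧ (bl N I T).toFinset = Om T I := by
  unfold bl Om
  rw [subs_eq hN]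
  exact ⟨(List.nodup_sublists'.2 hD.nodup).filter _, rfl⟩

theorem dist_eq {N t : ℕ} (hN : 2 ^ T.length ≤ N) (ht : 2 * wid T * t ≤ N) :
    dist N I T t = (bl N I T).map fun B => (B, cnt T I (greedy I T) t B) := by
  obtain ⟨h1, h2⟩ := hD.bl_eq hN
  have key : ∀ k ≤ t, (dstep N (2 ^ (2 * wid T)))^[k]
      ((bl N I T).map fun B => (B, bif decide (B = greedy I T) then 1 else 0)) =
        (bl N I T).map fun B => (B, cnt T I (greedy I T) k B) := by
    intro k
    induction k with
    | zero => intro _; rfl
    | succ k ih =>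
      intro hk
      rw [Function.iterate_succ_apply', ih (by omega)]
      unfold dstep
      rw [List.map_map]
      refine List.map_congr_left fun B hB => ?_
      have hBO : B ∈ Om T I := by rw [← h2, List.mem_toFinset]; exact hB
      simp only [Function.comp_apply, List.filter_map, List.length_map, List.map_map]
      have e1 : (List.filter ((fun q : List α × ℕ => adj B q.1) ∘
          fun B => (B, cnt T I (greedy I T) k B)) (bl N I T)) =
          (bl N I T).filter (fun B' => adj B B') := rfl
      rw [e1]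
      have e2 : ((bl N I T).filter (fun B' => adj B B')).toFinset =
          (Om T I).filter fun B' => adj B B' = true := by
        rw [← h2, List.toFinset_filter]
      have e3 : ((bl N I T).filter (fun B' => adj B B')).length = deg T I B := by
        unfold deg
        rw [← e2, List.toFinset_card_of_nodup (h1.filter _)]
      have e4 : (List.map (Prod.snd ∘ fun B => (B, cnt T I (greedy I T) k B))
          ((bl N I T).filter (fun B' => adj B B'))).sum =
          ∑ B' ∈ (Om T I).filter (fun B' => adj B B' = true), cnt T I (greedy I T) k B' := by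
        rw [← e2, List.sum_toFinset _ (h1.filter _)]
        rfl
      rw [e3, e4]
      have e5 : (2 ^ (2 * wid T) - deg T I B) * cnt T I (greedy I T) k B +
          ∑ B' ∈ (Om T I).filter (fun B' => adj B B' = true), cnt T I (greedy I T) k B' =
          cnt T I (greedy I T) (k + 1) B := rfl
      rw [e5, min_eq_left]
      refine (hD.cnt_le (k + 1) hBO).trans (Nat.pow_le_pow_right (by norm_num) ?_)
      exact (Nat.mul_le_mul_left _ hk).trans ht
  exact key t le_rfl

/-- the weights -/
def wgt (_ : Desc T I M) (h t : ℕ) (B : List α) : ℕ := 2 ^ h * 2 ^ (2 * wid T * t) -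
  (2 ^ h - 1) * (Om T I).card * cnt T I (greedy I T) t B

theorem wts_eq {N t h : ℕ} (hN : 2 ^ T.length ≤ N) (ht : 2 * wid T * t ≤ N) :
    wts N I T t h = (bl N I T).map fun B => (B, hD.wgt h t B) := by
  obtain ⟨h1, h2⟩ := hD.bl_eq hN
  have e1 : (bl N I T).length = (Om T I).card := by
    rw [← h2, List.toFinset_card_of_nodup h1]
  unfold wts
  rw [hD.dist_eq hN ht, List.length_map, e1, List.map_map]
  rfl

theorem wgt_real {t h : ℕ} (ht : 2 * (T.length + h) * 2 ^ (2 * wid T) ≤ t)
    {B : List α} (hB : B ∈ Om T I) : (hD.wgt h t B : ℝ) =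
      2 ^ (2 * wid T * t) * (2 ^ h - (2 ^ h - 1) * (Om T I).card * pd T I (greedy I T) t B) := by
  have h1 := hD.pd_enough h t ht hB
  have h2 := cnt_eq hD.nodup (greedy I T) t B hB
  rw [← pow_mul] at h2
  have h3 : (((2 ^ h - 1) * (Om T I).card * cnt T I (greedy I T) t B : ℕ) : ℝ) =
      2 ^ (2 * wid T * t) * ((2 ^ h - 1) * (Om T I).card * pd T I (greedy I T) t B) := by
    rw [Nat.cast_mul, Nat.cast_mul, Nat.cast_sub Nat.one_le_two_pow, h2]
    push_cast
    ring
  have h4 : (2 ^ h - 1) * (Om T I).card * cnt T I (greedy I T) t B ≤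
      2 ^ h * 2 ^ (2 * wid T * t) := by
    have : (((2 ^ h - 1) * (Om T I).card * cnt T I (greedy I T) t B : ℕ) : ℝ) ≤
        ((2 ^ h * 2 ^ (2 * wid T * t) : ℕ) : ℝ) := by
      rw [h3]
      push_cast
      rw [mul_comm (2 ^ h : ℝ)]
      exact mul_le_mul_of_nonneg_left h1 (by positivity)
    exact_mod_cast this
  unfold wgt
  rw [Nat.cast_sub h4, h3]
  push_cast
  ring

theorem wgt_sum {t h : ℕ} (ht : 2 * (T.length + h) * 2 ^ (2 * wid T) ≤ t) :
    ∑ B ∈ Om T I, hD.wgt h t B = (Om T I).card * 2 ^ (2 * wid T * t) := by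
  have h1 : ((∑ B ∈ Om T I, hD.wgt h t B : ℕ) : ℝ) =
      (((Om T I).card * 2 ^ (2 * wid T * t) : ℕ) : ℝ) := by
    rw [Nat.cast_sum, sum_congr rfl fun B hB => hD.wgt_real ht hB, ← mul_sum, sum_sub_distrib,
      ← mul_sum, hD.pd_sum, sum_const, nsmul_eq_mul]
    push_cast
    ring
  exact_mod_cast h1

end Desc

end Pool.Agent.P8H86.ST
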