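import Pool.Agent.P8H86.ST.Face

/-!
# Spanning trees and bases
-/

set_option autoImplicit false

namespace Pool.Agent.P8H86.ST

open Finset Pool.Agent.NPC

/-- the list of the top faces of a subcomplex -/
def BU (L : List (List ℕ)) (U : Finset (Finset ℕ)) : List (List ℕ) :=
  (top L).filter fun f => decide (f.toFinset ∈ U)

theorem mem_BU {L : List (List ℕ)} {U : Finset (Finset ℕ)} {f : List ℕ} :
    f ∈ BU L U ↔ f ∈ top L ∧ f.toFinset ∈ U := by
  unfold BU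
  rw [List.mem_filter, decide_eq_true_eq]

theorem BU_sub (L : List (List ℕ)) (U : Finset (Finset ℕ)) : (BU L U).Sublist (top L) :=
  List.filter_sublist

/-- the subcomplex of a list of top faces -/
def UB (L B : List (List ℕ)) : Finset (Finset ℕ) := ((low L ++ B).map List.toFinset).toFinset

theorem mem_UB {L B : List (List ℕ)} {σ : Finset ℕ} :
    σ ∈ UB L B ↔ (∃ f ∈ low L, f.toFinset = σ) ∨ ∃ f ∈ B, f.toFinset = σ := by
  unfold UB
  rw [List.mem_toFinset, List.map_append, List.mem_append, List.mem_map, List.mem_map]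

namespace Sit

variable {L : List (List ℕ)} {Δ : Finset (Finset ℕ)} {d : ℕ} (h : Sit L Δ d)

include h

omit h in
theorem mem_trees {U : Finset (Finset ℕ)} : U ∈ trees Δ d ↔ IsSpanningTree Δ d U := by
  classical
  unfold trees
  rw [mem_filter, mem_powerset]
  exact ⟨fun h => h.2, fun h => ⟨h.1, h⟩⟩

theorem top_inj {f g : List ℕ} (hf : f ∈ top L) (hg : g ∈ top L)
    (he : f.toFinset = g.toFinset) : f = g :=
  h.inj (h.mem_top.1 hf).1 (h.mem_top.1 hg).1 he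

theorem BU_UB {B : List (List ℕ)} (hB : B.Sublist (top L)) : BU L (UB L B) = B := by
  refine eq_of_mem_iff h.top_nodup (BU_sub _ _) hB fun f hf => ?_
  rw [mem_BU, mem_UB]
  constructor
  · rintro ⟨-, ⟨g, hg, he⟩ | ⟨g, hg, he⟩⟩
    · have h1 := h.mem_low.1 hg
      have h2 := h.mem_top.1 hf
      have h3 := h.inj h1.1 h2.1 he
      subst h3
      omega
    · rw [← h.top_inj (hB.subset hg) hf he]
      exact hg
  · intro hfB
    exact ⟨hf, Or.inr ⟨f, hfB, rfl⟩⟩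

theorem UB_BU {U : Finset (Finset ℕ)} (hU : U ⊆ Δ) (hlow : ∀ σ ∈ Δ, σ.card ≤ d → σ ∈ U) :
    UB L (BU L U) = U := by
  ext σ
  rw [mem_UB]
  constructor
  · rintro (⟨f, hf, rfl⟩ | ⟨f, hf, rfl⟩)
    · have h1 := h.mem_low.1 hf
      exact hlow _ (h.mem h1.1) (by rw [h.card_eq h1.1]; exact h1.2)
    · exact (mem_BU.1 hf).2
  · intro hσ
    obtain ⟨f, hf, rfl⟩ := h.mem_iff.1 (hU hσ)
    by_cases hc : f.length ≤ d
    · exact Or.inl ⟨f, h.mem_low.2 ⟨hf, hc⟩, rfl⟩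
    · have := h.len_le hf
      exact Or.inr ⟨f, mem_BU.2 ⟨h.mem_top.2 ⟨hf, by omega⟩, hσ⟩, rfl⟩

theorem faces_UB {B : List (List ℕ)} (hB : B.Sublist (top L)) (σ : Finset ℕ) :
    σ ∈ facesOf (UB L B) d ↔ ∃ f ∈ B, f.toFinset = σ := by
  unfold facesOf
  rw [mem_filter, mem_UB]
  constructor
  · rintro ⟨⟨f, hf, rfl⟩ | h1, h2⟩
    · have h3 := h.mem_low.1 hf
      rw [h.card_eq h3.1] at h2
      omega
    · exact h1
  · rintro ⟨f, hf, rfl⟩
    have h1 := h.mem_top.1 (hB.subset hf)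
    exact ⟨Or.inr ⟨f, hf, rfl⟩, by rw [h.card_eq h1.1, h1.2]⟩

theorem faces_Δ (σ : Finset ℕ) : σ ∈ facesOf Δ d ↔ ∃ f ∈ top L, f.toFinset = σ := by
  unfold facesOf
  rw [mem_filter, h.mem_iff]
  constructor
  · rintro ⟨⟨f, hf, rfl⟩, hc⟩
    rw [h.card_eq hf] at hc
    exact ⟨f, h.mem_top.2 ⟨hf, hc⟩, rfl⟩
  · rintro ⟨f, hf, rfl⟩
    have h1 := h.mem_top.1 hf
    exact ⟨⟨f, h1.1, rfl⟩, by rw [h.card_eq h1.1, h1.2]⟩

theorem indep_UB {B : List (List ℕ)} (hB : B.Sublist (top L)) :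
    LinearIndepOn ℚ bdry (facesOf (UB L B) d : Set (Finset ℕ)) ↔
      LinearIndepOn ℚ (vec L) ((toS (top L) B : Finset {x // x ∈ top L}) : Set _) := by
  let e : ((toS (top L) B : Finset {x // x ∈ top L}) : Set {x // x ∈ top L}) ≃
      (facesOf (UB L B) d : Set (Finset ℕ)) :=
    Equiv.ofBijective (fun x => ⟨x.1.1.toFinset, mem_coe.2 ((h.faces_UB hB _).2
      ⟨x.1.1, mem_toS.1 (mem_coe.1 x.2), rfl⟩)⟩) (by
      constructor
      · intro x y hxy
        have h1 : x.1.1.toFinset = y.1.1.toFinset := congrArg (fun z => z.1) hxy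
        exact Subtype.ext (Subtype.ext (h.top_inj x.1.2 y.1.2 h1))
      · rintro ⟨σ, hσ⟩
        obtain ⟨f, hf, rfl⟩ := (h.faces_UB hB σ).1 (mem_coe.1 hσ)
        exact ⟨⟨⟨f, hB.subset hf⟩, mem_coe.2 (mem_toS.2 hf)⟩, rfl⟩)
  have := linearIndependent_equiv e (R := ℚ)
    (f := fun σ : (facesOf (UB L B) d : Set (Finset ℕ)) => bdry σ.1)
  unfold LinearIndepOn
  rw [← this]
  rfl

theorem span_UB {B : List (List ℕ)} (hB : B.Sublist (top L)) :
    bdry '' (facesOf (UB L B) d : Set (Finset ℕ)) =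
      vec L '' ((toS (top L) B : Finset {x // x ∈ top L}) : Set _) := by
  ext w
  constructor
  · rintro ⟨σ, hσ, rfl⟩
    obtain ⟨f, hf, rfl⟩ := (h.faces_UB hB σ).1 (mem_coe.1 hσ)
    exact ⟨⟨f, hB.subset hf⟩, mem_coe.2 (mem_toS.2 hf), rfl⟩
  · rintro ⟨x, hx, rfl⟩
    exact ⟨x.1.toFinset, mem_coe.2 ((h.faces_UB hB _).2 ⟨x.1, mem_toS.1 (mem_coe.1 hx), rfl⟩), rfl⟩

theorem span_Δ : bdry '' (facesOf Δ d : Set (Finset ℕ)) = Set.range (vec L) := by
  ext w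
  constructor
  · rintro ⟨σ, hσ, rfl⟩
    obtain ⟨f, hf, rfl⟩ := (h.faces_Δ σ).1 (mem_coe.1 hσ)
    exact ⟨⟨f, hf⟩, rfl⟩
  · rintro ⟨x, rfl⟩
    exact ⟨x.1.toFinset, mem_coe.2 ((h.faces_Δ _).2 ⟨x.1, x.2, rfl⟩), rfl⟩

theorem UB_sub {B : List (List ℕ)} (hB : B.Sublist (top L)) : UB L B ⊆ Δ := by
  intro σ hσ
  rcases mem_UB.1 hσ with ⟨f, hf, rfl⟩ | ⟨f, hf, rfl⟩
  · exact h.mem (h.mem_low.1 hf).1
  · exact h.mem (h.mem_top.1 (hB.subset hf)).1

theorem UB_low {B : List (List ℕ)} {σ : Finset ℕ} (hσ : σ ∈ Δ) (hc : σ.card ≤ d) :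
    σ ∈ UB L B := by
  obtain ⟨f, hf, rfl⟩ := h.mem_iff.1 hσ
  rw [h.card_eq hf] at hc
  exact mem_UB.2 (Or.inl ⟨f, h.mem_low.2 ⟨hf, hc⟩, rfl⟩)

theorem UB_complex {B : List (List ℕ)} (hB : B.Sublist (top L)) : IsComplex (UB L B) := by
  refine ⟨fun h0 => h.cx.1 (h.UB_sub hB h0), fun σ hσ τ hτ hne => ?_⟩
  by_cases he : τ = σ
  · rw [he]
    exact hσ
  · have h1 := h.UB_sub hB hσ
    have h2 := h.cx.2 σ h1 τ hτ hne
    refine h.UB_low h2 ?_
    have h3 := card_lt_card (ssubset_of_subset_of_ne hτ he)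
    have h4 := h.dim.1 σ h1
    omega

theorem tree_iff {B : List (List ℕ)} (hB : B.Sublist (top L)) :
    IsSpanningTree Δ d (UB L B) ↔ B ∈ Om (top L) (ind L) := by
  rw [mem_Om, h.desc.greedy_len, h.desc.ind B hB, ofVec_ind]
  unfold IsSpanningTree
  rw [h.indep_UB hB, h.span_UB hB, h.span_Δ]
  constructor
  · rintro ⟨-, -, -, h1, h2⟩
    refine ⟨hB, ?_, h1⟩
    rw [← toS_card h.top_nodup hB]
    exact (ofVec_span h1).2 h2
  · rintro ⟨-, h1, h2⟩
    refine ⟨h.UB_sub hB, h.UB_complex hB, fun σ hσ hc => h.UB_low hσ hc, h2, ?_⟩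
    rw [← toS_card h.top_nodup hB] at h1
    exact (ofVec_span h2).1 h1

theorem BU_mem {U : Finset (Finset ℕ)} (hU : U ∈ trees Δ d) : BU L U ∈ Om (top L) (ind L) := by
  have h1 := mem_trees.1 hU
  have h2 := h.UB_BU h1.1 h1.2.2.1
  rw [← h.tree_iff (BU_sub L U), h2]
  exact h1

theorem card_trees : (trees Δ d).card = (Om (top L) (ind L)).card := by
  refine card_nbij' (BU L) (UB L) (fun U hU => h.BU_mem hU) (fun B hB => ?_) (fun U hU => ?_)
    (fun B hB => ?_)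
  · have hBs := (mem_Om.1 (mem_coe.1 hB)).1
    exact mem_coe.2 (mem_trees.2 ((h.tree_iff hBs).2 (mem_coe.1 hB)))
  · have h1 := mem_trees.1 (mem_coe.1 hU)
    exact h.UB_BU h1.1 h1.2.2.1
  · exact h.BU_UB (mem_Om.1 (mem_coe.1 hB)).1

/-- the output is correct -/
theorem codes_iff {U : Finset (Finset ℕ)} (hU : U ∈ trees Δ d) {B : List (List ℕ)}
    (hB : B.Sublist (top L)) : bits (low L ++ B) ∈ Codes U ↔ B = BU L U := by
  have hU1 := mem_trees.1 hU
  constructor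
  · rintro ⟨L', h1, h2⟩
    have h3 := bits_injective h1
    subst h3
    rw [h2.2.2]
    exact (h.BU_UB hB).symm
  · rintro rfl
    refine ⟨_, rfl, ?_, ?_, ?_⟩
    · rw [List.nodup_append]
      refine ⟨h.lists.1.sublist List.filter_sublist, h.top_nodup.sublist hB, ?_⟩
      rintro f hf g hg rfl
      have h4 := h.mem_low.1 hf
      have h5 := h.mem_top.1 (hB.subset hg)
      omega
    · intro f hf
      rcases List.mem_append.1 hf with h4 | h4
      · exact h.sorted (h.mem_low.1 h4).1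
      · exact h.sorted (h.mem_top.1 (hB.subset h4)).1
    · exact (h.UB_BU hU1.1 hU1.2.2.1).symm

end Sit

end Pool.Agent.P8H86.ST
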