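import Pool.Agent.P8H86.ST.Prob
import Pool.Agent.P8H86.ST.Sel
import Pool.Agent.P8H86.ST.Trees

/-!
# The process of the algorithm
-/

set_option autoImplicit false

namespace Pool.Agent.P8H86.ST

open Finset Pool.Agent.NPC
open scoped Classical

/-- the length of the padding -/
def pad (L : List (List ℕ)) (c : ℕ) : ℕ → ℕ
  | 0 => pp L c
  | k + 1 => if pad L c k < 2 ^ (top L).length then pad L c k + pad L c k else pad L c k

/-- the states of the algorithm -/
def ust (L : List (List ℕ)) (c : ℕ) : ℕ → List Bool
  | 0 => bits ((false, L, List.replicate c (), List.replicate (pp L c) ()) : State)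
  | k + 1 => bits ((true, L, List.replicate c (), List.replicate (pad L c k) ()) : State)

/-- the outcomes of the stages -/
noncomputable def oust (L : List (List ℕ)) (c : ℕ) : ℕ → List Bool → Option (List Bool)
  | 0, r => if (r.take (hh L c)).all id then none else some (bits (low L ++ wlk L c r))
  | k + 1, r => if pad L c k < 2 ^ (top L).length then none else
      (dsel L c (pad L c k) r).map fun B => bits (low L ++ B)

theorem oust_zero (L : List (List ℕ)) (c : ℕ) (r : List Bool) : oust L c 0 r =
    if (r.take (hh L c)).all id = true then none else some (bits (low L ++ wlk L c r)) := rfl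

theorem oust_succ (L : List (List ℕ)) (c k : ℕ) (r : List Bool) : oust L c (k + 1) r =
    if pad L c k < 2 ^ (top L).length then none else
      (dsel L c (pad L c k) r).map fun B => bits (low L ++ B) := rfl

/-- the process -/
noncomputable def proc (L : List (List ℕ)) (c : ℕ) : Proc := ⟨ust L c, oust L c⟩

theorem stageB_eq (s : State) (r : List Bool) : stageB (pairBits (bits s) r) = stage (s, r) := by
  unfold stageB
  rw [unpair_pairBits, unbits_bits]
  rfl

theorem proc_works (L : List (List ℕ)) (c : ℕ) : (proc L c).Works stageB := by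
  intro i r _
  cases i with
  | zero =>
    change stageB (pairBits (bits ((false, L, List.replicate c (),
      List.replicate (pp L c) ()) : State)) r) = match oust L c 0 r with
      | none => false :: ust L c 1
      | some y => true :: y
    rw [stageB_eq]
    unfold stage oust
    simp only [cond_false, List.length_replicate]
    by_cases h : (r.take (hh L c)).all id = true
    · rw [h, if_pos rfl]
      rfl
    · rw [if_neg h, Bool.eq_false_iff.2 h]
      rfl
  | succ k =>
    change stageB (pairBits (bits ((true, L, List.replicate c (),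
      List.replicate (pad L c k) ()) : State)) r) = match oust L c (k + 1) r with
      | none => false :: ust L c (k + 2)
      | some y => true :: y
    rw [stageB_eq]
    unfold stage oust
    simp only [cond_true, List.length_replicate]
    by_cases h : pad L c k < 2 ^ (top L).length
    · rw [decide_eq_true h, cond_true, if_pos h]
      have : pad L c (k + 1) = pad L c k + pad L c k := if_pos h
      simp only [ust, this, List.replicate_append_replicate]
    · rw [decide_eq_false h, cond_false, if_neg h]
      have : pad L c (k + 1) = pad L c k := if_neg h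
      cases dsel L c (pad L c k) r with
      | none => simp only [ust, this]; rfl
      | some B => rfl

/-! ### The padding -/

section

variable (L : List (List ℕ)) (c : ℕ)

theorem pad_ge (k : ℕ) : 2 ^ (top L).length ≤ pad L c k ∨ 2 ^ k ≤ pad L c k := by
  induction k with
  | zero =>
    right
    change 1 ≤ pp L c
    unfold pp
    omega
  | succ k ih =>
    by_cases h : pad L c k < 2 ^ (top L).length
    · have e : pad L c (k + 1) = pad L c k + pad L c k := if_pos h
      rw [e, pow_succ]
      omega
    · have e : pad L c (k + 1) = pad L c k := if_neg h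
      rw [e]
      omega

theorem pad_mono (k : ℕ) : pp L c ≤ pad L c k := by
  induction k with
  | zero => exact le_rfl
  | succ k ih =>
    by_cases h : pad L c k < 2 ^ (top L).length
    · have e : pad L c (k + 1) = pad L c k + pad L c k := if_pos h
      omega
    · have e : pad L c (k + 1) = pad L c k := if_neg h
      omega

theorem pad_le (k : ℕ) : pad L c k ≤ pp L c + 2 * 2 ^ (top L).length := by
  induction k with
  | zero => exact Nat.le_add_right _ _
  | succ k ih =>
    by_cases h : pad L c k < 2 ^ (top L).length
    · have e : pad L c (k + 1) = pad L c k + pad L c k := if_pos h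
      omega
    · have e : pad L c (k + 1) = pad L c k := if_neg h
      omega

theorem pad_ex : ∃ k, 2 ^ (top L).length ≤ pad L c k :=
  ⟨(top L).length, (pad_ge L c _).elim id id⟩

/-- the number of doublings -/
def k0 : ℕ := Nat.find (pad_ex L c)

theorem k0_spec : 2 ^ (top L).length ≤ pad L c (k0 L c) := Nat.find_spec (pad_ex L c)

theorem k0_le : k0 L c ≤ (top L).length :=
  Nat.find_min' _ ((pad_ge L c _).elim id id)

theorem k0_min {k : ℕ} (hk : k < k0 L c) : pad L c k < 2 ^ (top L).length :=
  not_le.1 (Nat.find_min (pad_ex L c) hk)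

theorem pad_const (j : ℕ) : pad L c (k0 L c + j) = pad L c (k0 L c) := by
  induction j with
  | zero => rfl
  | succ j ih =>
    have h := k0_spec L c
    rw [← ih] at h
    have e : pad L c (k0 L c + j + 1) = pad L c (k0 L c + j) := if_neg (not_lt.2 h)
    rw [← add_assoc, e, ih]

theorem sz_unit_rep (n : ℕ) : sz (List.replicate n ()) = 2 * n + 1 := by
  induction n with
  | zero => simp
  | succ n ih =>
    rw [List.replicate_succ, sz_list_cons, ih, sz_unit]
    ring

theorem ust_zero_len : (ust L c 0).length =
    1 + (sz L + (sz (List.replicate c ()) + (2 * pp L c + 1) + 1) + 1) + 1 := by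
  change (bits _).length = _
  rw [bits_length, sz_pair, sz_pair, sz_pair, sz_unit_rep (pp L c)]
  rfl

theorem ust_succ_len (k : ℕ) : (ust L c (k + 1)).length =
    3 + (sz L + (sz (List.replicate c ()) + (2 * pad L c k + 1) + 1) + 1) + 1 := by
  change (bits _).length = _
  rw [bits_length, sz_pair, sz_pair, sz_pair, sz_unit_rep (pad L c k)]
  rfl

end

/-! ### The numbers -/

theorem tt_ge (L : List (List ℕ)) (c : ℕ) (hne : top L ≠ []) :
    2 * ((top L).length + hh L c) * 2 ^ (2 * wid (top L)) ≤ tt L c := by
  have h1 := (wid_spec (top L)).2 hne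
  have h2 : 2 ^ (2 * wid (top L)) ≤ (4 * (top L).length) * (4 * (top L).length) := by
    rw [two_mul, pow_add]
    exact Nat.mul_le_mul h1 h1
  unfold tt
  calc 2 * ((top L).length + hh L c) * 2 ^ (2 * wid (top L))
      ≤ 2 * ((top L).length + hh L c) * ((4 * (top L).length) * (4 * (top L).length)) :=
        Nat.mul_le_mul_left _ h2
    _ = 32 * ((top L).length + hh L c) * ((top L).length * (top L).length) := by ring

theorem avg_all (n : ℕ) : avg n (fun l => if l.all id = true then (1 : ℝ) else 0) =
    (1 / 2) ^ n := by
  induction n with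
  | zero => simp [avg]
  | succ n ih =>
    have h1 : avg n (fun l => if (false :: l).all id = true then (1 : ℝ) else 0) = 0 := by
      refine (avg_congr (ψ := fun _ => 0) fun l _ => ?_).trans (avg_const _ _)
      simp
    have h2 : avg n (fun l => if (true :: l).all id = true then (1 : ℝ) else 0) = (1 / 2) ^ n := by
      rw [← ih]
      refine avg_congr fun l _ => ?_
      simp
    rw [avg, h1, h2, pow_succ]
    ring

section

variable {L : List (List ℕ)} {Δ : Finset (Finset ℕ)} {d : ℕ} (h : Sit L Δ d) (c : ℕ)

theorem len0_ge (L : List (List ℕ)) (c : ℕ) :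
    hh L c + 2 * wid (top L) * tt L c ≤ (ust L c 0).length := by
  rw [ust_zero_len]
  unfold pp
  omega

theorem proc_c0 (L : List (List ℕ)) (c : ℕ) : (proc L c).c 0 = (1 / 2) ^ hh L c := by
  unfold Proc.c
  change avg (ust L c 0).length (fun r => if oust L c 0 r = none then (1 : ℝ) else 0) = _
  rw [← avg_all, ← avg_take (show hh L c ≤ (ust L c 0).length by
    have := len0_ge L c
    omega) fun l => if l.all id = true then (1 : ℝ) else 0]
  refine avg_congr fun r _ => ?_
  rw [oust_zero]
  by_cases h : (r.take (hh L c)).all id = true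
  · rw [if_pos h, if_pos rfl, if_pos h]
  · rw [if_neg h, if_neg (by simp), if_neg h]

include h

theorem wlk_mem (r : List Bool) : wlk L c r ∈ Om (top L) (ind L) :=
  walk_mem h.top_nodup h.desc.greedy_mem _ _

theorem proc_g0 {U : Finset (Finset ℕ)} (hU : U ∈ trees Δ d) : (proc L c).g 0 (Codes U) =
    (1 - (1 / 2) ^ hh L c) * pd (top L) (ind L) (greedy (ind L) (top L)) (tt L c) (BU L U) := by
  unfold Proc.g
  change avg (ust L c 0).length
    (fun r => if ∃ y ∈ Codes U, oust L c 0 r = some y then (1 : ℝ) else 0) = _
  obtain ⟨n', hn'⟩ := Nat.exists_eq_add_of_le (show hh L c ≤ (ust L c 0).length by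
    have := len0_ge L c
    omega)
  have hn2 : 2 * wid (top L) * tt L c ≤ n' := by
    have := len0_ge L c
    omega
  rw [hn', avg_append]
  have h1 : ∀ l : List Bool, l.length = hh L c →
      avg n' (fun l' => if ∃ y ∈ Codes U, oust L c 0 (l ++ l') = some y then (1 : ℝ) else 0) =
        (1 - if l.all id = true then 1 else 0) *
          pd (top L) (ind L) (greedy (ind L) (top L)) (tt L c) (BU L U) := by
    intro l hl
    rw [← avg_walk h.top_nodup h.desc.greedy_mem (tt L c) n' hn2 (BU L U) (h.BU_mem hU),
      ← avg_mul]
    refine avg_congr fun l' _ => ?_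
    have e1 : (l ++ l').take (hh L c) = l := List.take_left' hl
    have e2 : (l ++ l').drop (hh L c) = l' := List.drop_left' hl
    rw [oust_zero, e1]
    by_cases hall : l.all id = true
    · rw [if_pos hall, if_pos hall, if_neg (by simp)]
      ring
    · rw [if_neg hall, if_neg hall, sub_zero, one_mul]
      refine if_congr ?_ rfl rfl
      have hw : wlk L c (l ++ l') = walk (top L) (ind L) (greedy (ind L) (top L)) (tt L c) l' := by
        unfold wlk
        rw [e2]
      rw [← hw, ← h.codes_iff hU (mem_Om.1 (wlk_mem h c (l ++ l'))).1]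
      constructor
      · rintro ⟨y, hy, he⟩
        rw [Option.some.injEq] at he
        rw [he]
        exact hy
      · intro hy
        exact ⟨_, hy, rfl⟩
  rw [avg_congr h1, avg_mul']
  congr 1
  have h2 : avg (hh L c) (fun l => 1 - if l.all id = true then (1 : ℝ) else 0) =
      avg (hh L c) (fun l => 1 + -1 * if l.all id = true then (1 : ℝ) else 0) :=
    avg_congr fun l _ => by ring
  rw [h2, avg_add, avg_const, avg_mul, avg_all]
  ring

/-- the final length of the padding -/
theorem fin_len : 2 ^ (top L).length ≤ pad L c (k0 L c) ∧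
    2 * wid (top L) * tt L c ≤ pad L c (k0 L c) := by
  refine ⟨k0_spec L c, ?_⟩
  have := pad_mono L c (k0 L c)
  unfold pp at this
  omega

theorem wt_eq : wt L c (pad L c (k0 L c)) = (bl (pad L c (k0 L c)) (ind L) (top L)).map
    fun B => (B, h.desc.wgt (hh L c) (tt L c) B) :=
  h.desc.wts_eq (fin_len h c).1 (fin_len h c).2

theorem wt_sum : ((wt L c (pad L c (k0 L c))).map Prod.snd).sum =
    (Om (top L) (ind L)).card * 2 ^ (2 * wid (top L) * tt L c) := by
  obtain ⟨h1, h2⟩ := h.desc.bl_eq (fin_len h c).1
  rw [wt_eq h c, List.map_map, ← h.desc.wgt_sum (tt_ge L c h.top_ne), ← h2,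
    List.sum_toFinset _ h1]
  rfl

theorem card_pos' : 0 < (Om (top L) (ind L)).card := card_pos.2 ⟨_, h.desc.greedy_mem⟩

theorem bits_le : ((wt L c (pad L c (k0 L c))).map Prod.snd).sum.bits.length ≤
    (ust L c (k0 L c + 1)).length := by
  have h1 : ((wt L c (pad L c (k0 L c))).map Prod.snd).sum.bits.length ≤
      (top L).length + 2 * wid (top L) * tt L c + 1 := by
    rw [Nat.size_eq_bits_len, wt_sum h c, Nat.size_le]
    have := h.desc.card_Om_le
    calc (Om (top L) (ind L)).card * 2 ^ (2 * wid (top L) * tt L c)
        ≤ 2 ^ (top L).length * 2 ^ (2 * wid (top L) * tt L c) := Nat.mul_le_mul_right _ this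
      _ = 2 ^ ((top L).length + 2 * wid (top L) * tt L c) := by rw [pow_add]
      _ < 2 ^ ((top L).length + 2 * wid (top L) * tt L c + 1) :=
          Nat.pow_lt_pow_right (by norm_num) (by omega)
  refine h1.trans ?_
  rw [ust_succ_len]
  have := pad_mono L c (k0 L c)
  unfold pp at this
  omega

theorem proc_cK : (proc L c).c (k0 L c + 1) =
    1 - ((Om (top L) (ind L)).card * 2 ^ (2 * wid (top L) * tt L c) : ℕ) /
      2 ^ ((wt L c (pad L c (k0 L c))).map Prod.snd).sum.bits.length := by
  rw [← wt_sum h c, ← avg_selc_none _ _ (bits_le h c)]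
  unfold Proc.c
  change avg (ust L c (k0 L c + 1)).length
    (fun r => if oust L c (k0 L c + 1) r = none then (1 : ℝ) else 0) = _
  refine avg_congr fun r _ => ?_
  rw [oust_succ, if_neg (not_lt.2 (k0_spec L c))]
  refine if_congr ?_ rfl rfl
  rw [Option.map_eq_none_iff]
  rfl

theorem proc_gK {U : Finset (Finset ℕ)} (hU : U ∈ trees Δ d) :
    (proc L c).g (k0 L c + 1) (Codes U) = h.desc.wgt (hh L c) (tt L c) (BU L U) /
      2 ^ ((wt L c (pad L c (k0 L c))).map Prod.snd).sum.bits.length := by
  obtain ⟨h1, h2⟩ := h.desc.bl_eq (fin_len h c).1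
  have hv : ((wt L c (pad L c (k0 L c))).map fun p => if p.1 = BU L U then p.2 else 0).sum =
      h.desc.wgt (hh L c) (tt L c) (BU L U) := by
    rw [wt_eq h c, List.map_map]
    have e : (((bl (pad L c (k0 L c)) (ind L) (top L)).map
        ((fun p : List (List ℕ) × ℕ => if p.1 = BU L U then p.2 else 0) ∘ fun B =>
          (B, h.desc.wgt (hh L c) (tt L c) B))).sum) =
        ∑ B ∈ Om (top L) (ind L), if B = BU L U then h.desc.wgt (hh L c) (tt L c) B else 0 := by
      rw [← h2, List.sum_toFinset _ h1]
      rfl
    rw [e, sum_ite_eq', if_pos (h.BU_mem hU)]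
  rw [← hv, ← avg_selc _ _ (bits_le h c)]
  unfold Proc.g
  change avg (ust L c (k0 L c + 1)).length
    (fun r => if ∃ y ∈ Codes U, oust L c (k0 L c + 1) r = some y then (1 : ℝ) else 0) = _
  refine avg_congr fun r _ => ?_
  rw [oust_succ, if_neg (not_lt.2 (k0_spec L c))]
  refine if_congr ?_ rfl rfl
  change (∃ y ∈ Codes U, (dsel L c (pad L c (k0 L c)) r).map (fun B => bits (low L ++ B)) =
    some y) ↔ dsel L c (pad L c (k0 L c)) r = some (BU L U)
  constructor
  · rintro ⟨y, hy, he⟩
    obtain ⟨B, hB, rfl⟩ := Option.map_eq_some_iff.1 he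
    rw [hB]
    congr 1
    have hmem : B ∈ Om (top L) (ind L) := by
      have hsel : ∀ (z : ℕ) (v : List (List (List ℕ) × ℕ)) (x : List (List ℕ)),
          (selc z v).2 = some x → x ∈ v.map Prod.fst := by
        intro z v
        induction v with
        | nil => intro x hx; simp [selc] at hx
        | cons q v ih =>
          intro x hx
          rw [selc_cons] at hx
          cases hb : decide ((selc z v).1 ≤ z) && decide (z < (selc z v).1 + q.2) with
          | true =>
            rw [hb, cond_true, Option.some.injEq] at hx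
            rw [← hx]
            simp
          | false =>
            rw [hb, cond_false] at hx
            rw [List.map_cons]
            exact List.mem_cons_of_mem _ (ih x hx)
      have h3 := hsel _ _ _ hB
      rw [wt_eq h c, List.map_map] at h3
      obtain ⟨B', hB', he'⟩ := List.mem_map.1 h3
      have : B' = B := he'
      rw [← this, ← h2, List.mem_toFinset]
      exact hB'
    exact (h.codes_iff hU (mem_Om.1 hmem).1).1 hy
  · intro he
    exact ⟨_, (h.codes_iff hU (BU_sub L U)).2 rfl, by rw [he]; rfl⟩

theorem proc_tail : Tail (proc L c) (k0 L c + 1) where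
  pos := by omega
  mid := by
    intro i h1 h2 r
    obtain ⟨k, rfl⟩ : ∃ k, i = k + 1 := ⟨i - 1, by omega⟩
    change oust L c (k + 1) r = none
    rw [oust_succ, if_pos (k0_min L c (by omega))]
  u := by
    intro j
    rw [show k0 L c + 1 + j = (k0 L c + j) + 1 by ring]
    change ust L c (k0 L c + j + 1) = ust L c (k0 L c + 1)
    simp only [ust]
    rw [pad_const]
  out := by
    intro j
    rw [show k0 L c + 1 + j = (k0 L c + j) + 1 by ring]
    change oust L c (k0 L c + j + 1) = oust L c (k0 L c + 1)
    funext r
    simp only [oust]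
    rw [pad_const]
  half := by
    rw [proc_cK h c]
    set D := (Om (top L) (ind L)).card * 2 ^ (2 * wid (top L) * tt L c) with hD
    rw [wt_sum h c, ← hD, Nat.size_eq_bits_len]
    have hpos : 0 < D := Nat.mul_pos (card_pos' h) (by positivity)
    have h1 : 0 < D.size := Nat.size_pos.2 hpos
    obtain ⟨k, hk⟩ := Nat.exists_eq_succ_of_ne_zero h1.ne'
    have h2 : 2 ^ k ≤ D := Nat.lt_size.1 (by omega)
    rw [hk]
    have h3 : (2 : ℝ) ^ k ≤ D := by exact_mod_cast h2
    have h4 : (1 : ℝ) / 2 ≤ D / 2 ^ (k + 1) := by
      rw [div_le_div_iff₀ (by norm_num) (by positivity), pow_succ]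
      linarith
    have h5 : (k.succ : ℕ) = k + 1 := rfl
    rw [h5]
    linarith

/-- **The output is exactly uniform.** -/
theorem uniform {U : Finset (Finset ℕ)} (hU : U ∈ trees Δ d) :
    (proc L c).g 0 (Codes U) + (proc L c).c 0 * (proc L c).g (k0 L c + 1) (Codes U) /
      (1 - (proc L c).c (k0 L c + 1)) = 1 / (trees Δ d).card := by
  rw [proc_g0 h c hU, proc_gK h c hU, proc_cK h c, proc_c0, h.card_trees,
    h.desc.wgt_real (tt_ge L c h.top_ne) (h.BU_mem hU)]
  set κ := ((wt L c (pad L c (k0 L c))).map Prod.snd).sum.bits.length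
  set s := 2 * wid (top L) * tt L c
  set p := pd (top L) (ind L) (greedy (ind L) (top L)) (tt L c) (BU L U)
  have hN : (0 : ℝ) < ((Om (top L) (ind L)).card : ℝ) := by exact_mod_cast card_pos' h
  set N := ((Om (top L) (ind L)).card : ℝ)
  have e1 : (1 : ℝ) - (1 - ((Om (top L) (ind L)).card * 2 ^ s : ℕ) / 2 ^ κ) = N * 2 ^ s / 2 ^ κ := by
    push_cast
    ring
  rw [e1, one_div_pow]
  field_simp
  ring

end

end Pool.Agent.P8H86.ST
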