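import Pool.Agent.P8H86.ST.PolyList
import Pool.Agent.H670R2.GramPoly
import Pool.Agent.H671R2.Search
import Pool.Agent.H622R2.CoNP

/-!
# The stages of the algorithm
-/

set_option autoImplicit false

namespace Pool.Agent.P8H86.ST

open Pool.Agent.NPC

/-- the coefficient of the face `g` in the boundary of the face `f` -/
def coef (f g : List ℕ) : ℤ :=
  (f.map fun v => bif decide (g = f.filter fun w => !decide (w = v)) then
    (bif decide ((f.filter fun w => decide (w < v)).length % 2 = 0) then (1 : ℤ) else -1)
    else 0).sum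

/-- the independence of a list of faces -/
def ind (L : List (List ℕ)) (B : List (List ℕ)) : Bool :=
  !decide (H670R2.gdet (B.map fun f => L.map fun g => coef f g) = 0)

/-- the faces of maximal dimension -/
def top (L : List (List ℕ)) : List (List ℕ) :=
  L.filter fun f => L.all fun g => decide (g.length ≤ f.length)

/-- the other faces -/
def low (L : List (List ℕ)) : List (List ℕ) :=
  L.filter fun f => !(L.all fun g => decide (g.length ≤ f.length))

/-- the rarity of the correction -/
def hh (L : List (List ℕ)) (c : ℕ) : ℕ := c * (top L).length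

/-- the number of steps of the walk -/
def tt (L : List (List ℕ)) (c : ℕ) : ℕ :=
  32 * ((top L).length + hh L c) * ((top L).length * (top L).length)

/-- the initial length of the padding -/
def pp (L : List (List ℕ)) (c : ℕ) : ℕ :=
  2 * wid (top L) * tt L c + hh L c + (top L).length + 2

/-- the states -/
abbrev State : Type := Bool × List (List ℕ) × List Unit × List Unit

/-- the weights of the correction -/
def wt (L : List (List ℕ)) (c N : ℕ) : List (List (List ℕ) × ℕ) :=
  wts N (ind L) (top L) (tt L c) (hh L c)

/-- the selection in the correction -/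
def dsel (L : List (List ℕ)) (c N : ℕ) (r : List Bool) : Option (List (List ℕ)) :=
  (selc (valB (r.take (((wt L c N).map Prod.snd).sum.bits.length))) (wt L c N)).2

/-- the main walk -/
def wlk (L : List (List ℕ)) (c : ℕ) (r : List Bool) : List (List ℕ) :=
  walk (top L) (ind L) (greedy (ind L) (top L)) (tt L c) (r.drop (hh L c))

/-- one stage -/
def stage (q : State × List Bool) : List Bool :=
  bif q.1.1 then
    bif decide (q.1.2.2.2.length < 2 ^ (top q.1.2.1).length) then
      false :: bits ((true, q.1.2.1, q.1.2.2.1, q.1.2.2.2 ++ q.1.2.2.2) : State)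
    else (dsel q.1.2.1 q.1.2.2.1.length q.1.2.2.2.length q.2).elim
      (false :: bits ((true, q.1.2.1, q.1.2.2.1, q.1.2.2.2) : State))
      (fun B => true :: bits (low q.1.2.1 ++ B))
  else bif (q.2.take (hh q.1.2.1 q.1.2.2.1.length)).all id then
    false :: bits ((true, q.1.2.1, q.1.2.2.1, q.1.2.2.2) : State)
    else true :: bits (low q.1.2.1 ++ wlk q.1.2.1 q.1.2.2.1.length q.2)

/-- the program of a stage, for bit strings -/
def stageB (a : List Bool) : List Bool :=
  (unbits State (unpair a).1).elim [] fun s => stage (s, (unpair a).2)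

/-- the initialization -/
def initB (c : ℕ) (x : List Bool) : List Bool :=
  (unbits (List (List ℕ)) x).elim [] fun L => bits ((false, L, List.replicate c (),
    List.replicate (pp L c) ()) : State)

section

variable {α : Type} [TEnc α]

attribute [fun_prop] Poly.ineg Poly.isum

@[fun_prop]
theorem poly_coef {f g : α → List ℕ} (hf : Poly f) (hg : Poly g) :
    Poly (fun a => coef (f a) (g a)) := by
  unfold coef
  have h1 : Poly (fun _ : α => (-1 : ℤ)) := NPC.Poly.const _
  fun_prop

theorem poly_ind {L B : α → List (List ℕ)} (hL : Poly L) (hB : Poly B) :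
    Poly (fun a => ind (L a) (B a)) := by
  unfold ind
  have h1 : Poly (fun a => (B a).map fun f => (L a).map fun g => coef f g) := by fun_prop
  have h2 := NPC.H670R2.poly_gdet h1
  exact Poly.not (Poly.dec_eq h2 (NPC.Poly.const 0))

@[fun_prop]
theorem poly_top {L : α → List (List ℕ)} (hL : Poly L) : Poly (fun a => top (L a)) := by
  unfold top
  fun_prop

@[fun_prop]
theorem poly_low {L : α → List (List ℕ)} (hL : Poly L) : Poly (fun a => low (L a)) := by
  unfold low
  fun_prop

theorem upoly_hh {L : α → List (List ℕ)} {c : α → ℕ} (hL : Poly L) (hc : UPoly c) :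
    UPoly (fun a => hh (L a) (c a)) :=
  hc.mul (UPoly.length (poly_top hL))

theorem upoly_tt {L : α → List (List ℕ)} {c : α → ℕ} (hL : Poly L) (hc : UPoly c) :
    UPoly (fun a => tt (L a) (c a)) :=
  ((UPoly.const 32).mul ((UPoly.length (poly_top hL)).add (upoly_hh hL hc))).mul
    ((UPoly.length (poly_top hL)).mul (UPoly.length (poly_top hL)))

theorem upoly_pp {L : α → List (List ℕ)} {c : α → ℕ} (hL : Poly L) (hc : UPoly c) :
    UPoly (fun a => pp (L a) (c a)) :=
  (((((UPoly.const 2).mul (upoly_wid (poly_top hL))).mul (upoly_tt hL hc)).add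
    (upoly_hh hL hc)).add (UPoly.length (poly_top hL))).add (UPoly.const 2)

theorem poly_ind_top {L : α → List (List ℕ)} (hL : Poly L) :
    Poly (fun p : α × List (List ℕ) => ind (L p.1) p.2) :=
  poly_ind (L := fun p : α × List (List ℕ) => L p.1) (by fun_prop) (by fun_prop)

theorem poly_wt {L : α → List (List ℕ)} {c N : α → ℕ} (hL : Poly L) (hc : UPoly c)
    (hN : UPoly N) : Poly (fun a => wt (L a) (c a) (N a)) :=
  poly_wts (I := fun a => ind (L a)) hN (poly_top hL) (poly_ind_top hL) (upoly_tt hL hc)
    (upoly_hh hL hc)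

theorem poly_dsel {L : α → List (List ℕ)} {c N : α → ℕ} {r : α → List Bool} (hL : Poly L)
    (hc : UPoly c) (hN : UPoly N) (hr : Poly r) :
    Poly (fun a => dsel (L a) (c a) (N a) (r a)) := by
  have h1 := poly_wt hL hc hN
  have h2 : Poly (fun a => (((wt (L a) (c a) (N a)).map Prod.snd).sum.bits.length)) :=
    Poly.length (Poly.natBits (Poly.sum (NPC.Poly.map (F := fun _ p => p.2) h1 (by fun_prop))))
  have h3 : Poly (fun a => valB ((r a).take
    ((((wt (L a) (c a) (N a)).map Prod.snd).sum.bits.length)))) := Poly.valBits (poly_take hr h2)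
  exact Poly.snd (poly_selc h3 h1)

theorem poly_wlk {L : α → List (List ℕ)} {c : α → ℕ} {r : α → List Bool} (hL : Poly L)
    (hc : UPoly c) (hr : Poly r) : Poly (fun a => wlk (L a) (c a) (r a)) := by
  have h1 : Poly (fun a => hh (L a) (c a)) := (upoly_hh hL hc).toPoly
  exact poly_walk (I := fun a => ind (L a)) (poly_top hL) (poly_ind_top hL)
    (poly_greedy (poly_top hL) (poly_ind_top hL)) (upoly_tt hL hc) (by fun_prop)

attribute [local irreducible] wlk dsel top low hh

theorem poly_bits_of {β : Type} [TEnc β] {f : α → β} (hf : Poly f) : Poly (fun a => bits (f a)) :=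
  R671.poly_bits.comp hf

theorem poly_stage : Poly stage := by
  have hL : Poly (fun q : State × List Bool => q.1.2.1) := by fun_prop
  have hc : Poly (fun q : State × List Bool => q.1.2.2.1) := by fun_prop
  have hp : Poly (fun q : State × List Bool => q.1.2.2.2) := by fun_prop
  have hr : Poly (fun q : State × List Bool => q.2) := by fun_prop
  have hb : Poly (fun q : State × List Bool => q.1.1) := by fun_prop
  have h1 := poly_dsel hL (UPoly.length hc) (UPoly.length hp) hr
  have h2 := poly_wlk hL (UPoly.length hc) hr
  have h3 : Poly (fun q : State × List Bool => 2 ^ (top q.1.2.1).length) :=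
    Poly.npow (NPC.Poly.const 2) (UPoly.length (poly_top hL))
  have h4 : Poly (fun q : State × List Bool => bits ((true, q.1.2.1, q.1.2.2.1, q.1.2.2.2) : State)) :=
    poly_bits_of (Poly.pair (NPC.Poly.const true) (Poly.pair hL (Poly.pair hc hp)))
  have h5 : Poly (fun q : State × List Bool =>
      bits ((true, q.1.2.1, q.1.2.2.1, q.1.2.2.2 ++ q.1.2.2.2) : State)) :=
    poly_bits_of (Poly.pair (NPC.Poly.const true) (Poly.pair hL (Poly.pair hc (Poly.append hp hp))))
  have h6 : Poly (fun p : (State × List Bool) × List (List ℕ) => bits (low p.1.1.2.1 ++ p.2)) :=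
    poly_bits_of (Poly.append (poly_low (by fun_prop)) (by fun_prop))
  have h7 : Poly (fun q : State × List Bool =>
      bits (low q.1.2.1 ++ wlk q.1.2.1 q.1.2.2.1.length q.2)) :=
    poly_bits_of (Poly.append (poly_low hL) h2)
  have h8 : Poly (fun q : State × List Bool =>
      (q.2.take (hh q.1.2.1 q.1.2.2.1.length)).all id) := by
    have h9 : Poly (fun q : State × List Bool => hh q.1.2.1 q.1.2.2.1.length) :=
      (upoly_hh hL (UPoly.length hc)).toPoly
    exact Poly.all (p := fun _ b => b) (poly_take hr h9) (by fun_prop)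
  unfold stage
  exact Poly.cond hb (Poly.cond (Poly.decide_lt (Poly.length hp) h3)
    (Poly.cons (NPC.Poly.const _) h5)
    (Poly.optElim (h := fun q B => true :: bits (low q.1.2.1 ++ B)) h1
      (Poly.cons (NPC.Poly.const _) h4) (Poly.cons (NPC.Poly.const _) h6)))
    (Poly.cond h8 (Poly.cons (NPC.Poly.const _) h4) (Poly.cons (NPC.Poly.const _) h7))

theorem poly_stageB : Poly stageB := by
  unfold stageB
  have h1 : Poly (fun a : List Bool => (unpair a).1) := Poly.fst poly_unpair
  have h2 : Poly (fun p : List Bool × State => (unpair p.1).2) :=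
    Poly.snd (poly_unpair.comp (Poly.fst Poly.id))
  exact Poly.optElim (h := fun a s => stage (s, (unpair a).2)) (poly_unbits.comp h1)
    (NPC.Poly.const _) (poly_stage.comp (f := fun p : List Bool × State => (p.2, (unpair p.1).2))
      (Poly.pair (Poly.snd Poly.id) h2))

theorem poly_initB (c : ℕ) : Poly (initB c) := by
  unfold initB
  have h1 : Poly (fun p : List Bool × List (List ℕ) => List.replicate (pp p.2 c) ()) :=
    upoly_pp (L := fun p : List Bool × List (List ℕ) => p.2) (Poly.snd Poly.id) (UPoly.const c)
  have h2 : Poly (fun p : List Bool × List (List ℕ) => List.replicate c ()) := UPoly.const c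
  exact Poly.optElim (h := fun _ L => bits ((false, L, List.replicate c (),
    List.replicate (pp L c) ()) : State)) poly_unbits (NPC.Poly.const _)
    (poly_bits_of (Poly.pair (NPC.Poly.const false) (Poly.pair (Poly.snd Poly.id)
      (Poly.pair h2 h1))))

end

theorem runs_of_poly {f : List Bool → List Bool} (hf : Poly f) :
    ∃ (c : Cmd ℕ) (p : Polynomial ℕ), ∀ a, Runs c (inp a) (inp (f a)) (p.eval a.length) := by
  obtain ⟨c, p, h⟩ := PC.comp (g := fun x => x) (f := f) H622R2.rawOut
    (PC.comp (g := f) (f := fun x => x) hf PC.rawIn)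
  exact ⟨c, p, h⟩

end Pool.Agent.P8H86.ST
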