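import Mathlib

/-!
# The trickling down lemma, with at most one positive eigenvalue
-/

set_option autoImplicit false

namespace Pool.Agent.P8H86.ST

open Finset Matrix

variable {X : Type} [Fintype X] [DecidableEq X]

/-- Let `b` be a symmetric matrix with nonnegative entries and positive row sums `s`, connected, with
`h ᵀ b h ≤ ∑ (b h)(x)² / s x` for all `h`. Then `v ᵀ b v ≤ 0` whenever `∑ s v = 0`. -/
theorem trickle (b : X → X → ℝ) (hsymm : ∀ x y, b x y = b y x) (hnn : ∀ x y, 0 ≤ b x y)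
    (s : X → ℝ) (hs : ∀ x, s x = ∑ y, b x y) (hpos : ∀ x, 0 < s x)
    (hloc : ∀ h : X → ℝ, ∑ x, ∑ y, b x y * h x * h y ≤ ∑ x, (∑ y, b x y * h y) ^ 2 / s x)
    (hconn : ∀ h : X → ℝ, (∀ x y, b x y ≠ 0 → h x = h y) → ∀ x y, h x = h y)
    (v : X → ℝ) (hv : ∑ x, s x * v x = 0) : ∑ x, ∑ y, b x y * v x * v y ≤ 0 := by
  classical
  let q : X → ℝ := fun x => Real.sqrt (s x)
  have hq : ∀ x, 0 < q x := fun x => Real.sqrt_pos.2 (hpos x)
  have hqq : ∀ x, q x * q x = s x := fun x => Real.mul_self_sqrt (hpos x).le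
  let A : Matrix X X ℝ := Matrix.of fun x y => b x y / (q x * q y)
  have hA : A.IsHermitian := by
    ext x y
    simp only [A, Matrix.conjTranspose_apply, Matrix.of_apply, star_trivial]
    rw [hsymm y x, mul_comm (q y)]
  -- the form of `A`
  have hform : ∀ g : X → ℝ, ∑ x, g x * (A *ᵥ g) x =
      ∑ x, ∑ y, b x y * (g x / q x) * (g y / q y) := by
    intro g
    refine sum_congr rfl fun x _ => ?_
    rw [Matrix.mulVec, dotProduct, mul_sum]
    refine sum_congr rfl fun y _ => ?_
    simp only [A, Matrix.of_apply]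
    field_simp
  have hmul : ∀ g : X → ℝ, ∀ x, (A *ᵥ g) x = (∑ y, b x y * (g y / q y)) / q x := by
    intro g x
    rw [Matrix.mulVec, dotProduct, sum_div]
    refine sum_congr rfl fun y _ => ?_
    simp only [A, Matrix.of_apply]
    field_simp
  have hsq : ∀ g : X → ℝ, ∑ x, ((A *ᵥ g) x) ^ 2 =
      ∑ x, (∑ y, b x y * (g y / q y)) ^ 2 / s x := by
    intro g
    refine sum_congr rfl fun x _ => ?_
    rw [hmul, div_pow, ← hqq x, sq (q x)]
  -- the Laplacian
  have hlap : ∀ h : X → ℝ, ∑ x, ∑ y, b x y * (h x - h y) ^ 2 =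
      2 * ∑ x, s x * h x ^ 2 - 2 * ∑ x, ∑ y, b x y * h x * h y := by
    intro h
    have e1 : ∑ x, ∑ y, b x y * h x ^ 2 = ∑ x, s x * h x ^ 2 := by
      refine sum_congr rfl fun x _ => ?_
      rw [hs x, sum_mul]
    have e2 : ∑ x, ∑ y, b x y * h y ^ 2 = ∑ x, s x * h x ^ 2 := by
      rw [sum_comm]
      refine sum_congr rfl fun x _ => ?_
      rw [hs x, sum_mul]
      exact sum_congr rfl fun y _ => by rw [hsymm]
    calc ∑ x, ∑ y, b x y * (h x - h y) ^ 2
        = ∑ x, ∑ y, (b x y * h x ^ 2 + b x y * h y ^ 2 - 2 * (b x y * h x * h y)) :=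
          sum_congr rfl fun x _ => sum_congr rfl fun y _ => by ring
      _ = _ := by
          simp only [sum_sub_distrib, sum_add_distrib, ← mul_sum]
          rw [e1, e2]
          ring
  let V := hA.eigenvectorBasis
  let μ := hA.eigenvalues
  have hV : ∀ i, A *ᵥ (V i).ofLp = μ i • (V i).ofLp := fun i => hA.mulVec_eigenvectorBasis i
  have hnorm : ∀ i, ∑ x, (V i).ofLp x ^ 2 = 1 := by
    intro i
    have h1 : ‖V i‖ = 1 := V.orthonormal.1 i
    have h2 := EuclideanSpace.norm_sq_eq (V i)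
    rw [h1] at h2
    simpa using h2.symm
  have hVform : ∀ i, ∑ x, (V i).ofLp x * (A *ᵥ (V i).ofLp) x = μ i := by
    intro i
    rw [hV i]
    simp only [Pi.smul_apply, smul_eq_mul]
    calc ∑ x, (V i).ofLp x * (μ i * (V i).ofLp x) = μ i * ∑ x, (V i).ofLp x ^ 2 := by
          rw [mul_sum]; exact sum_congr rfl fun x _ => by ring
      _ = μ i := by rw [hnorm, mul_one]
  have hVsq : ∀ i, ∑ x, ((A *ᵥ (V i).ofLp) x) ^ 2 = μ i ^ 2 := by
    intro i
    rw [hV i]
    simp only [Pi.smul_apply, smul_eq_mul]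
    calc ∑ x, (μ i * (V i).ofLp x) ^ 2 = μ i ^ 2 * ∑ x, (V i).ofLp x ^ 2 := by
          rw [mul_sum]; exact sum_congr rfl fun x _ => by ring
      _ = μ i ^ 2 := by rw [hnorm, mul_one]
  have hle : ∀ i, μ i ≤ μ i ^ 2 := by
    intro i
    have h1 := hloc fun x => (V i).ofLp x / q x
    rw [← hform, ← hsq, hVform, hVsq] at h1
    exact h1
  have hnq : ∀ i, ∑ x, s x * ((V i).ofLp x / q x) ^ 2 = 1 := by
    intro i
    rw [← hnorm i]
    refine sum_congr rfl fun x _ => ?_
    rw [div_pow, ← hqq x]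
    have := (hq x).ne'
    field_simp
  have hone : ∀ i, μ i ≤ 1 := by
    intro i
    have h1 := hlap fun x => (V i).ofLp x / q x
    have h2 : 0 ≤ ∑ x, ∑ y, b x y * ((V i).ofLp x / q x - (V i).ofLp y / q y) ^ 2 :=
      sum_nonneg fun x _ => sum_nonneg fun y _ => mul_nonneg (hnn x y) (sq_nonneg _)
    rw [h1, hnq, ← hform, hVform] at h2
    linarith
  -- the eigenvectors for the eigenvalue one
  have hconst : ∀ i, μ i = 1 → ∀ x y, (V i).ofLp x / q x = (V i).ofLp y / q y := by
    intro i hi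
    refine hconn (fun x => (V i).ofLp x / q x) fun x y hxy => ?_
    have h1 := hlap fun x => (V i).ofLp x / q x
    rw [hnq, ← hform, hVform, hi] at h1
    have h2 : ∑ x, ∑ y, b x y * ((V i).ofLp x / q x - (V i).ofLp y / q y) ^ 2 = 0 := by
      rw [h1]; ring
    have h3 := (sum_eq_zero_iff_of_nonneg fun x _ => sum_nonneg fun y _ =>
      mul_nonneg (hnn x y) (sq_nonneg _)).1 h2 x (mem_univ _)
    have h4 := (sum_eq_zero_iff_of_nonneg fun y _ =>
      mul_nonneg (hnn x y) (sq_nonneg _)).1 h3 y (mem_univ _)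
    rcases mul_eq_zero.1 h4 with h | h
    · exact absurd h hxy
    · exact sub_eq_zero.1 (pow_eq_zero_iff (by norm_num) |>.1 h)
  -- the expansion
  let g : EuclideanSpace ℝ X := WithLp.toLp 2 fun x => q x * v x
  have hgx : ∀ x, g.ofLp x = q x * v x := fun x => rfl
  let c : X → ℝ := fun i => inner ℝ (V i) g
  have hg : g = ∑ i, c i • V i := (V.sum_repr' g).symm
  have hgA : A *ᵥ g.ofLp = ∑ i, (c i * μ i) • (V i).ofLp := by
    have h1 : g.ofLp = ∑ i, c i • (V i).ofLp := by
      conv_lhs => rw [hg]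
      ext x
      simp [Finset.sum_apply]
    conv_lhs => rw [h1]
    rw [Matrix.mulVec_sum]
    refine sum_congr rfl fun i _ => ?_
    rw [Matrix.mulVec_smul, hV, smul_smul]
  have hin : ∀ i, ∑ x, g.ofLp x * (V i).ofLp x = c i := by
    intro i
    simp only [c, EuclideanSpace.inner_eq_star_dotProduct, dotProduct, star_trivial, Pi.star_apply]
  have key : ∑ x, ∑ y, b x y * v x * v y = ∑ i, μ i * c i ^ 2 := by
    have h1 : ∑ x, ∑ y, b x y * v x * v y = ∑ x, g.ofLp x * (A *ᵥ g.ofLp) x := by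
      rw [hform]
      refine sum_congr rfl fun x _ => sum_congr rfl fun y _ => ?_
      rw [hgx, hgx, mul_div_cancel_left₀ _ (hq x).ne', mul_div_cancel_left₀ _ (hq y).ne']
    rw [h1, hgA]
    have h2 : ∀ x, g.ofLp x * (∑ i, (c i * μ i) • (V i).ofLp) x =
        ∑ i, (c i * μ i) * (g.ofLp x * (V i).ofLp x) := by
      intro x
      rw [Finset.sum_apply, mul_sum]
      refine sum_congr rfl fun i _ => ?_
      rw [Pi.smul_apply, smul_eq_mul]
      ring
    rw [sum_congr rfl fun x _ => h2 x, sum_comm]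
    refine sum_congr rfl fun i _ => ?_
    rw [← mul_sum, hin]
    ring
  rw [key]
  refine sum_nonpos fun i _ => ?_
  by_cases hi : μ i ≤ 0
  · exact mul_nonpos_of_nonpos_of_nonneg hi (sq_nonneg _)
  · push Not at hi
    have h1 : 1 ≤ μ i := by
      have := hle i
      nlinarith
    have h2 : μ i = 1 := le_antisymm (hone i) h1
    have h3 : c i = 0 := by
      rw [← hin i]
      by_cases hX : Nonempty X
      · obtain ⟨x0⟩ := hX
        have h4 : ∀ x, (V i).ofLp x = q x * ((V i).ofLp x0 / q x0) := by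
          intro x
          have := hconst i h2 x x0
          rw [← this]
          field_simp [(hq x).ne']
        calc ∑ x, g.ofLp x * (V i).ofLp x
            = ∑ x, (s x * v x) * ((V i).ofLp x0 / q x0) := by
              refine sum_congr rfl fun x _ => ?_
              rw [h4 x, hgx, ← hqq x]
              ring
          _ = 0 := by rw [← sum_mul, hv, zero_mul]
      · rw [not_nonempty_iff] at hX
        simp
    rw [h3]
    simp

end Pool.Agent.P8H86.ST
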